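import Pool.Agent.Helper65.BF.Hyp

/-!
Degenerate curves of bounded derivative are constant or lie in lines.
-/

set_option autoImplicit false

open Filter Topology Metric MvPolynomial Set

namespace Pool.Agent.Helper65.BF

open Pool.Agent.W602.GT Pool.Agent.N155.BB Pool.Agent.Y190.OP Pool.Agent.N155

variable {n m e d : ℕ} {ℓ : Fin (n + 1) → Fin 3 → ℂ}

/-- the curves over a line in the plane -/
theorem exists_kap (hg : GeneralPosition ℓ)
    {φ : ℂ → Mat (n + 1)} (hφ : BD (TF (fermatForms ℓ (d + 1))) φ) {t : Fin 3 → Fin (n + 1)}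
    {b : Fin 3 → ℂ} (ht : Function.Injective t) (hb : b ≠ 0)
    (h0 : ∀ z i, φ z i i ≠ 0 → ∑ a, b a * cu φ i z (t a) ^ (d + 1) = 0) :
    ∃ κ : Fin (n + 1) → Fin 2 → ℂ, BD (TF (fermatForms κ (d + 1))) φ ∧
      (∀ t : Fin 3 → Fin (n + 1), Function.Injective t →
        ∃ i j, D2 (κ (t i)) (κ (t j)) ≠ 0) ∧
      ∀ c : Fin (n + 1) → ℂ, ∑ l, c l • ℓ l = 0 → ∑ l, c l • κ l = 0 := by
  set μ : Fin 3 → ℂ := fun j => ∑ a, b a * ℓ (t a) j with hμ
  have hμ0 : μ ≠ 0 := by
    intro h1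
    apply hb
    have h2 := Fintype.linearIndependent_iff.1 (hg t ht) b (by
      funext j
      rw [Finset.sum_apply]
      exact congrFun h1 j)
    exact funext h2
  obtain ⟨B, hB, hB'⟩ := exists_ker hμ0
  refine ⟨kap ℓ B, ⟨hφ.hol, fun z => ?_, hφ.bd⟩, fun t ht => kap_three hg hB' ht, fun c hc => ?_⟩
  · obtain ⟨i, hi⟩ := PM.exists_diag (TF_PM (hφ.mem z))
    have hx := mem_cone.1 (chart_cone form_fermat (hφ.mem z) hi)
    obtain ⟨u, hu⟩ := exists_u (hg.mt ht) hx.2
    have h1 : ∑ j, μ j * u j = 0 := by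
      have h2 := h0 z i hi
      rw [← h2]
      simp only [hμ, Finset.sum_mul]
      rw [Finset.sum_comm]
      refine Finset.sum_congr rfl fun a _ => ?_
      have h3 : cu φ i z (t a) ^ (d + 1) = ∑ j, ℓ (t a) j * u j := hu (t a)
      rw [h3, Finset.mul_sum]
      exact Finset.sum_congr rfl fun j _ => by ring
    obtain ⟨w, hw⟩ := hB u h1
    refine ⟨chart i (φ z), mem_cone.2 ⟨hx.1, fun c hc => ?_⟩,
      PM.Phi_chart (TF_PM (hφ.mem z)) hi⟩
    refine rel_of_u (u := w) (fun l => ?_) hc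
    rw [hu l]
    simp only [kap, hw, Finset.mul_sum, Finset.sum_mul]
    rw [Finset.sum_comm]
    exact Finset.sum_congr rfl fun k _ => Finset.sum_congr rfl fun j _ => by ring
  · funext k
    rw [Finset.sum_apply]
    simp only [Pi.smul_apply, smul_eq_mul, kap, Finset.mul_sum, Pi.zero_apply]
    rw [Finset.sum_comm]
    refine Finset.sum_eq_zero fun j _ => ?_
    have h1 := congrFun hc j
    rw [Finset.sum_apply] at h1
    simp only [Pi.smul_apply, smul_eq_mul, Pi.zero_apply] at h1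
    calc ∑ l, c l * (ℓ l j * B j k) = (∑ l, c l * ℓ l j) * B j k := by
          rw [Finset.sum_mul]
          exact Finset.sum_congr rfl fun l _ => by ring
      _ = 0 := by rw [h1, zero_mul]

theorem indep_D2 {a b : Fin 2 → ℂ} (h : D2 a b ≠ 0) : LinearIndependent ℂ ![a, b] := by
  rw [LinearIndependent.pair_iff]
  intro s t hst
  have e0 := congrFun hst 0
  have e1 := congrFun hst 1
  simp only [Pi.add_apply, Pi.smul_apply, smul_eq_mul, Pi.zero_apply] at e0 e1
  unfold D2 at h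
  constructor
  · have h1 : s * (a 0 * b 1 - a 1 * b 0) = 0 := by linear_combination b 1 * e0 - b 0 * e1
    exact (mul_eq_zero.1 h1).resolve_right h
  · have h1 : t * (a 0 * b 1 - a 1 * b 0) = 0 := by linear_combination a 0 * e1 - a 1 * e0
    exact (mul_eq_zero.1 h1).resolve_right h

/-- the general position of the representatives -/
theorem gp_of {κ : Fin (n + 1) → Fin 2 → ℂ} {p : ℕ} {J : Fin (p + 1) → Fin (n + 1)}
    (hJ : ∀ a b, a ≠ b → D2 (κ (J a)) (κ (J b)) ≠ 0) : GeneralPosition fun l => κ (J l) := by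
  intro t ht
  have h1 : (fun i => κ (J (t i))) = ![κ (J (t 0)), κ (J (t 1))] := by
    funext i
    fin_cases i <;> rfl
  rw [h1]
  exact indep_D2 (hJ _ _ fun h => zero_ne_one (ht h))

/-- many classes -/
theorem flat_of_card {κ : Fin (n + 1) → Fin 2 → ℂ} {I : Finset (Fin (n + 1))}
    (hI : ∀ a ∈ I, ∀ b ∈ I, a ≠ b → D2 (κ a) (κ b) ≠ 0) {d : ℕ} (hc : 3 ≤ (I.card - 2) * d)
    {φ : ℂ → Mat (n + 1)} (hφ : BD (TF (fermatForms κ (d + 1))) φ) (z : ℂ) :
    fderiv ℝ φ z = 0 := by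
  obtain ⟨p, hp⟩ : ∃ p, I.card = p + 1 := ⟨I.card - 1, by
    have : I.card - 2 ≠ 0 := by
      intro h
      rw [h] at hc
      omega
    omega⟩
  obtain ⟨s, hs⟩ : ∃ s, (p - 1) * d = s + 3 := ⟨(p - 1) * d - 3, by
    have : I.card - 2 = p - 1 := by omega
    rw [this] at hc
    omega⟩
  have hJ : ∀ a b, a ≠ b → D2 (κ (I.orderEmbOfFin hp a)) (κ (I.orderEmbOfFin hp b)) ≠ 0 :=
    fun a b hab => hI _ (I.orderEmbOfFin_mem hp a) _ (I.orderEmbOfFin_mem hp b)
      fun h => hab ((I.orderEmbOfFin hp).injective h)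
  exact flat_const (J := I.orderEmbOfFin hp) (gp_of hJ) hs hφ z

/-- a relation between powers of two coordinates -/
theorem ratio {κ : Fin (n + 1) → Fin 2 → ℂ}
    {φ : ℂ → Mat (n + 1)} (hφ : BD (TF (fermatForms κ (d + 1))) φ) {a b : Fin (n + 1)}
    (ha : κ a ≠ 0) (hab : D2 (κ a) (κ b) = 0) : ∃ r r0 : ℂ, r ^ (d + 1) = r0 ∧
      κ b = r0 • κ a ∧ ∀ z i, φ z i i ≠ 0 → cu φ i z b = r * cu φ i z a := by
  classical
  -- proportionality
  obtain ⟨r0, hr0⟩ : ∃ r0 : ℂ, κ b = r0 • κ a := by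
    by_cases h0 : κ a 0 = 0
    · have h1 : κ a 1 ≠ 0 := fun h => ha (by
        funext k
        fin_cases k
        · exact h0
        · exact h)
      unfold D2 at hab
      rw [h0, zero_mul, zero_sub, neg_eq_zero] at hab
      have h2 := (mul_eq_zero.1 hab).resolve_left h1
      refine ⟨κ b 1 / κ a 1, ?_⟩
      funext k
      fin_cases k
      · change κ b 0 = κ b 1 / κ a 1 * κ a 0
        rw [h2, h0, mul_zero]
      · change κ b 1 = κ b 1 / κ a 1 * κ a 1
        field_simp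
    · refine ⟨κ b 0 / κ a 0, ?_⟩
      funext k
      unfold D2 at hab
      fin_cases k
      · change κ b 0 = κ b 0 / κ a 0 * κ a 0
        field_simp
      · change κ b 1 = κ b 0 / κ a 0 * κ a 1
        field_simp
        linear_combination hab
  have hrel : ∀ z i, φ z i i ≠ 0 → cu φ i z b ^ (d + 1) = r0 * cu φ i z a ^ (d + 1) := by
    intro z i hi
    have hx := (mem_cone.1 (chart_cone form_fermat (hφ.mem z) hi)).2
      (Pi.single b 1 - r0 • Pi.single a 1) (by
        simp only [Pi.sub_apply, Pi.smul_apply, sub_smul, Finset.sum_sub_distrib]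
        have h1 : ∀ c : Fin (n + 1), ∑ l, (Pi.single c (1 : ℂ) : Fin (n + 1) → ℂ) l • κ l = κ c := by
          intro c
          rw [Finset.sum_eq_single c]
          · simp
          · intro l _ hl
            rw [Pi.single_eq_of_ne hl, zero_smul]
          · simp
        have h2 : ∑ l, (r0 • (Pi.single a (1 : ℂ) : Fin (n + 1) → ℂ) l) • κ l =
            r0 • ∑ l, (Pi.single a (1 : ℂ) : Fin (n + 1) → ℂ) l • κ l := by
          rw [Finset.smul_sum]
          exact Finset.sum_congr rfl fun l _ => smul_assoc _ _ _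
        rw [h2, h1, h1, hr0, sub_self])
    simp only [Pi.sub_apply, Pi.smul_apply, sub_mul, Finset.sum_sub_distrib] at hx
    have h1 : ∀ c : Fin (n + 1), ∑ l, (Pi.single c (1 : ℂ) : Fin (n + 1) → ℂ) l *
        chart i (φ z) l ^ (d + 1) = chart i (φ z) c ^ (d + 1) := by
      intro c
      rw [Finset.sum_eq_single c]
      · simp
      · intro l _ hl
        rw [Pi.single_eq_of_ne hl, zero_mul]
      · simp
    have h2 : ∑ l, (r0 • (Pi.single a (1 : ℂ) : Fin (n + 1) → ℂ) l) * chart i (φ z) l ^ (d + 1) =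
        r0 * ∑ l, (Pi.single a (1 : ℂ) : Fin (n + 1) → ℂ) l * chart i (φ z) l ^ (d + 1) := by
      rw [Finset.mul_sum]
      exact Finset.sum_congr rfl fun l _ => by rw [smul_eq_mul, mul_assoc]
    rw [h2, h1, h1] at hx
    exact sub_eq_zero.1 hx
  -- a root
  obtain ⟨r', hr'⟩ := IsAlgClosed.exists_pow_nat_eq r0 (Nat.succ_pos d)
  have hζ := Complex.isPrimitiveRoot_exp (d + 1) (Nat.succ_ne_zero d)
  set ζ : ℂ := Complex.exp (2 * Real.pi * Complex.I / ((d + 1 : ℕ) : ℂ)) with hζd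
  have hpt : ∀ z i, φ z i i ≠ 0 → ∃ k : Fin (d + 1),
      cu φ i z b - ζ ^ (k : ℕ) * r' * cu φ i z a = 0 := by
    intro z i hi
    have h1 := hrel z i hi
    rw [← hr', ← mul_pow] at h1
    by_cases h2 : r' * cu φ i z a = 0
    · rw [h2, zero_pow (Nat.succ_ne_zero d)] at h1
      refine ⟨0, ?_⟩
      rw [(pow_eq_zero_iff (Nat.succ_ne_zero d)).1 h1, mul_assoc, h2]
      ring
    · have h3 : (cu φ i z b / (r' * cu φ i z a)) ^ (d + 1) = 1 := by
        rw [div_pow, h1, div_self (pow_ne_zero _ h2)]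
      obtain ⟨k, hk, hk'⟩ := hζ.eq_pow_of_pow_eq_one h3
      refine ⟨⟨k, hk⟩, ?_⟩
      rw [eq_div_iff h2] at hk'
      rw [← hk']
      ring
  obtain ⟨i, hi⟩ := PM.exists_diag (TF_PM (hφ.mem 0))
  have han : ∀ k : Fin (d + 1), AnalyticAt ℂ
      (fun z => cu φ i z b - ζ ^ (k : ℕ) * r' * cu φ i z a) 0 := fun k =>
    ((analyticAt_pi_iff.1 (cu_an hφ.hol i hi)) b).sub
      (analyticAt_const.mul ((analyticAt_pi_iff.1 (cu_an hφ.hol i hi)) a))
  obtain ⟨k, hk⟩ : ∃ k : Fin (d + 1), ∀ᶠ z in 𝓝 (0 : ℂ),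
      cu φ i z b - ζ ^ (k : ℕ) * r' * cu φ i z a = 0 := by
    by_contra hcon
    have hcon' : ∀ k : Fin (d + 1), ¬ ∀ᶠ z in 𝓝 (0 : ℂ),
      cu φ i z b - ζ ^ (k : ℕ) * r' * cu φ i z a = 0 := fun k hk => hcon ⟨k, hk⟩
    have h1 : ∀ᶠ z in 𝓝[≠] (0 : ℂ), ∀ k : Fin (d + 1),
        cu φ i z b - ζ ^ (k : ℕ) * r' * cu φ i z a ≠ 0 := by
      rw [eventually_all]
      intro k
      exact ((han k).eventually_eq_zero_or_eventually_ne_zero).resolve_left (hcon' k)
    obtain ⟨w, hw1, hw2⟩ := (h1.and ((ev_diag hφ.hol hi).filter_mono nhdsWithin_le_nhds)).exists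
    obtain ⟨k, hk⟩ := hpt w i hw2
    exact hw1 k hk
  refine ⟨ζ ^ (k : ℕ) * r', r0, ?_, hr0, fun z j hj => ?_⟩
  · rw [mul_pow, ← pow_mul, mul_comm (k : ℕ), pow_mul, hζ.pow_eq_one, one_pow, one_mul, hr']
  · set G : MvPolynomial (Fin (n + 1)) ℂ := X b - C (ζ ^ (k : ℕ) * r') * X a with hG
    have hGh : G.IsHomogeneous 1 := by
      have h1 := (isHomogeneous_C (Fin (n + 1)) (ζ ^ (k : ℕ) * r')).mul (isHomogeneous_X ℂ a)
      rw [zero_add] at h1
      exact (isHomogeneous_X ℂ b).sub h1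
    have hGe : ∀ x, eval x G = x b - ζ ^ (k : ℕ) * r' * x a := by
      intro x
      rw [hG]
      simp
    have h2 := form_zero hφ.hol hGh hi (by
      filter_upwards [hk] with w hw
      rw [hGe]
      exact hw) hj
    rw [hGe] at h2
    linear_combination h2

/-- **Degenerate curves are constant.** -/
theorem deg_flat (hg : GeneralPosition ℓ) (hn : n = m + 2) (hme : m * e = 6) (hm : 2 ≤ m)
    {φ : ℂ → Mat (n + 1)} (hφ : BD (TF (fermatForms ℓ (e + 2))) φ)
    (h0 : ∀ z i t, φ z i i ≠ 0 → Adm (Zs (cu φ i z)) t → vl (qw ℓ e) φ i t z = 0) (z : ℂ) :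
    fderiv ℝ φ z = 0 := by
  obtain ⟨t, b, ht, hb, h1⟩ := wron_zero hg (by omega) hφ h0
  obtain ⟨κ, hκ, h3, -⟩ := exists_kap hg hφ ht hb h1
  obtain ⟨I, g, hI, h2, hc, -, -⟩ := exists_I (by omega) h3
  refine flat_of_card hI (d := e + 1) ?_ hκ z
  have hm6 : m ≤ 6 := by
    have : e ≠ 0 := by
      rintro rfl
      omega
    nlinarith [Nat.pos_of_ne_zero this]
  interval_cases m
  · have : e = 3 := by omega
    subst this
    have : 1 ≤ I.card - 2 := by omega
    nlinarith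
  · have : e = 2 := by omega
    subst this
    have : 1 ≤ I.card - 2 := by omega
    nlinarith
  · omega
  · omega
  · have : e = 1 := by omega
    subst this
    have : 3 ≤ I.card - 2 := by omega
    nlinarith

end Pool.Agent.Helper65.BF
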