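import Mathlib

/-!
Linear algebra: quotients of determinants that do not depend on the choice of the rows.
-/

set_option autoImplicit false

open Filter Topology Finset

namespace Pool.Agent.Helper65.BF

variable {ι : Type} [Fintype ι] [DecidableEq ι] {r : ℕ}

/-- the minor of the rows `t` -/
noncomputable def Mt (ℓ : ι → Fin r → ℂ) (t : Fin r → ι) : ℂ :=
  Matrix.det (Matrix.of fun i j => ℓ (t i) j)

/-- the minor of the vectors `s k` -/
noncomputable def St (s : Fin r → ι → ℂ) (t : Fin r → ι) : ℂ :=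
  Matrix.det (Matrix.of fun i k => s k (t i))

/-- the product over the other indices -/
noncomputable def Gt (g : ι → ℂ) (t : Fin r → ι) : ℂ := ∏ l ∈ (univ.image t)ᶜ, g l

theorem Gt_ne {g : ι → ℂ} {t : Fin r → ι} : Gt g t ≠ 0 ↔ ∀ l, (∀ i, t i ≠ l) → g l ≠ 0 := by
  unfold Gt
  rw [Finset.prod_ne_zero_iff]
  simp only [mem_compl, mem_image, mem_univ, true_and, not_exists]

theorem prod_all {g : ι → ℂ} {t : Fin r → ι} (ht : Function.Injective t) :
    ∏ l, g l = (∏ i, g (t i)) * Gt g t := by
  unfold Gt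
  rw [← Finset.prod_mul_prod_compl (univ.image t), Finset.prod_image fun a _ b _ h => ht h]

/-- the case of nonzero factors -/
theorem ex_ne {ℓ : ι → Fin r → ℂ} {g : ι → ℂ} {s : Fin r → ι → ℂ} {u : Fin r → Fin r → ℂ}
    (hu : ∀ k l, g l * s k l = ∑ j, ℓ l j * u k j) (hg : ∀ l, g l ≠ 0) {t t' : Fin r → ι}
    (ht : Function.Injective t) (ht' : Function.Injective t') :
    St s t * (Mt ℓ t' * Gt g t') = St s t' * (Mt ℓ t * Gt g t) := by
  have key : ∀ t : Fin r → ι, (∏ i, g (t i)) * St s t =
      Mt ℓ t * Matrix.det (Matrix.of fun j k => u k j) := by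
    intro t
    unfold St Mt
    rw [← Matrix.det_mul_column, ← Matrix.det_mul]
    congr 1
    ext i k
    rw [Matrix.mul_apply]
    simp only [Matrix.of_apply]
    exact hu k (t i)
  have h1 := key t
  have h2 := key t'
  have h3 := prod_all (g := g) ht
  have h4 := prod_all (g := g) ht'
  have hP : ∏ l, g l ≠ 0 := Finset.prod_ne_zero_iff.2 fun l _ => hg l
  apply mul_left_cancel₀ hP
  set P := ∏ l, g l
  set U := Matrix.det (Matrix.of fun j k => u k j)
  calc P * (St s t * (Mt ℓ t' * Gt g t')) =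
      ((∏ i, g (t i)) * St s t) * Gt g t * (Mt ℓ t' * Gt g t') := by rw [h3]; ring
    _ = ((∏ i, g (t' i)) * St s t') * Gt g t' * (Mt ℓ t * Gt g t) := by rw [h1, h2]; ring
    _ = P * (St s t' * (Mt ℓ t * Gt g t)) := by rw [h4]; ring

/-- **The quotient does not depend on the rows.** -/
theorem ex {ℓ : ι → Fin r → ℂ} {g : ι → ℂ} {s : Fin r → ι → ℂ} {u : Fin r → Fin r → ℂ}
    (hu : ∀ k l, g l * s k l = ∑ j, ℓ l j * u k j) {t t' : Fin r → ι}
    (ht : Function.Injective t) (ht' : Function.Injective t') (hM : Mt ℓ t ≠ 0)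
    (hG : Gt g t ≠ 0) (hG' : Gt g t' ≠ 0) :
    St s t * (Mt ℓ t' * Gt g t') = St s t' * (Mt ℓ t * Gt g t) := by
  classical
  rw [Gt_ne] at hG hG'
  -- the vectors with given coordinates in `t`
  have hv : ∀ k, ∃ v : Fin r → ℂ, ∀ i, ∑ j, ℓ (t i) j * v j = s k (t i) := by
    intro k
    have hu' : IsUnit (Matrix.of fun i j => ℓ (t i) j : Matrix (Fin r) (Fin r) ℂ) :=
      (Matrix.isUnit_iff_isUnit_det _).2 (isUnit_iff_ne_zero.2 hM)
    obtain ⟨v, hv⟩ := (Matrix.mulVec_surjective_iff_isUnit.2 hu') fun i => s k (t i)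
    exact ⟨v, fun i => congrFun hv i⟩
  choose v hv using hv
  set gε : ℂ → ι → ℂ := fun ε l => if g l = 0 then ε else g l with hgε
  set sε : ℂ → Fin r → ι → ℂ := fun ε k l => if g l = 0 then s k l else
    (∑ j, ℓ l j * (u k j + ε * v k j)) / g l with hsε
  have h1 : ∀ ε k l, gε ε l * sε ε k l = ∑ j, ℓ l j * (u k j + ε * v k j) := by
    intro ε k l
    by_cases hl : g l = 0
    · have hlt : ∃ i, t i = l := by
        by_contra hcon
        push Not at hcon
        exact hG l hcon hl
      obtain ⟨i, rfl⟩ := hlt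
      simp only [hgε, hsε, if_pos hl]
      have h2 := hu k (t i)
      rw [hl, zero_mul] at h2
      simp only [mul_add, Finset.sum_add_distrib]
      rw [← h2, zero_add, ← hv k i, Finset.mul_sum]
      exact Finset.sum_congr rfl fun j _ => by ring
    · simp only [hgε, hsε, if_neg hl]
      field_simp
  have hGt : ∀ ε, Gt (gε ε) t = Gt g t := by
    intro ε
    unfold Gt
    refine Finset.prod_congr rfl fun l hl => ?_
    simp only [mem_compl, mem_image, mem_univ, true_and, not_exists] at hl
    simp only [hgε, if_neg (hG l hl)]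
  have hGt' : ∀ ε, Gt (gε ε) t' = Gt g t' := by
    intro ε
    unfold Gt
    refine Finset.prod_congr rfl fun l hl => ?_
    simp only [mem_compl, mem_image, mem_univ, true_and, not_exists] at hl
    simp only [hgε, if_neg (hG' l hl)]
  have h2 : ∀ ε : ℂ, ε ≠ 0 → St (sε ε) t * (Mt ℓ t' * Gt g t') =
      St (sε ε) t' * (Mt ℓ t * Gt g t) := by
    intro ε hε
    have h3 := ex_ne (h1 ε) (fun l => by
      by_cases hl : g l = 0
      · simp only [hgε, if_pos hl]
        exact hε
      · simp only [hgε, if_neg hl]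
        exact hl) ht ht'
    rwa [hGt, hGt'] at h3
  have hc : ∀ t : Fin r → ι, Continuous fun ε => St (sε ε) t := by
    intro t
    unfold St
    apply Continuous.matrix_det
    refine continuous_pi fun i => continuous_pi fun k => ?_
    simp only [Matrix.of_apply]
    by_cases hl : g (t i) = 0
    · simp only [hsε, if_pos hl]
      exact continuous_const
    · simp only [hsε, if_neg hl]
      fun_prop
  have h0 : ∀ t : Fin r → ι, St (sε 0) t = St s t := by
    intro t
    unfold St
    congr 1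
    ext i k
    simp only [Matrix.of_apply]
    by_cases hl : g (t i) = 0
    · simp only [hsε, if_pos hl]
    · simp only [hsε, if_neg hl]
      rw [div_eq_iff hl, mul_comm]
      rw [hu k (t i)]
      simp
  have h3 : Tendsto (fun ε => St (sε ε) t * (Mt ℓ t' * Gt g t')) (𝓝[≠] (0 : ℂ))
      (𝓝 (St s t * (Mt ℓ t' * Gt g t'))) := by
    rw [← h0 t]
    exact ((((hc t).mul continuous_const).tendsto 0).mono_left nhdsWithin_le_nhds)
  have h4 : Tendsto (fun ε => St (sε ε) t' * (Mt ℓ t * Gt g t)) (𝓝[≠] (0 : ℂ))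
      (𝓝 (St s t' * (Mt ℓ t * Gt g t))) := by
    rw [← h0 t']
    exact ((((hc t').mul continuous_const).tendsto 0).mono_left nhdsWithin_le_nhds)
  refine tendsto_nhds_unique h3 (h4.congr' ?_)
  filter_upwards [self_mem_nhdsWithin] with ε hε
  exact (h2 ε hε).symm

end Pool.Agent.Helper65.BF
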