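import Pool.Graph.R_pool_sql_team_seeded_63374d34.N155.B.Sym
import Pool.Agent.Helper65.BF.Lin

/-!
The Fermat covers `x_l ^ d = ℓ_l (u)` of projective space.
-/

set_option autoImplicit false

open Filter Topology Finset MvPolynomial

namespace Pool.Agent.Helper65.BF

open Pool.Agent.W602.GT

variable {n r : ℕ}

/-- The forms `∑ c l * X l ^ d`, for all the linear relations `∑ c l • ℓ l = 0`. -/
noncomputable def fermatForms (ℓ : Fin (n + 1) → Fin r → ℂ) (d : ℕ) :
    {c : Fin (n + 1) → ℂ // ∑ l, c l • ℓ l = 0} → MvPolynomial (Fin (n + 1)) ℂ :=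
  fun c => ∑ l, C (c.1 l) * X l ^ d

/-- Any `r` of the linear forms are linearly independent. -/
def GeneralPosition (ℓ : Fin (n + 1) → Fin r → ℂ) : Prop :=
  ∀ t : Fin r → Fin (n + 1), Function.Injective t → LinearIndependent ℂ fun i => ℓ (t i)

variable {ℓ : Fin (n + 1) → Fin r → ℂ} {d : ℕ}

theorem GeneralPosition.mt (h : GeneralPosition ℓ) {t : Fin r → Fin (n + 1)}
    (ht : Function.Injective t) : Mt ℓ t ≠ 0 := by
  have h1 : LinearIndependent ℂ (Matrix.of fun i j => ℓ (t i) j : Matrix (Fin r) (Fin r) ℂ).row :=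
    h t ht
  rw [Matrix.linearIndependent_rows_iff_isUnit, Matrix.isUnit_iff_isUnit_det] at h1
  exact h1.ne_zero

theorem form_fermat (c : {c : Fin (n + 1) → ℂ // ∑ l, c l • ℓ l = 0}) :
    IsForm (fermatForms ℓ d c) :=
  ⟨d, IsHomogeneous.sum _ _ _ fun l _ => by
    have h := (isHomogeneous_C (Fin (n + 1)) (c.1 l)).mul
      ((isHomogeneous_X ℂ l).pow d)
    simpa using h⟩

theorem val_fermat (x : Fin (n + 1) → ℂ) (c : {c : Fin (n + 1) → ℂ // ∑ l, c l • ℓ l = 0}) :
    val x (fermatForms ℓ d c) = ∑ l, c.1 l * x l ^ d := by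
  unfold W602.GT.val fermatForms
  rw [map_sum]
  refine Finset.sum_congr rfl fun l _ => ?_
  rw [map_mul, map_pow, aeval_X, aeval_C]
  rfl

/-- the other linear forms in terms of those in `t` -/
theorem exists_coeff {t : Fin r → Fin (n + 1)} (hM : Mt ℓ t ≠ 0) :
    ∃ Λ : Fin (n + 1) → Fin r → ℂ, ∀ l j, ℓ l j = ∑ i, Λ l i * ℓ (t i) j := by
  have hu : IsUnit (Matrix.of fun i j => ℓ (t i) j : Matrix (Fin r) (Fin r) ℂ) :=
    (Matrix.isUnit_iff_isUnit_det _).2 (isUnit_iff_ne_zero.2 hM)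
  have h1 := Matrix.vecMul_surjective_iff_isUnit.2 hu
  choose Λ hΛ using fun l => h1 (ℓ l)
  refine ⟨Λ, fun l j => ?_⟩
  have := congrFun (hΛ l) j
  rw [← this]
  rfl

/-- a relation -/
theorem rel_sum {t : Fin r → Fin (n + 1)} {Λ : Fin (n + 1) → Fin r → ℂ}
    (hΛ : ∀ l j, ℓ l j = ∑ i, Λ l i * ℓ (t i) j) (l : Fin (n + 1)) :
    ∑ m, (Pi.single l 1 - ∑ i, Λ l i • Pi.single (t i) (1 : ℂ) : Fin (n + 1) → ℂ) m • ℓ m = 0 := by
  funext j
  rw [Finset.sum_apply]
  simp only [Pi.smul_apply, Pi.sub_apply, Finset.sum_apply, smul_eq_mul, sub_mul,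
    Finset.sum_sub_distrib, Finset.sum_mul, Pi.zero_apply]
  rw [Finset.sum_comm]
  have h1 : ∑ m, (Pi.single l (1 : ℂ) : Fin (n + 1) → ℂ) m * ℓ m j = ℓ l j := by
    rw [Finset.sum_eq_single l]
    · simp
    · intro b _ hb
      rw [Pi.single_eq_of_ne hb, zero_mul]
    · simp
  have h2 : ∀ i, ∑ m, Λ l i * (Pi.single (t i) (1 : ℂ) : Fin (n + 1) → ℂ) m * ℓ m j =
      Λ l i * ℓ (t i) j := by
    intro i
    rw [Finset.sum_eq_single (t i)]
    · simp
    · intro b _ hb
      rw [Pi.single_eq_of_ne hb, mul_zero, zero_mul]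
    · simp
  rw [h1, Finset.sum_congr rfl fun i _ => h2 i, ← hΛ l j, sub_self]

theorem rel_val {t : Fin r → Fin (n + 1)} {Λ : Fin (n + 1) → Fin r → ℂ} (l : Fin (n + 1))
    (y : Fin (n + 1) → ℂ) :
    ∑ m, (Pi.single l 1 - ∑ i, Λ l i • Pi.single (t i) (1 : ℂ) : Fin (n + 1) → ℂ) m * y m =
      y l - ∑ i, Λ l i * y (t i) := by
  simp only [Pi.sub_apply, Finset.sum_apply, Pi.smul_apply, smul_eq_mul, sub_mul,
    Finset.sum_sub_distrib, Finset.sum_mul]
  congr 1
  · rw [Finset.sum_eq_single l]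
    · simp
    · intro b _ hb
      rw [Pi.single_eq_of_ne hb, zero_mul]
    · simp
  · rw [Finset.sum_comm]
    refine Finset.sum_congr rfl fun i _ => ?_
    rw [Finset.sum_eq_single (t i)]
    · simp
    · intro b _ hb
      rw [Pi.single_eq_of_ne hb, mul_zero, zero_mul]
    · simp

/-- the vectors annihilated by all relations -/
theorem exists_u {t : Fin r → Fin (n + 1)} (hM : Mt ℓ t ≠ 0) {y : Fin (n + 1) → ℂ}
    (hy : ∀ c : Fin (n + 1) → ℂ, ∑ l, c l • ℓ l = 0 → ∑ l, c l * y l = 0) :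
    ∃ u : Fin r → ℂ, ∀ l, y l = ∑ j, ℓ l j * u j := by
  obtain ⟨Λ, hΛ⟩ := exists_coeff hM
  have hu : IsUnit (Matrix.of fun i j => ℓ (t i) j : Matrix (Fin r) (Fin r) ℂ) :=
    (Matrix.isUnit_iff_isUnit_det _).2 (isUnit_iff_ne_zero.2 hM)
  obtain ⟨u, hu⟩ := (Matrix.mulVec_surjective_iff_isUnit.2 hu) fun i => y (t i)
  have hu' : ∀ i, ∑ j, ℓ (t i) j * u j = y (t i) := fun i => congrFun hu i
  refine ⟨u, fun l => ?_⟩
  have h1 := hy _ (rel_sum hΛ l)
  rw [rel_val] at h1
  have h2 : y l = ∑ i, Λ l i * y (t i) := by linear_combination h1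
  rw [h2]
  simp only [← hu', hΛ l, Finset.mul_sum, Finset.sum_mul]
  rw [Finset.sum_comm]
  exact Finset.sum_congr rfl fun j _ => Finset.sum_congr rfl fun i _ => by ring

theorem rel_of_u {y : Fin (n + 1) → ℂ} {u : Fin r → ℂ} (hu : ∀ l, y l = ∑ j, ℓ l j * u j)
    {c : Fin (n + 1) → ℂ} (hc : ∑ l, c l • ℓ l = 0) : ∑ l, c l * y l = 0 := by
  have h1 : ∀ j, ∑ l, c l * ℓ l j = 0 := by
    intro j
    have := congrFun hc j
    rw [Finset.sum_apply] at this
    exact this
  simp only [hu, Finset.mul_sum]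
  rw [Finset.sum_comm]
  refine Finset.sum_eq_zero fun j _ => ?_
  have h2 := h1 j
  calc ∑ l, c l * (ℓ l j * u j) = (∑ l, c l * ℓ l j) * u j := by
        rw [Finset.sum_mul]
        exact Finset.sum_congr rfl fun l _ => by ring
    _ = 0 := by rw [h2, zero_mul]

theorem mem_cone {x : Fin (n + 1) → ℂ} : x ∈ Cone (fermatForms ℓ d) ↔ x ≠ 0 ∧
    ∀ c : Fin (n + 1) → ℂ, ∑ l, c l • ℓ l = 0 → ∑ l, c l * x l ^ d = 0 := by
  constructor
  · rintro ⟨h1, h2⟩
    refine ⟨h1, fun c hc => ?_⟩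
    have h3 := h2 ⟨c, hc⟩
    rwa [val_fermat] at h3
  · rintro ⟨h1, h2⟩
    refine ⟨h1, fun c => ?_⟩
    rw [val_fermat]
    exact h2 c.1 c.2

/-- the coordinates are determined by those in `t` -/
theorem cone_coeff {t : Fin r → Fin (n + 1)} {Λ : Fin (n + 1) → Fin r → ℂ}
    (hΛ : ∀ l j, ℓ l j = ∑ i, Λ l i * ℓ (t i) j) {x : Fin (n + 1) → ℂ}
    (hx : x ∈ Cone (fermatForms ℓ d)) (l : Fin (n + 1)) :
    x l ^ d = ∑ i, Λ l i * x (t i) ^ d := by
  have h1 := (mem_cone.1 hx).2 _ (rel_sum hΛ l)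
  rw [rel_val l fun m => x m ^ d] at h1
  linear_combination h1

/-- not all the coordinates in `t` vanish -/
theorem exists_ne (h : GeneralPosition ℓ) (hd : 0 < d) {t : Fin r → Fin (n + 1)}
    (ht : Function.Injective t) {x : Fin (n + 1) → ℂ} (hx : x ∈ Cone (fermatForms ℓ d)) :
    ∃ i, x (t i) ≠ 0 := by
  by_contra hcon
  push Not at hcon
  obtain ⟨Λ, hΛ⟩ := exists_coeff (h.mt ht)
  apply hx.1
  funext l
  have h1 := cone_coeff hΛ hx l
  have h2 : x l ^ d = 0 := by
    rw [h1]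
    refine Finset.sum_eq_zero fun i _ => ?_
    rw [hcon i, zero_pow hd.ne', mul_zero]
  exact (pow_eq_zero_iff hd.ne').1 h2

/-- all coordinates outside some `t` are different from zero -/
theorem exists_adm (h : GeneralPosition ℓ) (hd : 0 < d) (hr : r ≤ n + 1) {x : Fin (n + 1) → ℂ}
    (hx : x ∈ Cone (fermatForms ℓ d)) :
    ∃ t : Fin r → Fin (n + 1), Function.Injective t ∧ ∀ l, (∀ i, t i ≠ l) → x l ≠ 0 := by
  classical
  -- a choice of `t` with the smallest sum of absolute values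
  obtain ⟨t, ht, hmin⟩ := Set.exists_min_image {t : Fin r → Fin (n + 1) | Function.Injective t}
    (fun t => ∑ i, ‖x (t i)‖) (Set.toFinite _) ⟨Fin.castLE hr, Fin.castLE_injective hr⟩
  refine ⟨t, ht, fun l hl h0 => ?_⟩
  obtain ⟨i, hi⟩ := exists_ne h hd ht hx
  have h1 : Function.Injective (Function.update t i l) := by
    intro a b hab
    by_cases ha : a = i
    · by_cases hb : b = i
      · rw [ha, hb]
      · rw [ha, Function.update_self, Function.update_of_ne hb] at hab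
        exact absurd hab.symm (hl b)
    · by_cases hb : b = i
      · rw [hb, Function.update_self, Function.update_of_ne ha] at hab
        exact absurd hab (hl a)
      · rw [Function.update_of_ne ha, Function.update_of_ne hb] at hab
        exact ht hab
  have h2 : ∑ j, ‖x (t j)‖ ≤ ∑ j, ‖x (Function.update t i l j)‖ := hmin _ h1
  have e1 := Finset.add_sum_erase Finset.univ (fun j => ‖x (t j)‖) (Finset.mem_univ i)
  have e2 := Finset.add_sum_erase Finset.univ (fun j => ‖x (Function.update t i l j)‖)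
    (Finset.mem_univ i)
  have h3 : ∑ j ∈ Finset.univ.erase i, ‖x (Function.update t i l j)‖ =
      ∑ j ∈ Finset.univ.erase i, ‖x (t j)‖ := Finset.sum_congr rfl fun j hj => by
    rw [Function.update_of_ne (Finset.ne_of_mem_erase hj)]
  simp only [Function.update_self, h0, norm_zero] at e2
  have h4 := norm_pos_iff.2 hi
  linarith

end Pool.Agent.Helper65.BF
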