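import Pool.Agent.Helper65.BF.One

/-!
Curves of bounded derivative in the Fermat covers of the line, of genus at least two, are constant.
-/

set_option autoImplicit false

open Filter Topology Metric MvPolynomial Set

namespace Pool.Agent.Helper65.BF

open Pool.Agent.W602.GT Pool.Agent.N155.BB Pool.Agent.Y190.OP Pool.Agent.N155

variable {n p q s : ℕ} {κ : Fin (n + 1) → Fin 2 → ℂ} {J : Fin (p + 1) → Fin (n + 1)}

theorem fderiv_zero_of_chart {φ : ℂ → Mat (n + 1)} (hφ : HolP univ φ) {i : Fin (n + 1)} {z : ℂ}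
    (hi : φ z i i ≠ 0) (h0 : deriv (cu φ i) z = 0) : fderiv ℝ φ z = 0 := by
  have hPM : ∀ w, φ w ∈ PM := fun w => hφ.mem_PM (mem_univ w)
  have h1 : φ =ᶠ[𝓝 z] Phi ∘ cu φ i := by
    filter_upwards [ev_diag hφ hi] with w hw
    exact (PM.Phi_chart (hPM w) hw).symm
  have hd : HasDerivAt (cu φ i) 0 z := by
    rw [← h0]
    exact (cu_an hφ i hi).differentiableAt.hasDerivAt
  have hd' := hd.hasFDerivAt.restrictScalars ℝ
  have hP : DifferentiableAt ℝ (Phi : (Fin (n + 1) → ℂ) → Mat (n + 1)) (cu φ i z) :=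
    (contDiffAt_Phi (PM.chart_ne hi)).differentiableAt (by norm_num)
  have h2 := hP.hasFDerivAt.comp z hd'
  rw [h1.fderiv_eq, h2.fderiv]
  ext v
  simp

/-- roots of constant functions are constant -/
theorem root_flat {f : ℂ → ℂ} {z0 : ℂ} (hf : AnalyticAt ℂ f z0)
    (h : ∀ᶠ z in 𝓝 z0, HasDerivAt (fun z => f z ^ (q + 1)) 0 z) : deriv f z0 = 0 := by
  have h1 : ∀ᶠ z in 𝓝 z0, f z ^ q * deriv f z = 0 := by
    filter_upwards [h, hf.eventually_analyticAt] with z hz hz'
    have h2 := (hz'.differentiableAt.hasDerivAt.fun_pow (q + 1)).unique hz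
    rw [show q + 1 - 1 = q from rfl] at h2
    have hq : ((q + 1 : ℕ) : ℂ) ≠ 0 := by exact_mod_cast Nat.succ_ne_zero q
    rw [mul_assoc] at h2
    exact (mul_eq_zero.1 h2).resolve_left hq
  rcases hf.eventually_eq_zero_or_eventually_ne_zero with h2 | h2
  · have h3 : f =ᶠ[𝓝 z0] fun _ => 0 := h2
    rw [h3.deriv_eq, deriv_const]
  · rcases hf.deriv.eventually_eq_zero_or_eventually_ne_zero with h3 | h3
    · exact h3.self_of_nhds
    · exfalso
      obtain ⟨w, hw⟩ := ((h2.and h3).and (h1.filter_mono nhdsWithin_le_nhds)).exists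
      exact mul_ne_zero (pow_ne_zero q hw.1.1) hw.1.2 hw.2

theorem chart_ne_diag {M : Mat (n + 1)} (hM : M ∈ PM) {i j : Fin (n + 1)} (hi : M i i ≠ 0)
    (hj : chart i M j ≠ 0) : M j j ≠ 0 := by
  obtain ⟨u, hu, rfl⟩ := hM
  have hui := (Phi_diag_ne hu).1 hi
  rw [chart_Phi hu hui, Pi.smul_apply, smul_eq_mul] at hj
  exact (Phi_diag_ne hu).2 (right_ne_zero_of_mul hj)

theorem chart_diag_ne {M : Mat (n + 1)} (hM : M ∈ PM) {i j : Fin (n + 1)} (hi : M i i ≠ 0)
    (hj : M j j ≠ 0) : chart i M j ≠ 0 := by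
  obtain ⟨u, hu, rfl⟩ := hM
  have hui := (Phi_diag_ne hu).1 hi
  rw [chart_Phi hu hui, Pi.smul_apply, smul_eq_mul]
  exact mul_ne_zero (inv_ne_zero hui) ((Phi_diag_ne hu).1 hj)

theorem cu_self {φ : ℂ → Mat (n + 1)} (hφ : HolP univ φ) {i : Fin (n + 1)} {z : ℂ}
    (hi : φ z i i ≠ 0) : ∀ᶠ w in 𝓝 z, cu φ i w i = 1 := by
  filter_upwards [ev_diag hφ hi] with w hw
  exact PM.chart_self hw

theorem deriv_cu_self {φ : ℂ → Mat (n + 1)} (hφ : HolP univ φ) {i : Fin (n + 1)} {z : ℂ}
    (hi : φ z i i ≠ 0) : deriv (cu φ i) z i = 0 := by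
  have h1 : HasDerivAt (fun w => cu φ i w i) (deriv (cu φ i) z i) z :=
    (hasDerivAt_pi.1 (cu_an hφ i hi).differentiableAt.hasDerivAt) i
  have h2 : (fun w => cu φ i w i) =ᶠ[𝓝 z] fun _ => 1 := cu_self hφ hi
  exact h1.unique ((hasDerivAt_const z (1 : ℂ)).congr_of_eventuallyEq h2)

/-- **Curves of bounded derivative are constant.** -/
theorem flat_const (hg : GeneralPosition fun l => κ (J l)) (hps : (p - 1) * q = s + 3)
    {φ : ℂ → Mat (n + 1)} (hφ : BD (TF (fermatForms κ (q + 1))) φ) (z : ℂ) :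
    fderiv ℝ φ z = 0 := by
  have hp : 2 ≤ p + 1 := by
    by_contra hcon
    have : p - 1 = 0 := by omega
    rw [this] at hps
    omega
  have hPM : ∀ w, φ w ∈ PM := fun w => hφ.hol.mem_PM (mem_univ w)
  choose C hC hCc using fun ab : Fin (p + 1) × Fin (p + 1) =>
    (jd_one hg hps ab.1 ab.2).const (isCompact_TF form_fermat) TF_PM
  choose c hc hcb using fun ab => hCc ab φ hφ
  have hcone : ∀ z i, φ z i i ≠ 0 →
      rs J (cu φ i z) ∈ Cone (fermatForms (fun l => κ (J l)) (q + 1)) := fun z i hi =>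
    rs_cone hg hp (chart_cone form_fermat (hφ.mem z) hi)
  -- the values of the forms
  have hval : ∀ z i, φ z i i ≠ 0 → ∃ t : Fin 2 → Fin (p + 1), Adm (Zs (rs J (cu φ i z))) t ∧
      ∀ a b, rs J (cu φ i z) a ^ s * rs J (cu φ i z) b * Qt (fun l => κ (J l))
        (fun l => rs J (cu φ i z) l ^ q) ![rs J (cu φ i z), rs J (deriv (cu φ i) z)] t =
          c (a, b) := by
    intro z i hi
    obtain ⟨t, ht⟩ := exists_Adm hg (Nat.succ_pos q) hp (hcone z i hi)
    exact ⟨t, ht, fun a b => hc (a, b) z i t hi ht⟩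
  -- the derivative of the chosen coordinates
  have key : ∀ z a, φ z (J a) (J a) ≠ 0 → ∀ b, deriv (cu φ (J a)) z (J b) = 0 := by
    by_cases hA : ∃ a0, c (a0, a0) ≠ 0
    · obtain ⟨a0, ha0⟩ := hA
      intro z a ha b
      have hev : ∀ᶠ w in 𝓝 z, cu φ (J a) w (J b) = c (a0, b) / c (a0, a) := by
        filter_upwards [ev_diag hφ.hol ha, cu_self hφ.hol ha] with w hw hw1
        obtain ⟨t, ht, hv⟩ := hval w (J a) hw
        set x := rs J (cu φ (J a) w) with hx
        set W := Qt (fun l => κ (J l)) (fun l => x l ^ q) ![x, rs J (deriv (cu φ (J a)) w)] t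
        have e0 := hv a0 a0
        have e1 := hv a0 a
        have e2 := hv a0 b
        have hxa : x a = 1 := hw1
        have hb : cu φ (J a) w (J b) = x b := rfl
        rw [hb]
        rw [hxa, mul_one] at e1
        have h1 : x a0 * c (a0, a) = c (a0, a0) := by
          rw [← e0, ← e1]
          ring
        have h2 : c (a0, a) ≠ 0 := by
          intro h0
          rw [h0, mul_zero] at h1
          exact ha0 h1.symm
        rw [eq_div_iff h2, ← e2, ← e1]
        ring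
      have h1 : HasDerivAt (fun w => cu φ (J a) w (J b)) (deriv (cu φ (J a)) z (J b)) z :=
        (hasDerivAt_pi.1 (cu_an hφ.hol _ ha).differentiableAt.hasDerivAt) (J b)
      have h2 : (fun w => cu φ (J a) w (J b)) =ᶠ[𝓝 z] fun _ => c (a0, b) / c (a0, a) := hev
      exact h1.unique ((hasDerivAt_const z _).congr_of_eventuallyEq h2)
    · push Not at hA
      intro z a ha b
      obtain ⟨t, ht, hv⟩ := hval z (J a) ha
      set x := rs J (cu φ (J a) z) with hx
      set v := rs J (deriv (cu φ (J a)) z) with hv'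
      have hxa : x a = 1 := (cu_self hφ.hol ha).self_of_nhds
      have hva : v a = 0 := deriv_cu_self hφ.hol ha
      have e0 := hv a a
      rw [hA a, hxa, one_pow, one_mul, one_mul] at e0
      have hq : q ≠ 0 := by
        rintro rfl
        omega
      have hden : Mt (fun l => κ (J l)) t * Gt (fun l => x l ^ q) t ≠ 0 :=
        mul_ne_zero (hg.mt ht.1) (Gt_ne.2 fun l hl => pow_ne_zero _ (adm_ne ht hl))
      unfold Qt at e0
      rw [div_eq_zero_iff] at e0
      have hS := e0.resolve_right hden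
      have htg : ∀ k, Tg (fun l => κ (J l)) q x ((![x, v] : Fin 2 → _) k) := fun k =>
        rel_one hg hp (cu_an hφ.hol _ ha) (ev_cone form_fermat hφ.hol hφ.mem ha) k
      have hdep : ¬ LinearIndependent ℂ ![x, v] := fun hi => st_ne hg htg ht hi hS
      have hx0 : x ≠ 0 := (hcone z (J a) ha).1
      rw [LinearIndependent.pair_iff' hx0] at hdep
      push Not at hdep
      obtain ⟨lam, hlam⟩ := hdep
      have h1 := congrFun hlam a
      rw [Pi.smul_apply, smul_eq_mul, hxa, hva, mul_one] at h1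
      rw [h1, zero_smul] at hlam
      exact (congrFun hlam b).symm
  -- a chosen coordinate which is not zero
  obtain ⟨i, hi⟩ := PM.exists_diag (hPM z)
  obtain ⟨a, ha⟩ := Function.ne_iff.1 (hcone z i hi).1
  have ha' : cu φ i z (J a) ≠ 0 := ha
  have hja : φ z (J a) (J a) ≠ 0 := chart_ne_diag (hPM z) hi ha'
  apply fderiv_zero_of_chart hφ.hol hja
  funext l
  rw [Pi.zero_apply]
  set t : Fin 2 → Fin (p + 1) := Fin.castLE hp with ht
  have hM : Mt κ (fun i => J (t i)) ≠ 0 := hg.mt (Fin.castLE_injective hp)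
  obtain ⟨Λ, hΛ⟩ := exists_coeff hM
  have hlan : AnalyticAt ℂ (fun w => cu φ (J a) w l) z :=
    (analyticAt_pi_iff.1 (cu_an hφ.hol _ hja)) l
  have hdl : HasDerivAt (fun w => cu φ (J a) w l) (deriv (cu φ (J a)) z l) z :=
    (hasDerivAt_pi.1 (cu_an hφ.hol _ hja).differentiableAt.hasDerivAt) l
  rw [← hdl.deriv]
  apply root_flat (q := q) hlan
  have h1 : ∀ᶠ w in 𝓝 z, cu φ (J a) w l ^ (q + 1) =
      ∑ i, Λ l i * cu φ (J a) w (J (t i)) ^ (q + 1) := by
    filter_upwards [ev_cone form_fermat hφ.hol hφ.mem hja] with w hw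
    exact cone_coeff hΛ hw l
  filter_upwards [h1.eventually_nhds, ev_diag hφ.hol hja] with w hw hw'
  have h2 : HasDerivAt (fun w => ∑ i, Λ l i * cu φ (J a) w (J (t i)) ^ (q + 1))
      (∑ i, Λ l i * (((q + 1 : ℕ) : ℂ) * cu φ (J a) w (J (t i)) ^ (q + 1 - 1) *
        deriv (cu φ (J a)) w (J (t i)))) w := by
    refine HasDerivAt.fun_sum fun i _ => ?_
    refine HasDerivAt.const_mul _ ?_
    exact ((hasDerivAt_pi.1 (cu_an hφ.hol _ hw').differentiableAt.hasDerivAt) (J (t i))).fun_pow _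
  have h3 : (∑ i, Λ l i * (((q + 1 : ℕ) : ℂ) * cu φ (J a) w (J (t i)) ^ (q + 1 - 1) *
        deriv (cu φ (J a)) w (J (t i)))) = 0 :=
    Finset.sum_eq_zero fun i _ => by rw [key w a hw' (t i), mul_zero, mul_zero]
  rw [h3] at h2
  exact h2.congr_of_eventuallyEq hw

end Pool.Agent.Helper65.BF
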