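import Pool.Agent.Helper65.BF.Jet

/-!
Three functions whose Wronskian vanishes are linearly dependent.
-/

set_option autoImplicit false

open Filter Topology Metric

namespace Pool.Agent.Helper65.BF

theorem const_near {f : ℂ → ℂ} {z0 : ℂ} (h : ∀ᶠ z in 𝓝 z0, HasDerivAt f 0 z) :
    ∀ᶠ z in 𝓝 z0, f z = f z0 := by
  obtain ⟨ε, hε, hball⟩ := Metric.eventually_nhds_iff_ball.mp h
  filter_upwards [ball_mem_nhds z0 hε] with z hz
  exact isOpen_ball.is_const_of_deriv_eq_zero (convex_ball z0 ε).isPreconnected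
    (fun w hw => (hball w hw).differentiableAt.differentiableWithinAt)
    (fun w hw => (hball w hw).deriv) hz (mem_ball_self hε)

/-- the determinant -/
def D3 (a b c : Fin 3 → ℂ) : ℂ :=
  a 0 * (b 1 * c 2 - b 2 * c 1) - a 1 * (b 0 * c 2 - b 2 * c 0) + a 2 * (b 0 * c 1 - b 1 * c 0)

theorem D3_scale (a b c : Fin 3 → ℂ) (h h' h'' : ℂ) :
    D3 (h • a) (h' • a + h • b) (h'' • a + (2 * h') • b + h • c) = h ^ 3 * D3 a b c := by
  unfold D3
  simp only [Pi.smul_apply, Pi.add_apply, smul_eq_mul]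
  ring

theorem wron3 {γ : ℂ → Fin 3 → ℂ} {U : Set ℂ} (hU : IsOpen U) {z0 : ℂ} (hz0 : z0 ∈ U)
    (hγ : ∀ z ∈ U, AnalyticAt ℂ γ z)
    (hW : ∀ z ∈ U, D3 (γ z) (deriv γ z) (deriv (deriv γ) z) = 0) :
    ∃ c : Fin 3 → ℂ, c ≠ 0 ∧ ∃ z1 ∈ U, ∀ᶠ z in 𝓝 z1, ∑ i, c i * γ z i = 0 := by
  by_cases h0 : ∀ z ∈ U, γ z 0 = 0
  · refine ⟨![1, 0, 0], fun h => one_ne_zero (congrFun h 0), z0, hz0, ?_⟩
    filter_upwards [hU.mem_nhds hz0] with z hz
    rw [Fin.sum_univ_three]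
    simp [h0 z hz]
  push Not at h0
  obtain ⟨z1, hz1, h1⟩ := h0
  have hγl : ∀ z ∈ U, ∀ l, AnalyticAt ℂ (fun z => γ z l) z := fun z hz l =>
    (analyticAt_pi_iff.1 (hγ z hz)) l
  set ρ : ℂ → Fin 3 → ℂ := fun z => (γ z 0)⁻¹ • γ z with hρ
  have hcont : ∀ z ∈ U, γ z 0 ≠ 0 → ∀ᶠ w in 𝓝 z, w ∈ U ∧ γ w 0 ≠ 0 := fun z hz h =>
    (hU.eventually_mem hz).and ((hγl z hz 0).continuousAt.eventually_ne h)
  have hρa : ∀ z ∈ U, γ z 0 ≠ 0 → AnalyticAt ℂ ρ z := fun z hz h =>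
    ((hγl z hz 0).inv h).smul (hγ z hz)
  have hρ0 : ∀ z ∈ U, γ z 0 ≠ 0 → ρ =ᶠ[𝓝 z] fun w => Function.update (ρ w) 0 1 := by
    intro z hz h
    filter_upwards [hcont z hz h] with w hw
    funext l
    by_cases hl : l = 0
    · rw [hl, Function.update_self]
      simp only [hρ, Pi.smul_apply, smul_eq_mul]
      exact inv_mul_cancel₀ hw.2
    · rw [Function.update_of_ne hl]
  have hρ1 : ∀ z ∈ U, γ z 0 ≠ 0 → ρ z 0 = 1 := fun z hz h => by
    simp only [hρ, Pi.smul_apply, smul_eq_mul]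
    exact inv_mul_cancel₀ h
  have happ : ∀ {g : ℂ → Fin 3 → ℂ} {z : ℂ}, AnalyticAt ℂ g z → ∀ l,
      HasDerivAt (fun s => g s l) (deriv g z l) z := fun {g z} hs l =>
    (hasDerivAt_pi.1 hs.differentiableAt.hasDerivAt) l
  have hρd : ∀ z ∈ U, γ z 0 ≠ 0 → deriv ρ z 0 = 0 := by
    intro z hz h
    have h2 := happ (hρa z hz h) 0
    have h3 : (fun s => ρ s 0) =ᶠ[𝓝 z] fun _ => 1 := by
      filter_upwards [hcont z hz h] with w hw
      exact hρ1 w hw.1 hw.2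
    exact h2.unique ((hasDerivAt_const z (1 : ℂ)).congr_of_eventuallyEq h3)
  have hρdd : ∀ z ∈ U, γ z 0 ≠ 0 → deriv (deriv ρ) z 0 = 0 := by
    intro z hz h
    have h2 := happ (hρa z hz h).deriv 0
    have h3 : (fun s => deriv ρ s 0) =ᶠ[𝓝 z] fun _ => 0 := by
      filter_upwards [hcont z hz h] with w hw
      exact hρd w hw.1 hw.2
    exact h2.unique ((hasDerivAt_const z (0 : ℂ)).congr_of_eventuallyEq h3)
  have hWρ : ∀ z ∈ U, γ z 0 ≠ 0 →
      deriv ρ z 1 * deriv (deriv ρ) z 2 - deriv ρ z 2 * deriv (deriv ρ) z 1 = 0 := by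
    intro z hz h
    obtain ⟨h2, h3⟩ := deriv_smul_two ((hγl z hz 0).inv h) (hγ z hz)
    have h4 := D3_scale (γ z) (deriv γ z) (deriv (deriv γ) z) (γ z 0)⁻¹
      (deriv (fun z => γ z 0)⁻¹ z) (deriv (deriv (fun z => γ z 0)⁻¹) z)
    rw [hW z hz, mul_zero] at h4
    have h5 : deriv ρ z = deriv (fun z => γ z 0)⁻¹ z • γ z + (γ z 0)⁻¹ • deriv γ z := h2
    have h6 : deriv (deriv ρ) z = deriv (deriv (fun z => γ z 0)⁻¹) z • γ z +
      (2 * deriv (fun z => γ z 0)⁻¹ z) • deriv γ z + (γ z 0)⁻¹ • deriv (deriv γ) z := h3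
    have h7 : ρ z = (γ z 0)⁻¹ • γ z := rfl
    rw [← h5, ← h6, ← h7] at h4
    unfold D3 at h4
    rw [hρ1 z hz h, hρd z hz h, hρdd z hz h] at h4
    linear_combination h4
  -- the ratios
  by_cases hp : ∀ z ∈ U, γ z 0 ≠ 0 → deriv ρ z 1 = 0
  · have h2 : ∀ᶠ z in 𝓝 z1, HasDerivAt (fun s => ρ s 1) 0 z := by
      filter_upwards [hcont z1 hz1 h1] with z hz
      have := happ (hρa z hz.1 hz.2) 1
      rwa [hp z hz.1 hz.2] at this
    refine ⟨![-(ρ z1 1), 1, 0], fun h => one_ne_zero (congrFun h 1), z1, hz1, ?_⟩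
    filter_upwards [const_near h2, hcont z1 hz1 h1] with z hz hz'
    rw [Fin.sum_univ_three]
    simp only [Matrix.cons_val_zero, Matrix.cons_val_one, Matrix.cons_val]
    rw [← hz]
    simp only [hρ, Pi.smul_apply, smul_eq_mul]
    have := hz'.2
    field_simp
    ring
  push Not at hp
  obtain ⟨z2, hz2, h2, h3⟩ := hp
  have hcont2 : ∀ᶠ w in 𝓝 z2, (w ∈ U ∧ γ w 0 ≠ 0) ∧ deriv ρ w 1 ≠ 0 := by
    refine (hcont z2 hz2 h2).and ?_
    exact ((analyticAt_pi_iff.1 (hρa z2 hz2 h2).deriv) 1).continuousAt.eventually_ne h3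
  set κ : ℂ := deriv ρ z2 2 / deriv ρ z2 1 with hκ
  have h4 : ∀ᶠ z in 𝓝 z2, HasDerivAt (fun s => deriv ρ s 2 / deriv ρ s 1) 0 z := by
    filter_upwards [hcont2] with z hz
    have e1 := happ (hρa z hz.1.1 hz.1.2).deriv 2
    have e2 := happ (hρa z hz.1.1 hz.1.2).deriv 1
    refine (e1.div e2 hz.2).congr_deriv ?_
    rw [div_eq_zero_iff]
    left
    linear_combination hWρ z hz.1.1 hz.1.2
  have h5 : ∀ᶠ z in 𝓝 z2, HasDerivAt (fun s => ρ s 2 - κ * ρ s 1) 0 z := by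
    filter_upwards [hcont2, const_near h4] with z hz hz'
    have e1 := happ (hρa z hz.1.1 hz.1.2) 2
    have e2 := happ (hρa z hz.1.1 hz.1.2) 1
    refine (e1.sub (e2.const_mul κ)).congr_deriv ?_
    rw [div_eq_iff hz.2] at hz'
    rw [hz']
    ring
  refine ⟨![-(ρ z2 2 - κ * ρ z2 1), -κ, 1], fun h => one_ne_zero (congrFun h 2), z2, hz2, ?_⟩
  filter_upwards [const_near h5, hcont2] with z hz hz'
  rw [Fin.sum_univ_three]
  simp only [Matrix.cons_val_zero, Matrix.cons_val_one, Matrix.cons_val]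
  rw [← hz]
  simp only [hρ, Pi.smul_apply, smul_eq_mul]
  have := hz'.1.2
  field_simp
  ring

end Pool.Agent.Helper65.BF
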