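import Pool.Agent.Helper65.BF.Flat
import Pool.Agent.Helper65.BF.Wr3

/-!
Curves of bounded derivative on which the Wronskian vanishes lie over a line in the plane.
-/

set_option autoImplicit false

open Filter Topology Metric MvPolynomial Set

namespace Pool.Agent.Helper65.BF

open Pool.Agent.W602.GT Pool.Agent.N155.BB Pool.Agent.Y190.OP Pool.Agent.N155

variable {n m e : ℕ} {ℓ : Fin (n + 1) → Fin 3 → ℂ}

theorem D3_js (e : ℕ) (x v w : Fin (n + 1) → ℂ) (t : Fin 3 → Fin (n + 1)) :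
    D3 (fun a => x (t a) ^ e * js e x v w 0 (t a)) (fun a => x (t a) ^ e * js e x v w 1 (t a))
      (fun a => x (t a) ^ e * js e x v w 2 (t a)) =
      (x (t 0) ^ e * x (t 1) ^ e * x (t 2) ^ e) * St (js e x v w) t := by
  rw [St_three]
  unfold D3
  ring

/-- the derivatives of the powers -/
theorem deriv_pow_curve {γ : ℂ → Fin (n + 1) → ℂ} {z : ℂ} (hγ : AnalyticAt ℂ γ z)
    (t : Fin 3 → Fin (n + 1)) :
    deriv (fun z a => γ z (t a) ^ (e + 2)) z =
      (fun a => γ z (t a) ^ e * js e (γ z) (deriv γ z) (deriv (deriv γ) z) 1 (t a)) ∧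
    deriv (deriv fun z a => γ z (t a) ^ (e + 2)) z =
      (fun a => γ z (t a) ^ e * js e (γ z) (deriv γ z) (deriv (deriv γ) z) 2 (t a)) := by
  have hl : ∀ {s : ℂ} {g : ℂ → Fin (n + 1) → ℂ}, AnalyticAt ℂ g s → ∀ l,
      HasDerivAt (fun s => g s l) (deriv g s l) s := fun {s g} hs l =>
    (hasDerivAt_pi.1 hs.differentiableAt.hasDerivAt) l
  have hd1 : ∀ s, AnalyticAt ℂ γ s → deriv (fun z a => γ z (t a) ^ (e + 2)) s =
      fun a => (e + 2 : ℂ) * γ s (t a) ^ (e + 1) * deriv γ s (t a) := by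
    intro s hs
    refine HasDerivAt.deriv (hasDerivAt_pi.2 fun a => ?_)
    refine ((hl hs (t a)).pow (e + 2)).congr_deriv ?_
    rw [show e + 2 - 1 = e + 1 from rfl]
    push_cast
    ring
  constructor
  · rw [hd1 z hγ]
    funext a
    simp only [js, Matrix.cons_val_one, Matrix.cons_val_zero]
    ring
  · have h1 : deriv (fun z a => γ z (t a) ^ (e + 2)) =ᶠ[𝓝 z]
        fun s a => (e + 2 : ℂ) * γ s (t a) ^ (e + 1) * deriv γ s (t a) := by
      filter_upwards [hγ.eventually_analyticAt] with s hs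
      exact hd1 s hs
    rw [h1.deriv_eq]
    refine HasDerivAt.deriv (hasDerivAt_pi.2 fun a => ?_)
    have h3 := (hl hγ (t a)).pow (e + 1)
    have h4 := hl hγ.deriv (t a)
    have h5 := (h3.mul h4).const_mul (e + 2 : ℂ)
    have h6 : (fun s => (e + 2 : ℂ) * γ s (t a) ^ (e + 1) * deriv γ s (t a)) = fun s =>
        (e + 2 : ℂ) * ((fun s => γ s (t a)) ^ (e + 1) * fun s => deriv γ s (t a)) s := by
      funext s
      simp only [Pi.mul_apply, Pi.pow_apply]
      ring
    rw [h6]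
    refine h5.congr_deriv ?_
    rw [show e + 1 - 1 = e from rfl]
    simp only [Pi.pow_apply, js, Matrix.cons_val]
    push_cast
    ring

/-- the forms `∑ b a * X (t a) ^ d` -/
noncomputable def Gf (d : ℕ) (b : Fin 3 → ℂ) (t : Fin 3 → Fin (n + 1)) :
    MvPolynomial (Fin (n + 1)) ℂ := ∑ a, C (b a) * X (t a) ^ d

theorem Gf_hom (d : ℕ) (b : Fin 3 → ℂ) (t : Fin 3 → Fin (n + 1)) :
    (Gf d b t).IsHomogeneous d := IsHomogeneous.sum _ _ _ fun a _ => by
  have h := (isHomogeneous_C (Fin (n + 1)) (b a)).mul ((isHomogeneous_X ℂ (t a)).pow d)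
  simpa using h

theorem Gf_eval (d : ℕ) (b : Fin 3 → ℂ) (t : Fin 3 → Fin (n + 1)) (x : Fin (n + 1) → ℂ) :
    eval x (Gf d b t) = ∑ a, b a * x (t a) ^ d := by
  unfold Gf
  rw [map_sum]
  simp

/-- a form which vanishes along a piece of the curve vanishes along the curve -/
theorem form_zero {φ : ℂ → Mat (n + 1)} (hφ : HolP univ φ) {G : MvPolynomial (Fin (n + 1)) ℂ}
    {d : ℕ} (hG : G.IsHomogeneous d) {z1 : ℂ} {i : Fin (n + 1)} (hi : φ z1 i i ≠ 0)
    (h : ∀ᶠ z in 𝓝 z1, eval (cu φ i z) G = 0) {z : ℂ} {j : Fin (n + 1)} (hj : φ z j j ≠ 0) :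
    eval (cu φ j z) G = 0 := by
  have hPM : ∀ w, φ w ∈ PM := fun w => hφ.mem_PM (mem_univ w)
  have hnz : ∀ z j, φ z j j ≠ 0 → (nz G (φ z) ↔ eval (cu φ j z) G ≠ 0) := by
    intro z j hj
    have h1 := nz_Phi hG (PM.chart_ne hj)
    rwa [PM.Phi_chart (hPM z) hj] at h1
  rcases nz_dich hφ hG with h1 | h1
  · by_contra hcon
    exact h1 z ((hnz z j hj).2 hcon)
  · exfalso
    have h2 := codis_ev h1 z1
    obtain ⟨w, hw1, hw2⟩ := (h2.and ((h.and (ev_diag hφ hi)).filter_mono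
      nhdsWithin_le_nhds)).exists
    exact (hnz w i hw2.2).1 hw1 hw2.1

/-- **The vanishing of the Wronskian.** -/
theorem wron_zero (hg : GeneralPosition ℓ) (hr : 3 ≤ n + 1)
    {φ : ℂ → Mat (n + 1)} (hφ : BD (TF (fermatForms ℓ (e + 2))) φ)
    (h0 : ∀ z i t, φ z i i ≠ 0 → Adm (Zs (cu φ i z)) t → vl (qw ℓ e) φ i t z = 0) :
    ∃ (t : Fin 3 → Fin (n + 1)) (b : Fin 3 → ℂ), Function.Injective t ∧ b ≠ 0 ∧
      ∀ z i, φ z i i ≠ 0 → ∑ a, b a * cu φ i z (t a) ^ (e + 2) = 0 := by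
  obtain ⟨i, hi⟩ := PM.exists_diag (TF_PM (hφ.mem 0))
  obtain ⟨t, ht⟩ := exists_Adm hg (Nat.succ_pos (e + 1)) hr
    (chart_cone form_fermat (hφ.mem 0) hi)
  have h1 : ∀ᶠ z in 𝓝 (0 : ℂ), φ z i i ≠ 0 ∧ Adm (Zs (cu φ i z)) t :=
    (ev_diag hφ.hol hi).and ((cu_an hφ.hol i hi).continuousAt.eventually (op_adm ht))
  obtain ⟨U, hUs, hU, h0U⟩ := _root_.mem_nhds_iff.1 h1
  set γ : ℂ → Fin 3 → ℂ := fun z a => cu φ i z (t a) ^ (e + 2) with hγ
  have han : ∀ z ∈ U, AnalyticAt ℂ γ z := fun z hz => analyticAt_pi_iff.2 fun a =>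
    ((analyticAt_pi_iff.1 (cu_an hφ.hol i (hUs hz).1)) (t a)).pow _
  have hW : ∀ z ∈ U, D3 (γ z) (deriv γ z) (deriv (deriv γ) z) = 0 := by
    intro z hz
    obtain ⟨e1, e2⟩ := deriv_pow_curve (e := e) (cu_an hφ.hol i (hUs hz).1) t
    have e0 : γ z = fun a => cu φ i z (t a) ^ e *
        js e (cu φ i z) (deriv (cu φ i) z) (deriv (deriv (cu φ i)) z) 0 (t a) := by
      funext a
      simp only [hγ, js, Matrix.cons_val_zero]
      ring
    rw [hγ, e1, e2, ← hγ, e0, D3_js]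
    have h2 := h0 z i t (hUs hz).1 (hUs hz).2
    unfold vl qw Qj Qt at h2
    rw [div_eq_zero_iff] at h2
    have h3 : Mt ℓ t * Gt (fun l => cu φ i z l ^ e) t ≠ 0 :=
      mul_ne_zero (hg.mt ht.1) (Gt_ne.2 fun l hl => pow_ne_zero _ (adm_ne (hUs hz).2 hl))
    rw [h2.resolve_right h3, mul_zero]
  obtain ⟨b, hb, z1, hz1, h2⟩ := wron3 hU h0U han hW
  refine ⟨t, b, ht.1, hb, fun z j hj => ?_⟩
  rw [← Gf_eval]
  apply form_zero hφ.hol (Gf_hom _ _ _) (hUs hz1).1 _ hj
  filter_upwards [h2] with w hw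
  rw [Gf_eval]
  exact hw

/-- a basis of the kernel of a linear form -/
theorem exists_ker {μ : Fin 3 → ℂ} (hμ : μ ≠ 0) : ∃ B : Fin 3 → Fin 2 → ℂ,
    (∀ u : Fin 3 → ℂ, ∑ j, μ j * u j = 0 → ∃ w : Fin 2 → ℂ, ∀ j, u j = ∑ k, B j k * w k) ∧
    ∀ w : Fin 2 → ℂ, (∀ j, ∑ k, B j k * w k = 0) → w = 0 := by
  obtain ⟨i, hi⟩ := Function.ne_iff.1 hμ
  have hi' : μ i ≠ 0 := hi
  refine ⟨fun j k => if j = i then -(μ (i.succAbove k)) / μ i else
    if j = i.succAbove k then 1 else 0, fun u hu => ⟨fun k => u (i.succAbove k), fun j => ?_⟩,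
    fun w hw => ?_⟩
  · by_cases hj : j = i
    · rw [hj]
      simp only [if_true]
      rw [Fin.sum_univ_succAbove _ i] at hu
      rw [Fin.sum_univ_two] at hu ⊢
      field_simp
      linear_combination hu
    · simp only [if_neg hj]
      obtain ⟨k, rfl⟩ := Fin.exists_succAbove_eq hj
      rw [Finset.sum_eq_single k]
      · simp
      · intro b _ hb
        rw [if_neg fun h => hb (Fin.succAbove_right_injective h).symm, zero_mul]
      · intro h
        exact absurd (Finset.mem_univ _) h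
  · funext k
    have h1 := hw (i.succAbove k)
    simp only [if_neg (Fin.succAbove_ne i k)] at h1
    rw [Finset.sum_eq_single k] at h1
    · simpa using h1
    · intro b _ hb
      rw [if_neg fun h => hb (Fin.succAbove_right_injective h).symm, zero_mul]
    · intro h
      exact absurd (Finset.mem_univ _) h

/-- the determinant of two vectors -/
def D2 (a b : Fin 2 → ℂ) : ℂ := a 0 * b 1 - a 1 * b 0

/-- the restrictions of the linear forms to the plane given by `B` -/
noncomputable def kap (ℓ : Fin (n + 1) → Fin 3 → ℂ) (B : Fin 3 → Fin 2 → ℂ) :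
    Fin (n + 1) → Fin 2 → ℂ := fun l k => ∑ j, ℓ l j * B j k

/-- three restrictions are not all proportional -/
theorem kap_three (hg : GeneralPosition ℓ) {B : Fin 3 → Fin 2 → ℂ}
    (hB : ∀ w : Fin 2 → ℂ, (∀ j, ∑ k, B j k * w k = 0) → w = 0) {t : Fin 3 → Fin (n + 1)}
    (ht : Function.Injective t) : ∃ i j, D2 (kap ℓ B (t i)) (kap ℓ B (t j)) ≠ 0 := by
  by_contra hcon
  push Not at hcon
  -- a common zero
  have h1 : ∃ w : Fin 2 → ℂ, w ≠ 0 ∧ ∀ i, ∑ k, kap ℓ B (t i) k * w k = 0 := by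
    by_cases h0 : ∀ i, kap ℓ B (t i) = 0
    · refine ⟨1, one_ne_zero, fun i => ?_⟩
      rw [h0 i]
      simp
    · push Not at h0
      obtain ⟨i, hi⟩ := h0
      refine ⟨![-(kap ℓ B (t i) 1), kap ℓ B (t i) 0], fun h => hi ?_, fun j => ?_⟩
      · have e0 := congrFun h 0
        have e1 := congrFun h 1
        simp only [Matrix.cons_val_zero, Matrix.cons_val_one, Pi.zero_apply, neg_eq_zero] at e0 e1
        funext k
        fin_cases k
        · exact e1
        · exact e0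
      · have := hcon i j
        unfold D2 at this
        rw [Fin.sum_univ_two]
        simp only [Matrix.cons_val_zero, Matrix.cons_val_one]
        linear_combination this
  obtain ⟨w, hw, hw0⟩ := h1
  apply hw
  apply hB
  have hu' : IsUnit (Matrix.of fun i j => ℓ (t i) j : Matrix (Fin 3) (Fin 3) ℂ) :=
    (Matrix.isUnit_iff_isUnit_det _).2 (isUnit_iff_ne_zero.2 (hg.mt ht))
  have h2 : (Matrix.of fun i j => ℓ (t i) j : Matrix (Fin 3) (Fin 3) ℂ).mulVec
      (fun j => ∑ k, B j k * w k) = 0 := by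
    funext i
    have h3 := hw0 i
    unfold kap at h3
    rw [Pi.zero_apply, ← h3]
    change ∑ j, ℓ (t i) j * ∑ k, B j k * w k = _
    simp only [Finset.mul_sum, Finset.sum_mul]
    rw [Finset.sum_comm]
    exact Finset.sum_congr rfl fun k _ => Finset.sum_congr rfl fun j _ => by ring
  have h3 : (fun j => ∑ k, B j k * w k) = 0 := by
    apply (Matrix.mulVec_injective_iff_isUnit.2 hu')
    rw [h2, Matrix.mulVec_zero]
  exact fun j => congrFun h3 j

theorem D2_comm {a b : Fin 2 → ℂ} (h : D2 a b = 0) : D2 b a = 0 := by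
  unfold D2 at h ⊢
  linear_combination -h

theorem D2_trans {a b c : Fin 2 → ℂ} (ha : a ≠ 0) (h1 : D2 a b = 0) (h2 : D2 a c = 0) :
    D2 b c = 0 := by
  unfold D2 at *
  by_contra hcon
  apply ha
  have e0 : a 0 * (b 0 * c 1 - b 1 * c 0) = 0 := by linear_combination b 0 * h2 - c 0 * h1
  have e1 : a 1 * (b 0 * c 1 - b 1 * c 0) = 0 := by linear_combination b 1 * h2 - c 1 * h1
  funext k
  fin_cases k
  · exact (mul_eq_zero.1 e0).resolve_right hcon
  · exact (mul_eq_zero.1 e1).resolve_right hcon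

/-- the classes of proportional forms -/
theorem exists_I {κ : Fin (n + 1) → Fin 2 → ℂ} (hr : 3 ≤ n + 1)
    (h3 : ∀ t : Fin 3 → Fin (n + 1), Function.Injective t → ∃ i j, D2 (κ (t i)) (κ (t j)) ≠ 0) :
    ∃ (I : Finset (Fin (n + 1))) (g : Fin (n + 1) → Fin (n + 1)),
      (∀ a ∈ I, ∀ b ∈ I, a ≠ b → D2 (κ a) (κ b) ≠ 0) ∧ 2 ≤ I.card ∧ n + 1 ≤ 2 * I.card ∧
      (∀ l ∉ I, g l ∈ I ∧ D2 (κ (g l)) (κ l) = 0) ∧ Set.InjOn g {l | l ∉ I} := by
  classical
  set 𝒮 : Finset (Finset (Fin (n + 1))) :=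
    Finset.univ.filter fun I => ∀ a ∈ I, ∀ b ∈ I, a ≠ b → D2 (κ a) (κ b) ≠ 0 with h𝒮
  obtain ⟨I, hI, hmax⟩ := Finset.exists_max_image 𝒮 Finset.card ⟨∅, by simp [h𝒮]⟩
  have hI' : ∀ a ∈ I, ∀ b ∈ I, a ≠ b → D2 (κ a) (κ b) ≠ 0 := (Finset.mem_filter.1 hI).2
  have hself : ∀ a, D2 (κ a) (κ a) = 0 := fun a => by
    unfold D2
    ring
  have hcard : 2 ≤ I.card := by
    obtain ⟨i, j, hij⟩ := h3 (Fin.castLE hr) (Fin.castLE_injective hr)
    have hne : Fin.castLE hr i ≠ Fin.castLE hr j := fun h => hij (by rw [h]; exact hself _)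
    have h1 : ({Fin.castLE hr i, Fin.castLE hr j} : Finset (Fin (n + 1))) ∈ 𝒮 := by
      rw [h𝒮, Finset.mem_filter]
      refine ⟨Finset.mem_univ _, fun a ha b hb hab => ?_⟩
      rw [Finset.mem_insert, Finset.mem_singleton] at ha hb
      rcases ha with rfl | rfl <;> rcases hb with rfl | rfl
      · exact absurd rfl hab
      · exact hij
      · exact fun h => hij (D2_comm h)
      · exact absurd rfl hab
    have h2 := hmax _ h1
    rwa [Finset.card_pair hne] at h2
  have hne0 : ∀ a ∈ I, κ a ≠ 0 := by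
    intro a ha h0
    obtain ⟨b, hb, hba⟩ := Finset.exists_mem_ne (by omega : 1 < I.card) a
    apply hI' a ha b hb hba.symm
    unfold D2
    rw [h0]
    simp
  have hex : ∀ l, ∃ a, l ∉ I → a ∈ I ∧ D2 (κ a) (κ l) = 0 := by
    intro l
    by_cases hl : l ∈ I
    · exact ⟨l, fun h => absurd hl h⟩
    · by_contra hcon
      push Not at hcon
      have h1 : insert l I ∈ 𝒮 := by
        rw [h𝒮, Finset.mem_filter]
        refine ⟨Finset.mem_univ _, fun a ha b hb hab => ?_⟩
        rw [Finset.mem_insert] at ha hb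
        rcases ha with rfl | ha <;> rcases hb with rfl | hb
        · exact absurd rfl hab
        · exact fun h => (hcon b).2 hb (D2_comm h)
        · exact (hcon a).2 ha
        · exact hI' a ha b hb hab
      have h2 := hmax _ h1
      rw [Finset.card_insert_of_notMem hl] at h2
      omega
  choose g hg using hex
  have hinj : Set.InjOn g {l | l ∉ I} := by
    intro l hl l' hl' hll
    by_contra hne
    obtain ⟨h1, h2⟩ := hg l hl
    obtain ⟨h1', h2'⟩ := hg l' hl'
    rw [← hll] at h2'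
    have hgl : g l ≠ l := fun h => hl (h ▸ h1)
    have hgl' : g l ≠ l' := fun h => hl' (h ▸ h1)
    have hinj : Function.Injective ![g l, l, l'] := by
      intro a b hab
      match a, b with
      | 0, 0 => rfl
      | 0, 1 => exact absurd hab hgl
      | 0, 2 => exact absurd hab hgl'
      | 1, 0 => exact absurd hab.symm hgl
      | 1, 1 => rfl
      | 1, 2 => exact absurd hab hne
      | 2, 0 => exact absurd hab.symm hgl'
      | 2, 1 => exact absurd hab.symm hne
      | 2, 2 => rfl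
    obtain ⟨i, j, hij⟩ := h3 _ hinj
    apply hij
    have e3 := D2_trans (hne0 _ h1) h2 h2'
    fin_cases i <;> fin_cases j
    · exact hself _
    · exact h2
    · exact h2'
    · exact D2_comm h2
    · exact hself _
    · exact e3
    · exact D2_comm h2'
    · exact D2_comm e3
    · exact hself _
  refine ⟨I, g, hI', hcard, ?_, fun l hl => hg l hl, hinj⟩
  have h1 : Iᶜ.card ≤ I.card := by
    apply Finset.card_le_card_of_injOn g
    · intro l hl
      rw [Finset.mem_coe, Finset.mem_compl] at hl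
      exact (hg l hl).1
    · intro a ha b hb hab
      rw [Finset.mem_coe, Finset.mem_compl] at ha hb
      exact hinj ha hb hab
  have h2 := Finset.card_add_card_compl I
  rw [Fintype.card_fin] at h2
  omega

end Pool.Agent.Helper65.BF
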