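import Pool.Graph.R_pool_sql_team_seeded_63374d34.N155.B.Sym

/-!
Invariant jet differentials of order at most two are constant along curves of bounded derivative.
-/

set_option autoImplicit false

open Filter Topology Metric MvPolynomial Set

namespace Pool.Agent.Helper65.BF

open Pool.Agent.W602.GT Pool.Agent.N155.BB Pool.Agent.Y190.OP Pool.Agent.N155

variable {n : ℕ}

/-- the curves of bounded derivative -/
structure BD (F : Set (Mat (n + 1))) (φ : ℂ → Mat (n + 1)) : Prop where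
  hol : HolP univ φ
  mem : ∀ z, φ z ∈ F
  bd : ∀ z, ‖fderiv ℝ φ z‖ ≤ 2

/-- the affine coordinates -/
noncomputable def cu (φ : ℂ → Mat (n + 1)) (i : Fin (n + 1)) : ℂ → Fin (n + 1) → ℂ :=
  fun s => chart i (φ s)

theorem cu_an {φ : ℂ → Mat (n + 1)} (h : HolP univ φ) (i : Fin (n + 1)) {s : ℂ}
    (hi : φ s i i ≠ 0) : AnalyticAt ℂ (cu φ i) s := an_chart h i hi

theorem ev_diag {φ : ℂ → Mat (n + 1)} (h : HolP univ φ) {i : Fin (n + 1)} {s : ℂ}
    (hi : φ s i i ≠ 0) : ∀ᶠ s' in 𝓝 s, φ s' i i ≠ 0 := by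
  have : ContinuousAt (fun s' => φ s' i i) s :=
    (continuous_apply_apply i i).continuousAt.comp (h.continuousAt (mem_univ s))
  exact this.eventually_ne hi

/-- the value along a curve -/
noncomputable def vl {τ : Type} (q : τ → (Fin (n + 1) → ℂ) → (Fin (n + 1) → ℂ) →
    (Fin (n + 1) → ℂ) → ℂ) (φ : ℂ → Mat (n + 1)) (i : Fin (n + 1)) (t : τ) (z : ℂ) : ℂ :=
  q t (cu φ i z) (deriv (cu φ i) z) (deriv (deriv (cu φ i)) z)

/-- a jet differential of order at most two on the compact set `T`, given by the local expressions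
`q t`, `t : τ`, where `q t` may be used at the points `x` with `A x t` -/
structure Jd (T : Set (Mat (n + 1))) {τ : Type} (A : (Fin (n + 1) → ℂ) → τ → Prop)
    (q : τ → (Fin (n + 1) → ℂ) → (Fin (n + 1) → ℂ) → (Fin (n + 1) → ℂ) → ℂ) : Prop where
  ex : ∀ M ∈ T, ∀ i, M i i ≠ 0 → ∃ t, A (chart i M) t
  op : ∀ x t, x ≠ 0 → A x t → ∀ᶠ y in 𝓝 x, A y t
  bd : ∀ x t, x ≠ 0 → A x t → ∀ K : ℝ, ∃ C : ℝ, 0 ≤ C ∧ ∀ᶠ y in 𝓝 x, ∀ v w, ‖v‖ ≤ K → ‖w‖ ≤ K →
    ‖q t y v w‖ ≤ C * ‖v‖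
  an : ∀ (γ : ℂ → Fin (n + 1) → ℂ) (z : ℂ) (t : τ), AnalyticAt ℂ γ z → A (γ z) t →
    AnalyticAt ℂ (fun s => q t (γ s) (deriv γ s) (deriv (deriv γ) s)) z
  same : ∀ φ, BD T φ → ∀ z i t i' t', φ z i i ≠ 0 → A (cu φ i z) t → φ z i' i' ≠ 0 →
    A (cu φ i' z) t' → vl q φ i t z = vl q φ i' t' z

variable {T : Set (Mat (n + 1))} {τ : Type} {A : (Fin (n + 1) → ℂ) → τ → Prop}
  {q : τ → (Fin (n + 1) → ℂ) → (Fin (n + 1) → ℂ) → (Fin (n + 1) → ℂ) → ℂ}

/-- the local bound -/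
theorem Jd.local (h : Jd T A q) (hTP : T ⊆ PM) {M0 : Mat (n + 1)} (hM0 : M0 ∈ T) :
    ∃ (O : Set (Mat (n + 1))) (i : Fin (n + 1)) (t : τ) (C : ℝ), IsOpen O ∧
      M0 ∈ O ∧ (∀ M ∈ O, M i i ≠ 0 ∧ A (chart i M) t) ∧
      ∀ φ, BD T φ → ∀ z, φ z ∈ O → ‖vl q φ i t z‖ ≤ C * ‖fderiv ℝ φ z‖ := by
  obtain ⟨i, hi⟩ := PM.exists_diag (hTP hM0)
  obtain ⟨t, ht⟩ := h.ex M0 hM0 i hi
  have hx0 := PM.chart_ne hi
  obtain ⟨L, O1, hL, hO1, hMO1, hO1i, hO1l, hO1f⟩ := lip_chart hi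
  have hev2 : ∀ᶠ M in 𝓝 M0, A (chart i M) t :=
    (continuousAt_chart hi).eventually (h.op _ t hx0 ht)
  obtain ⟨ρ0, hρ0, hsub0⟩ := Metric.mem_nhds_iff.1 (hev2.and (hO1.mem_nhds hMO1))
  set ρ : ℝ := ρ0 with hρdef
  set K : ℝ := L * 2 + L * 2 / (ρ / 8) with hK
  have hρ : 0 < ρ := hρ0
  have hK0 : 0 ≤ K := by positivity
  obtain ⟨C, hC, hCe⟩ := h.bd _ t hx0 ht K
  obtain ⟨ρ1, hρ1, hsub1⟩ := Metric.mem_nhds_iff.1 ((continuousAt_chart hi).eventually hCe)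
  refine ⟨ball M0 (min (ρ / 2) ρ1), i, t, C * L, isOpen_ball, mem_ball_self (by positivity),
    fun M hM => ?_, fun φ hφ z hz => ?_⟩
  · have h1 := hsub0 (ball_subset_ball ((min_le_left _ _).trans (by linarith)) hM)
    exact ⟨hO1i _ h1.2, h1.1⟩
  · -- the curve stays near `M0`
    have hlip : ∀ z', ‖φ z' - φ z‖ ≤ 2 * ‖z' - z‖ := fun z' =>
      (convex_univ).norm_image_sub_le_of_norm_fderiv_le
        (fun x _ => hφ.hol.differentiableAt (mem_univ x)) (fun x _ => hφ.bd x)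
        (mem_univ z) (mem_univ z')
    have hz2 : φ z ∈ ball M0 (ρ / 2) := ball_subset_ball (min_le_left _ _) hz
    have hz1 : φ z ∈ ball M0 ρ1 := ball_subset_ball (min_le_right _ _) hz
    have hnear : ∀ z' ∈ ball z (ρ / 4), φ z' ∈ ball M0 ρ := by
      intro z' hz'
      rw [mem_ball, dist_eq_norm] at hz' hz2 ⊢
      have h1 := hlip z'
      have h2 : φ z' - M0 = (φ z' - φ z) + (φ z - M0) := by abel
      rw [h2]
      have h3 := norm_add_le (φ z' - φ z) (φ z - M0)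
      linarith
    have hd : ∀ z' ∈ ball z (ρ / 4), φ z' i i ≠ 0 := fun z' hz' => hO1i _ (hsub0 (hnear z' hz')).2
    have hv : ∀ z' ∈ ball z (ρ / 4), ‖deriv (cu φ i) z'‖ ≤ L * ‖fderiv ℝ φ z'‖ := fun z' hz' =>
      deriv_chart_le hφ.hol i (hd z' hz') (hO1f _ (hsub0 (hnear z' hz')).2) le_rfl
    have hv2 : ∀ z' ∈ ball z (ρ / 4), ‖deriv (cu φ i) z'‖ ≤ L * 2 := fun z' hz' =>
      (hv z' hz').trans (mul_le_mul_of_nonneg_left (hφ.bd z') hL)
    have hw : ‖deriv (deriv (cu φ i)) z‖ ≤ L * 2 / (ρ / 8) := by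
      apply Complex.norm_deriv_le_of_forall_mem_sphere_norm_le (by positivity)
      · apply DifferentiableOn.diffContOnCl
        intro z' hz'
        have h1 : z' ∈ ball z (ρ / 4) := by
          have h2 : closure (ball z (ρ / 8)) ⊆ closedBall z (ρ / 8) := closure_ball_subset_closedBall
          have h3 := mem_closedBall.1 (h2 hz')
          rw [mem_ball]
          linarith
        exact (cu_an hφ.hol i (hd z' h1)).deriv.differentiableAt.differentiableWithinAt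
      · intro z' hz'
        apply hv2
        rw [mem_sphere] at hz'
        rw [mem_ball, hz']
        linarith
    have hzb : z ∈ ball z (ρ / 4) := mem_ball_self (by positivity)
    have hv1 : ‖deriv (cu φ i) z‖ ≤ K := by
      have h1 := hv2 z hzb
      have h2 : 0 ≤ L * 2 / (ρ / 8) := by positivity
      rw [hK]
      linarith
    have hw1 : ‖deriv (deriv (cu φ i)) z‖ ≤ K := by
      have h2 : 0 ≤ L * 2 := by positivity
      rw [hK]
      linarith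
    have h1 := hsub1 hz1 _ _ hv1 hw1
    refine h1.trans ?_
    rw [mul_assoc]
    exact mul_le_mul_of_nonneg_left (hv z hzb) hC

/-- **The invariant is constant.** -/
theorem Jd.const (h : Jd T A q) (hT : IsCompact T) (hTP : T ⊆ PM) :
    ∃ C : ℝ, 0 ≤ C ∧ ∀ φ, BD T φ → ∃ c : ℂ,
      (∀ z i t, φ z i i ≠ 0 → A (cu φ i z) t → vl q φ i t z = c) ∧
        ∀ z, ‖c‖ ≤ C * ‖fderiv ℝ φ z‖ := by
  have hbd : ∃ C : ℝ, ∀ M ∈ T, ∀ φ, BD T φ → ∀ z, φ z = M → ∀ i t, φ z i i ≠ 0 →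
      A (cu φ i z) t → ‖vl q φ i t z‖ ≤ C * ‖fderiv ℝ φ z‖ := by
    refine hT.induction_on
      (p := fun s => ∃ C : ℝ, ∀ M ∈ s, ∀ φ, BD T φ → ∀ z, φ z = M → ∀ i t, φ z i i ≠ 0 →
      A (cu φ i z) t → ‖vl q φ i t z‖ ≤ C * ‖fderiv ℝ φ z‖) ?_ ?_ ?_ ?_
    · exact ⟨0, fun M hM => absurd hM (notMem_empty _)⟩
    · rintro s s' hss ⟨C, hC⟩
      exact ⟨C, fun M hM => hC M (hss hM)⟩
    · rintro s s' ⟨C, hC⟩ ⟨C', hC'⟩
      refine ⟨max C C', fun M hM φ hφ z hz i t hi ht => ?_⟩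
      rcases hM with hM | hM
      · exact (hC M hM φ hφ z hz i t hi ht).trans
          (mul_le_mul_of_nonneg_right (le_max_left _ _) (norm_nonneg _))
      · exact (hC' M hM φ hφ z hz i t hi ht).trans
          (mul_le_mul_of_nonneg_right (le_max_right _ _) (norm_nonneg _))
    · intro M hM
      obtain ⟨O, i, t, C, hO, hMO, hOi, h1⟩ := h.local hTP hM
      refine ⟨O, mem_nhdsWithin_of_mem_nhds (hO.mem_nhds hMO), C,
        fun M' hM' φ hφ z hz j t' hj ht' => ?_⟩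
      have hz' : φ z ∈ O := by rwa [hz]
      rw [h.same φ hφ z j t' i t hj ht' (hOi _ hz').1 (hOi _ hz').2]
      exact h1 φ hφ z hz'
  obtain ⟨C, hC⟩ := hbd
  refine ⟨max C 0, le_max_right _ _, fun φ hφ => ?_⟩
  have hC' : ∀ z i t, φ z i i ≠ 0 → A (cu φ i z) t →
      ‖vl q φ i t z‖ ≤ max C 0 * ‖fderiv ℝ φ z‖ := fun z i t hi ht =>
    (hC _ (hφ.mem z) φ hφ z rfl i t hi ht).trans
      (mul_le_mul_of_nonneg_right (le_max_left _ _) (norm_nonneg _))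
  have hex : ∀ z, ∃ (i : Fin (n + 1)) (t : τ), φ z i i ≠ 0 ∧ A (cu φ i z) t := by
    intro z
    obtain ⟨i, hi⟩ := PM.exists_diag (hTP (hφ.mem z))
    obtain ⟨t, ht⟩ := h.ex _ (hφ.mem z) i hi
    exact ⟨i, t, hi, ht⟩
  choose idx ro hidx hro using hex
  set s : ℂ → ℂ := fun z => vl q φ (idx z) (ro z) z with hs
  have hsi : ∀ z i t, φ z i i ≠ 0 → A (cu φ i z) t → vl q φ i t z = s z :=
    fun z i t hi ht => h.same φ hφ z i t _ _ hi ht (hidx z) (hro z)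
  have hana : Differentiable ℂ s := by
    intro z
    have h1 := h.an (cu φ (idx z)) z (ro z) (cu_an hφ.hol _ (hidx z)) (hro z)
    refine (h1.congr ?_).differentiableAt
    have h2 : ∀ᶠ z' in 𝓝 z, A (cu φ (idx z) z') (ro z) :=
      (cu_an hφ.hol _ (hidx z)).continuousAt.eventually (h.op _ _ (PM.chart_ne (hidx z)) (hro z))
    filter_upwards [ev_diag hφ.hol (hidx z), h2] with z' h1 h2
    exact hsi z' _ _ h1 h2
  have hconst : ∀ z, s z = s 0 := by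
    intro z
    apply hana.apply_eq_apply_of_bounded
    rw [isBounded_iff_forall_norm_le]
    refine ⟨max C 0 * 2, ?_⟩
    rintro _ ⟨z, rfl⟩
    refine (hC' z _ _ (hidx z) (hro z)).trans ?_
    exact mul_le_mul_of_nonneg_left (hφ.bd z) (le_max_right _ _)
  refine ⟨s 0, fun z i t hi ht => by rw [hsi z i t hi ht, hconst z], fun z => ?_⟩
  rw [← hconst z]
  exact hC' z _ _ (hidx z) (hro z)

end Pool.Agent.Helper65.BF
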