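import Pool.Agent.Helper65.BF.Pos

/-!
The canonical forms of the Fermat covers of the plane are positive.
-/

set_option autoImplicit false

open Filter Topology Finset MvPolynomial

namespace Pool.Agent.Helper65.BF

open Pool.Agent.W602.GT Pool.Agent.N155.BB

variable {n m e : ℕ} {ℓ : Fin (n + 1) → Fin 3 → ℂ}

theorem St_three (s : Fin 3 → Fin (n + 1) → ℂ) (t : Fin 3 → Fin (n + 1)) : St s t =
    s 0 (t 0) * s 1 (t 1) * s 2 (t 2) - s 0 (t 0) * s 2 (t 1) * s 1 (t 2) -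
    s 1 (t 0) * s 0 (t 1) * s 2 (t 2) + s 1 (t 0) * s 2 (t 1) * s 0 (t 2) +
    s 2 (t 0) * s 0 (t 1) * s 1 (t 2) - s 2 (t 0) * s 1 (t 1) * s 0 (t 2) := by
  unfold St
  rw [Matrix.det_fin_three]
  simp only [Matrix.of_apply]

theorem St_mix (x v w : Fin (n + 1) → ℂ) (t : Fin 3 → Fin (n + 1)) (c a b f : ℂ) :
    St ![c • x, c • (v + a • x), c • (w + b • x + f • v)] t = c ^ 3 * St ![x, v, w] t := by
  rw [St_three, St_three]
  simp only [Matrix.cons_val_zero, Matrix.cons_val_one, Matrix.cons_val, Pi.smul_apply,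
    Pi.add_apply, smul_eq_mul]
  ring

/-- the twisted 2-forms -/
noncomputable def eta (hr : 3 ≤ n + 1) (ℓ : Fin (n + 1) → Fin 3 → ℂ) (e : ℕ) (κ : Fin (n + 1))
    (x v w : Fin (n + 1) → ℂ) : ℂ :=
  x κ ^ n * Qt ℓ (fun l => x l ^ (e + 1)) ![x, v, w] (tz hr (Zs x))

/-- **The canonical forms.** -/
theorem two_forms (h : GeneralPosition ℓ) (hr : 3 ≤ n + 1) (hn : n = m + 2) (hme : m * e = 6) :
    PositiveTwoForms (Cone (fermatForms ℓ (e + 2)))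
      (Cone (fun _ : Unit => (1 : MvPolynomial (Fin (n + 1)) ℂ))) 2 (eta hr ℓ e) := by
  have hadm : ∀ x ∈ Cone (fermatForms ℓ (e + 2)), Adm (Zs x) (tz hr (Zs x)) := fun x hx =>
    tz_adm hr (exists_Adm h (by omega) hr hx)
  refine ⟨?_, ?_, ?_⟩
  · intro κ x hx v w c a b f hc
    have ht := hadm x hx
    unfold eta Qt
    rw [Zs_smul hc, St_mix]
    have h1 : (fun l => (c • x) l ^ (e + 1)) = fun l => c ^ (e + 1) * x l ^ (e + 1) := by
      funext l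
      rw [Pi.smul_apply, smul_eq_mul, mul_pow]
    rw [h1, Gt_smul ht.1, Pi.smul_apply, smul_eq_mul]
    have hG : Gt (fun l => x l ^ (e + 1)) (tz hr (Zs x)) ≠ 0 :=
      Gt_ne.2 fun l hl => pow_ne_zero _ (adm_ne ht hl)
    have hM := h.mt ht.1
    have h2 : n + 1 - 3 = m := by omega
    rw [h2, ← pow_mul]
    have h3 : (e + 1) * m = m + 6 := by
      have : (e + 1) * m = m * e + m := by ring
      omega
    have h4 : n + 3 + 1 = (e + 1) * m := by omega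
    have hc1 : c ^ ((e + 1) * m) ≠ 0 := pow_ne_zero _ hc
    have h5 : c ^ ((e + 1) * m) = c ^ n * c ^ 3 * c := by
      rw [← h4, pow_succ, pow_add]
    rw [h5, mul_pow]
    field_simp
  · intro κ U Ψ hU hΨ hX
    rintro ⟨z0, a0, b0⟩ ⟨hz0, -⟩
    have hz0' : z0 ∈ U := hz0
    obtain ⟨t0, ht0⟩ := exists_Adm h (by omega) hr (hX z0 hz0')
    -- near the point, `t0` can be used
    have h1 : ∀ᶠ p : (Fin 2 → ℂ) × (Fin 2 → ℂ) × (Fin 2 → ℂ) in 𝓝 (z0, a0, b0),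
        p.1 ∈ U ∧ Adm (Zs (Ψ p.1)) t0 := by
      have h2 : Tendsto (fun p : (Fin 2 → ℂ) × (Fin 2 → ℂ) × (Fin 2 → ℂ) => p.1)
          (𝓝 (z0, a0, b0)) (𝓝 z0) := continuous_fst.tendsto _
      have h3 : ∀ᶠ z in 𝓝 z0, z ∈ U ∧ Adm (Zs (Ψ z)) t0 := by
        refine Filter.Eventually.and (hU.eventually_mem hz0') ?_
        have h4 : ∀ᶠ z in 𝓝 z0, ∀ l, (∀ i, t0 i ≠ l) → Ψ z l ≠ 0 := by
          rw [eventually_all]
          intro l
          by_cases hl : ∀ i, t0 i ≠ l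
          · have h5 : ContinuousAt (fun z => Ψ z l) z0 :=
              ((continuous_apply l).continuousAt).comp (hΨ z0 hz0').continuousAt
            filter_upwards [h5.eventually_ne (adm_ne ht0 hl)] with z hz _
            exact hz
          · exact Eventually.of_forall fun z hz => absurd hz hl
        filter_upwards [h4] with z hz
        exact ⟨ht0.1, fun l hl h5 => hz l hl h5⟩
      exact h2.eventually h3
    have h2 : (fun p : (Fin 2 → ℂ) × (Fin 2 → ℂ) × (Fin 2 → ℂ) =>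
        eta hr ℓ e κ (Ψ p.1) (fderiv ℂ Ψ p.1 p.2.1) (fderiv ℂ Ψ p.1 p.2.2)) =ᶠ[𝓝 (z0, a0, b0)]
        fun p => Ψ p.1 κ ^ n * Qt ℓ (fun l => Ψ p.1 l ^ (e + 1))
          ![Ψ p.1, fderiv ℂ Ψ p.1 p.2.1, fderiv ℂ Ψ p.1 p.2.2] t0 := by
      filter_upwards [h1] with p hp
      unfold eta
      congr 1
      have h3 : Zs (fun l => Ψ p.1 l ^ (e + 1)) = Zs (Ψ p.1) := Zs_pow (by omega)
      apply Qt_indep h
      · intro k
        match k with
        | 0 => exact tg_self h (by omega) (hX _ hp.1)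
        | 1 => exact tg_fderiv h (by omega) hU hΨ hX hp.1 p.2.1
        | 2 => exact tg_fderiv h (by omega) hU hΨ hX hp.1 p.2.2
      · rw [h3]
        exact hadm _ (hX _ hp.1)
      · rw [h3]
        exact hp.2
    refine AnalyticAt.congr ?_ h2.symm
    have hf1 : AnalyticAt ℂ (fun p : (Fin 2 → ℂ) × (Fin 2 → ℂ) × (Fin 2 → ℂ) => p.1)
      (z0, a0, b0) := analyticAt_fst
    have hf2 : AnalyticAt ℂ (fun p : (Fin 2 → ℂ) × (Fin 2 → ℂ) × (Fin 2 → ℂ) => p.2)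
      (z0, a0, b0) := analyticAt_snd
    have hf21 : AnalyticAt ℂ (fun p : (Fin 2 → ℂ) × (Fin 2 → ℂ) × (Fin 2 → ℂ) => p.2.1)
      (z0, a0, b0) := AnalyticAt.fun_comp (g := Prod.fst) analyticAt_fst hf2
    have hf22 : AnalyticAt ℂ (fun p : (Fin 2 → ℂ) × (Fin 2 → ℂ) × (Fin 2 → ℂ) => p.2.2)
      (z0, a0, b0) := AnalyticAt.fun_comp (g := Prod.snd) analyticAt_snd hf2
    have hx : AnalyticAt ℂ (fun p : (Fin 2 → ℂ) × (Fin 2 → ℂ) × (Fin 2 → ℂ) => Ψ p.1)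
        (z0, a0, b0) := AnalyticAt.fun_comp (g := Ψ) (hΨ z0 hz0') hf1
    have hxl : ∀ l, AnalyticAt ℂ
        (fun p : (Fin 2 → ℂ) × (Fin 2 → ℂ) × (Fin 2 → ℂ) => Ψ p.1 l) (z0, a0, b0) := fun l =>
      (analyticAt_pi_iff.1 hx) l
    have hD : AnalyticAt ℂ (fun p : (Fin 2 → ℂ) × (Fin 2 → ℂ) × (Fin 2 → ℂ) => fderiv ℂ Ψ p.1)
        (z0, a0, b0) := AnalyticAt.fun_comp (g := fderiv ℂ Ψ) (hΨ z0 hz0').fderiv hf1
    have hap : ∀ q : ((Fin 2 → ℂ) →L[ℂ] (Fin (n + 1) → ℂ)) × (Fin 2 → ℂ), AnalyticAt ℂ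
        (fun q : ((Fin 2 → ℂ) →L[ℂ] (Fin (n + 1) → ℂ)) × (Fin 2 → ℂ) => q.1 q.2) q := fun q =>
      (ContinuousLinearMap.id ℂ ((Fin 2 → ℂ) →L[ℂ] (Fin (n + 1) → ℂ))).analyticAt_bilinear q
    have hv : ∀ l, AnalyticAt ℂ (fun p : (Fin 2 → ℂ) × (Fin 2 → ℂ) × (Fin 2 → ℂ) =>
        fderiv ℂ Ψ p.1 p.2.1 l) (z0, a0, b0) := fun l =>
      (analyticAt_pi_iff.1 (AnalyticAt.fun_comp (hap _) (hD.prod hf21))) l
    have hw : ∀ l, AnalyticAt ℂ (fun p : (Fin 2 → ℂ) × (Fin 2 → ℂ) × (Fin 2 → ℂ) =>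
        fderiv ℂ Ψ p.1 p.2.2 l) (z0, a0, b0) := fun l =>
      (analyticAt_pi_iff.1 (AnalyticAt.fun_comp (hap _) (hD.prod hf22))) l
    have hS : AnalyticAt ℂ (fun p : (Fin 2 → ℂ) × (Fin 2 → ℂ) × (Fin 2 → ℂ) =>
        St ![Ψ p.1, fderiv ℂ Ψ p.1 p.2.1, fderiv ℂ Ψ p.1 p.2.2] t0) (z0, a0, b0) := by
      simp only [St_three, Matrix.cons_val_zero, Matrix.cons_val_one, Matrix.cons_val]
      exact ((((((hxl _).mul (hv _)).mul (hw _)).sub (((hxl _).mul (hw _)).mul (hv _))).sub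
        (((hv _).mul (hxl _)).mul (hw _))).add (((hv _).mul (hw _)).mul (hxl _))).add
        (((hw _).mul (hxl _)).mul (hv _)) |>.sub (((hw _).mul (hv _)).mul (hxl _))
    have hG : AnalyticAt ℂ (fun p : (Fin 2 → ℂ) × (Fin 2 → ℂ) × (Fin 2 → ℂ) =>
        Gt (fun l => Ψ p.1 l ^ (e + 1)) t0) (z0, a0, b0) := by
      unfold Gt
      exact Finset.analyticAt_fun_prod _ fun l _ => (hxl l).pow (e + 1)
    refine ((hxl κ).pow n).mul ?_
    unfold Qt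
    refine hS.div (analyticAt_const.mul hG) (mul_ne_zero (h.mt ht0.1) ?_)
    exact Gt_ne.2 fun l hl => pow_ne_zero _ (adm_ne ht0 hl)
  · intro U Ψ hU hΨ hX z hz _ a b hi
    obtain ⟨κ, hκ⟩ := Function.ne_iff.1 (hX z hz).1
    have ht := hadm _ (hX z hz)
    refine ⟨κ, ?_⟩
    unfold eta Qt
    refine mul_ne_zero (pow_ne_zero n hκ) (div_ne_zero ?_ (mul_ne_zero (h.mt ht.1)
      (Gt_ne.2 fun l hl => pow_ne_zero _ (adm_ne ht hl))))
    refine st_ne h (e := e + 1) (x := Ψ z) (fun k => ?_) ht hi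
    match k with
    | 0 => exact tg_self h (by omega) (hX _ hz)
    | 1 => exact tg_fderiv h (by omega) hU hΨ hX hz a
    | 2 => exact tg_fderiv h (by omega) hU hΨ hX hz b

end Pool.Agent.Helper65.BF
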