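import Pool.Agent.Helper65.BF.Pos
import Pool.Agent.Helper65.BF.Two

/-!
The Wronskian as an invariant jet differential on the Fermat covers of the plane.
-/

set_option autoImplicit false

open Filter Topology Metric MvPolynomial

namespace Pool.Agent.Helper65.BF

open Pool.Agent.W602.GT Pool.Agent.N155.BB Pool.Agent.Y190.OP

variable {n m e : ℕ} {ℓ : Fin (n + 1) → Fin 3 → ℂ}

/-- the columns of the Wronskian of the powers -/
noncomputable def js (e : ℕ) (x v w : Fin (n + 1) → ℂ) : Fin 3 → Fin (n + 1) → ℂ :=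
  ![fun l => x l ^ 2, fun l => (e + 2) * (x l * v l),
    fun l => (e + 2) * ((e + 1) * v l ^ 2 + x l * w l)]

/-- the invariant -/
noncomputable def Qj (ℓ : Fin (n + 1) → Fin 3 → ℂ) (e : ℕ) (x v w : Fin (n + 1) → ℂ)
    (t : Fin 3 → Fin (n + 1)) : ℂ := Qt ℓ (fun l => x l ^ e) (js e x v w) t

theorem js_scale (e : ℕ) (x v w : Fin (n + 1) → ℂ) (t : Fin 3 → Fin (n + 1)) (h h' h'' : ℂ) :
    St (js e (h • x) (h' • x + h • v) (h'' • x + (2 * h') • v + h • w)) t =
      h ^ 6 * St (js e x v w) t := by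
  rw [St_three, St_three]
  simp only [js, Matrix.cons_val_zero, Matrix.cons_val_one, Matrix.cons_val, Pi.smul_apply,
    Pi.add_apply, smul_eq_mul]
  ring

theorem Qj_scale (hn : n = m + 2) (hme : m * e = 6) {x v w : Fin (n + 1) → ℂ}
    {t : Fin 3 → Fin (n + 1)} (ht : Function.Injective t) {h : ℂ} (h' h'' : ℂ) (hh : h ≠ 0) :
    Qj ℓ e (h • x) (h' • x + h • v) (h'' • x + (2 * h') • v + h • w) t = Qj ℓ e x v w t := by
  unfold Qj Qt
  rw [js_scale]
  have h1 : (fun l => (h • x) l ^ e) = fun l => h ^ e * x l ^ e := by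
    funext l
    rw [Pi.smul_apply, smul_eq_mul, mul_pow]
  have h2 : n + 1 - 3 = m := by omega
  rw [h1, Gt_smul ht, h2, ← pow_mul, mul_comm e m, hme]
  have h3 : h ^ 6 ≠ 0 := pow_ne_zero _ hh
  rw [show Mt ℓ t * (h ^ 6 * Gt (fun l => x l ^ e) t) = h ^ 6 * (Mt ℓ t * Gt (fun l => x l ^ e) t)
    by ring, mul_div_mul_left _ _ h3]

/-- the bound -/
theorem St_js_le {x v w : Fin (n + 1) → ℂ} {K : ℝ} (hx : ‖x‖ ≤ K) (hv : ‖v‖ ≤ K) (hw : ‖w‖ ≤ K)
    (t : Fin 3 → Fin (n + 1)) : ‖St (js e x v w) t‖ ≤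
      6 * (K ^ 2 * ((e + 2) * K) * ((e + 2) * ((e + 1) * K ^ 2 + K * K))) * ‖v‖ := by
  have hK : 0 ≤ K := (norm_nonneg _).trans hx
  have hxl : ∀ l, ‖x l‖ ≤ K := fun l => (norm_le_pi_norm _ l).trans hx
  have hvl : ∀ l, ‖v l‖ ≤ K := fun l => (norm_le_pi_norm _ l).trans hv
  have hwl : ∀ l, ‖w l‖ ≤ K := fun l => (norm_le_pi_norm _ l).trans hw
  have he1 : ‖((e : ℂ) + 1)‖ = (e : ℝ) + 1 := by
    have : ((e : ℂ) + 1) = ((e + 1 : ℕ) : ℂ) := by push_cast; ring
    rw [this, Complex.norm_natCast]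
    push_cast
    ring
  have he2 : ‖((e : ℂ) + 2)‖ = (e : ℝ) + 2 := by
    have : ((e : ℂ) + 2) = ((e + 2 : ℕ) : ℂ) := by push_cast; ring
    rw [this, Complex.norm_natCast]
    push_cast
    ring
  have h0 : ∀ l, ‖js e x v w 0 l‖ ≤ K ^ 2 := by
    intro l
    simp only [js, Matrix.cons_val_zero, norm_pow]
    exact pow_le_pow_left₀ (norm_nonneg _) (hxl l) 2
  have h1 : ∀ l, ‖js e x v w 1 l‖ ≤ ((e + 2) * K) * ‖v‖ := by
    intro l
    simp only [js, Matrix.cons_val_one, Matrix.cons_val_zero, norm_mul, he2]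
    rw [mul_assoc]
    exact mul_le_mul_of_nonneg_left (mul_le_mul (hxl l) (norm_le_pi_norm _ l) (norm_nonneg _) hK)
      (by positivity)
  have h2 : ∀ l, ‖js e x v w 2 l‖ ≤ (e + 2) * ((e + 1) * K ^ 2 + K * K) := by
    intro l
    simp only [js, Matrix.cons_val, norm_mul, he2]
    refine mul_le_mul_of_nonneg_left ((norm_add_le _ _).trans ?_) (by positivity)
    rw [norm_mul, norm_mul, norm_pow, he1]
    exact add_le_add (mul_le_mul_of_nonneg_left (pow_le_pow_left₀ (norm_nonneg _) (hvl l) 2)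
      (by positivity)) (mul_le_mul (hxl l) (hwl l) (norm_nonneg _) hK)
  set A : ℝ := K ^ 2 * (((e + 2) * K) * ‖v‖) * ((e + 2) * ((e + 1) * K ^ 2 + K * K)) with hA
  have hB : ∀ a b c, ‖js e x v w 0 a * js e x v w 1 b * js e x v w 2 c‖ ≤ A := by
    intro a b c
    rw [norm_mul, norm_mul]
    exact mul_le_mul (mul_le_mul (h0 a) (h1 b) (norm_nonneg _) (by positivity)) (h2 c)
      (norm_nonneg _) (by positivity)
  rw [St_three]
  have e1 := hB (t 0) (t 1) (t 2)
  have e2 := hB (t 0) (t 2) (t 1)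
  have e3 := hB (t 1) (t 0) (t 2)
  have e4 := hB (t 2) (t 0) (t 1)
  have e5 := hB (t 1) (t 2) (t 0)
  have e6 := hB (t 2) (t 1) (t 0)
  set a1 := js e x v w 0 (t 0) * js e x v w 1 (t 1) * js e x v w 2 (t 2)
  set a2 := js e x v w 0 (t 0) * js e x v w 1 (t 2) * js e x v w 2 (t 1)
  set a3 := js e x v w 0 (t 1) * js e x v w 1 (t 0) * js e x v w 2 (t 2)
  set a4 := js e x v w 0 (t 2) * js e x v w 1 (t 0) * js e x v w 2 (t 1)
  set a5 := js e x v w 0 (t 1) * js e x v w 1 (t 2) * js e x v w 2 (t 0)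
  set a6 := js e x v w 0 (t 2) * js e x v w 1 (t 1) * js e x v w 2 (t 0)
  have hsum : js e x v w 0 (t 0) * js e x v w 1 (t 1) * js e x v w 2 (t 2) -
      js e x v w 0 (t 0) * js e x v w 2 (t 1) * js e x v w 1 (t 2) -
      js e x v w 1 (t 0) * js e x v w 0 (t 1) * js e x v w 2 (t 2) +
      js e x v w 1 (t 0) * js e x v w 2 (t 1) * js e x v w 0 (t 2) +
      js e x v w 2 (t 0) * js e x v w 0 (t 1) * js e x v w 1 (t 2) -
      js e x v w 2 (t 0) * js e x v w 1 (t 1) * js e x v w 0 (t 2) =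
      a1 - a2 - a3 + a4 + a5 - a6 := by
    simp only [a1, a2, a3, a4, a5, a6]
    ring
  rw [hsum]
  have n1 := norm_sub_le (a1 - a2 - a3 + a4 + a5) a6
  have n2 := norm_add_le (a1 - a2 - a3 + a4) a5
  have n3 := norm_add_le (a1 - a2 - a3) a4
  have n4 := norm_sub_le (a1 - a2) a3
  have n5 := norm_sub_le a1 a2
  have hfin : 6 * (K ^ 2 * ((e + 2) * K) * ((e + 2) * ((e + 1) * K ^ 2 + K * K))) * ‖v‖ = 6 * A := by
    rw [hA]
    ring
  rw [hfin]
  linarith

/-- products of curves and functions -/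
theorem deriv_smul_two {h : ℂ → ℂ} {γ : ℂ → Fin (n + 1) → ℂ} {z : ℂ} (hh : AnalyticAt ℂ h z)
    (hγ : AnalyticAt ℂ γ z) :
    deriv (fun s => h s • γ s) z = deriv h z • γ z + h z • deriv γ z ∧
    deriv (deriv fun s => h s • γ s) z =
      deriv (deriv h) z • γ z + (2 * deriv h z) • deriv γ z + h z • deriv (deriv γ) z := by
  have h1 : ∀ s, AnalyticAt ℂ h s → AnalyticAt ℂ γ s →
      deriv (fun s => h s • γ s) s = deriv h s • γ s + h s • deriv γ s := by
    intro s hs hs'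
    have := (hs.differentiableAt.hasDerivAt.smul hs'.differentiableAt.hasDerivAt).deriv
    exact this.trans (add_comm _ _)
  refine ⟨h1 z hh hγ, ?_⟩
  have h2 : deriv (fun s => h s • γ s) =ᶠ[𝓝 z] fun s => deriv h s • γ s + h s • deriv γ s := by
    filter_upwards [hh.eventually_analyticAt, hγ.eventually_analyticAt] with s hs hs'
    exact h1 s hs hs'
  rw [h2.deriv_eq]
  have h3 := (hh.deriv.differentiableAt.hasDerivAt.smul hγ.differentiableAt.hasDerivAt).add
    (hh.differentiableAt.hasDerivAt.smul hγ.deriv.differentiableAt.hasDerivAt)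
  have h4 := h3.deriv
  refine Eq.trans h4 ?_
  rw [two_mul, add_smul]
  abel

/-- the relations -/
theorem js_rel (h : GeneralPosition ℓ) (hr : 3 ≤ n + 1) {γ : ℂ → Fin (n + 1) → ℂ} {z : ℂ}
    (hγ : AnalyticAt ℂ γ z) (hX : ∀ᶠ s in 𝓝 z, γ s ∈ Cone (fermatForms ℓ (e + 2))) (k : Fin 3) :
    ∃ u : Fin 3 → ℂ, ∀ l, γ z l ^ e * js e (γ z) (deriv γ z) (deriv (deriv γ) z) k l =
      ∑ j, ℓ l j * u j := by
  apply exists_u (h.mt (Fin.castLE_injective hr))
  intro c hc
  have hl : ∀ {s : ℂ} {g : ℂ → Fin (n + 1) → ℂ}, AnalyticAt ℂ g s → ∀ l,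
      HasDerivAt (fun s => g s l) (deriv g s l) s := fun {s g} hs l =>
    (hasDerivAt_pi.1 hs.differentiableAt.hasDerivAt) l
  have h0 : ∀ᶠ s in 𝓝 z, ∑ l, c l * γ s l ^ (e + 2) = 0 := by
    filter_upwards [hX] with s hs
    exact (mem_cone.1 hs).2 c hc
  have hd1 : ∀ s, AnalyticAt ℂ γ s → HasDerivAt (fun s => ∑ l, c l * γ s l ^ (e + 2))
      (∑ l, c l * ((e + 2 : ℂ) * γ s l ^ (e + 1) * deriv γ s l)) s := by
    intro s hs
    refine HasDerivAt.fun_sum fun l _ => ?_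
    refine HasDerivAt.const_mul (c l) ?_
    have := (hl hs l).pow (e + 2)
    refine this.congr_deriv ?_
    rw [show e + 2 - 1 = e + 1 from rfl]
    push_cast
    ring
  have h1 : ∀ᶠ s in 𝓝 z, ∑ l, c l * ((e + 2 : ℂ) * γ s l ^ (e + 1) * deriv γ s l) = 0 := by
    filter_upwards [h0.eventually_nhds, hγ.eventually_analyticAt] with s hs hs'
    have h3 : (fun s => ∑ l, c l * γ s l ^ (e + 2)) =ᶠ[𝓝 s] fun _ => 0 := hs
    exact (hd1 s hs').unique ((hasDerivAt_const s (0 : ℂ)).congr_of_eventuallyEq h3)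
  have hd2 : HasDerivAt (fun s => ∑ l, c l * ((e + 2 : ℂ) * γ s l ^ (e + 1) * deriv γ s l))
      (∑ l, c l * ((e + 2 : ℂ) * ((e + 1 : ℂ) * γ z l ^ e * deriv γ z l * deriv γ z l +
        γ z l ^ (e + 1) * deriv (deriv γ) z l))) z := by
    refine HasDerivAt.fun_sum fun l _ => ?_
    refine HasDerivAt.const_mul (c l) ?_
    have h3 := (hl hγ l).pow (e + 1)
    have h4 := hl hγ.deriv l
    have h5 := (h3.mul h4).const_mul (e + 2 : ℂ)
    have h6 : (fun s => (e + 2 : ℂ) * γ s l ^ (e + 1) * deriv γ s l) = fun s =>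
        (e + 2 : ℂ) * ((fun s => γ s l) ^ (e + 1) * fun s => deriv γ s l) s := by
      funext s
      simp only [Pi.mul_apply, Pi.pow_apply]
      ring
    rw [h6]
    refine h5.congr_deriv ?_
    rw [show e + 1 - 1 = e from rfl]
    simp only [Pi.pow_apply]
    push_cast
    ring
  have h2 : ∑ l, c l * ((e + 2 : ℂ) * ((e + 1 : ℂ) * γ z l ^ e * deriv γ z l * deriv γ z l +
        γ z l ^ (e + 1) * deriv (deriv γ) z l)) = 0 := by
    have h3 : (fun s => ∑ l, c l * ((e + 2 : ℂ) * γ s l ^ (e + 1) * deriv γ s l)) =ᶠ[𝓝 z]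
        fun _ => 0 := h1
    exact hd2.unique ((hasDerivAt_const z (0 : ℂ)).congr_of_eventuallyEq h3)
  match k with
  | 0 =>
    rw [← h0.self_of_nhds]
    refine Finset.sum_congr rfl fun l _ => ?_
    simp only [js, Matrix.cons_val_zero]
    ring
  | 1 =>
    rw [← h1.self_of_nhds]
    refine Finset.sum_congr rfl fun l _ => ?_
    simp only [js, Matrix.cons_val_one, Matrix.cons_val_zero]
    ring
  | 2 =>
    rw [← h2]
    refine Finset.sum_congr rfl fun l _ => ?_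
    simp only [js, Matrix.cons_val]
    ring

end Pool.Agent.Helper65.BF
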