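import Pool.Agent.Helper65.BF.Deg

/-!
Degenerate curves of bounded derivative in a surface of degree eight lie in lines.
-/

set_option autoImplicit false

open Filter Topology Metric MvPolynomial Set

namespace Pool.Agent.Helper65.BF

open Pool.Agent.W602.GT Pool.Agent.N155.BB Pool.Agent.Y190.OP Pool.Agent.N155

variable {e : ℕ} {ℓ : Fin (3 + 1) → Fin 3 → ℂ}

/-- a vector with given products -/
theorem exists_prod {a c : Fin 2 → ℂ} (h : D2 a c ≠ 0) (s t : ℂ) : ∃ u : Fin 2 → ℂ,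
    ∑ j, a j * u j = s ∧ ∑ j, c j * u j = t := by
  refine ⟨![(s * c 1 - t * a 1) / D2 a c, (t * a 0 - s * c 0) / D2 a c], ?_, ?_⟩
  · rw [Fin.sum_univ_two]
    simp only [Matrix.cons_val_zero, Matrix.cons_val_one]
    rw [mul_div_assoc', mul_div_assoc', ← add_div, div_eq_iff h]
    unfold D2
    ring
  · rw [Fin.sum_univ_two]
    simp only [Matrix.cons_val_zero, Matrix.cons_val_one]
    rw [mul_div_assoc', mul_div_assoc', ← add_div, div_eq_iff h]
    unfold D2
    ring

/-- **Degenerate curves are constant or lie in lines.** -/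
theorem deg_line (hg : GeneralPosition ℓ)
    {φ : ℂ → Mat (3 + 1)} (hφ : BD (TF (fermatForms ℓ (e + 2))) φ)
    (h3e : 3 ≤ e + 1)
    (h0 : ∀ z i t, φ z i i ≠ 0 → Adm (Zs (cu φ i z)) t → vl (qw ℓ e) φ i t z = 0) :
    (∀ z, fderiv ℝ φ z = 0) ∨ ∃ P Q : Fin (3 + 1) → ℂ, Line (fermatForms ℓ (e + 2)) P Q ∧
      ∀ z i, φ z i i ≠ 0 → ∃ s t : ℂ, cu φ i z = s • P + t • Q := by
  classical
  obtain ⟨t, b, ht, hb, h1⟩ := wron_zero hg (by omega) hφ h0
  obtain ⟨κ, hκ, h3, hrel⟩ := exists_kap hg hφ ht hb h1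
  obtain ⟨I, g, hI, h2, hc, hgI, hginj⟩ := exists_I (by omega) h3
  by_cases hI3 : 3 ≤ I.card
  · left
    refine flat_of_card hI (d := e + 1) ?_ hκ
    have : 1 ≤ I.card - 2 := by omega
    nlinarith
  right
  have hI2 : I.card = 2 := by omega
  have hIc : Iᶜ.card = 2 := by
    have := Finset.card_add_card_compl I
    rw [Fintype.card_fin] at this
    omega
  obtain ⟨b1, b2, hb12, hIc2⟩ := Finset.card_eq_two.1 hIc
  have hb1 : b1 ∉ I := by
    rw [← Finset.mem_compl, hIc2]
    simp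
  have hb2 : b2 ∉ I := by
    rw [← Finset.mem_compl, hIc2]
    simp
  obtain ⟨ha1, hD1⟩ := hgI b1 hb1
  obtain ⟨ha2, hD2⟩ := hgI b2 hb2
  set a1 := g b1 with ha1d
  set a2 := g b2 with ha2d
  have ha12 : a1 ≠ a2 := fun h => hb12 (hginj hb1 hb2 h)
  have hab11 : a1 ≠ b1 := fun h => hb1 (h ▸ ha1)
  have hab12 : a1 ≠ b2 := fun h => hb2 (h ▸ ha1)
  have hab21 : a2 ≠ b1 := fun h => hb1 (h ▸ ha2)
  have hab22 : a2 ≠ b2 := fun h => hb2 (h ▸ ha2)
  have hIe : I = {a1, a2} := by
    symm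
    apply Finset.eq_of_subset_of_card_le
    · intro x hx
      rw [Finset.mem_insert, Finset.mem_singleton] at hx
      rcases hx with rfl | rfl
      · exact ha1
      · exact ha2
    · rw [hI2, Finset.card_pair ha12]
  have hcov : ∀ l, l = a1 ∨ l = b1 ∨ l = a2 ∨ l = b2 := by
    intro l
    by_cases hl : l ∈ I
    · rw [hIe, Finset.mem_insert, Finset.mem_singleton] at hl
      rcases hl with h | h
      · exact Or.inl h
      · exact Or.inr (Or.inr (Or.inl h))
    · rw [← Finset.mem_compl, hIc2, Finset.mem_insert, Finset.mem_singleton] at hl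
      rcases hl with h | h
      · exact Or.inr (Or.inl h)
      · exact Or.inr (Or.inr (Or.inr h))
  have hDa : D2 (κ a1) (κ a2) ≠ 0 := hI _ ha1 _ ha2 ha12
  have hne1 : κ a1 ≠ 0 := fun h => hDa (by
    unfold D2
    rw [h]
    simp)
  have hne2 : κ a2 ≠ 0 := fun h => hDa (by
    unfold D2
    rw [h]
    simp)
  obtain ⟨r, r0, hr, hκr, hxr⟩ := ratio (d := e + 1) hκ hne1 hD1
  obtain ⟨s, s0, hs, hκs, hxs⟩ := ratio (d := e + 1) hκ hne2 hD2
  set P : Fin (3 + 1) → ℂ := fun l => if l = a1 then 1 else if l = b1 then r else 0 with hP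
  set Q : Fin (3 + 1) → ℂ := fun l => if l = a2 then 1 else if l = b2 then s else 0 with hQ
  have hPa1 : P a1 = 1 := if_pos rfl
  have hPb1 : P b1 = r := by
    simp only [hP, if_neg hab11.symm, if_true]
  have hPa2 : P a2 = 0 := by
    simp only [hP, if_neg ha12.symm, if_neg hab21]
  have hPb2 : P b2 = 0 := by
    simp only [hP, if_neg hab12.symm, if_neg hb12.symm]
  have hQa2 : Q a2 = 1 := if_pos rfl
  have hQb2 : Q b2 = s := by
    simp only [hQ, if_neg hab22.symm, if_true]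
  have hQa1 : Q a1 = 0 := by
    simp only [hQ, if_neg ha12, if_neg hab12]
  have hQb1 : Q b1 = 0 := by
    simp only [hQ, if_neg hab21.symm, if_neg hb12]
  refine ⟨P, Q, ⟨?_, fun c c' i => ?_⟩, fun z i hi => ⟨cu φ i z a1, cu φ i z a2, ?_⟩⟩
  · rw [LinearIndependent.pair_iff]
    intro x y hxy
    have e1 := congrFun hxy a1
    have e2 := congrFun hxy a2
    simp only [Pi.add_apply, Pi.smul_apply, smul_eq_mul, hPa1, hPa2, hQa1, hQa2, mul_one, mul_zero,
      add_zero, zero_add, Pi.zero_apply] at e1 e2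
    exact ⟨e1, e2⟩
  · rw [val_fermat]
    obtain ⟨u, hu1, hu2⟩ := exists_prod hDa (c ^ (e + 2)) (c' ^ (e + 2))
    refine rel_of_u (ℓ := κ) (u := u) (y := fun l => (c • P + c' • Q) l ^ (e + 2)) (fun l => ?_)
      (hrel _ i.2)
    rcases hcov l with rfl | rfl | rfl | rfl
    · rw [hu1]
      simp only [Pi.add_apply, Pi.smul_apply, smul_eq_mul, hPa1, hQa1, mul_one, mul_zero, add_zero]
    · have e1 : ∑ j, κ l j * u j = r0 * ∑ j, κ a1 j * u j := by
        rw [hκr, Finset.mul_sum]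
        exact Finset.sum_congr rfl fun j _ => by
          rw [Pi.smul_apply, smul_eq_mul, mul_assoc]
      rw [e1, hu1, ← hr, ← mul_pow]
      simp only [Pi.add_apply, Pi.smul_apply, smul_eq_mul, hPb1, hQb1, mul_zero, add_zero]
      rw [mul_comm]
    · rw [hu2]
      simp only [Pi.add_apply, Pi.smul_apply, smul_eq_mul, hPa2, hQa2, mul_one, mul_zero, zero_add]
    · have e1 : ∑ j, κ l j * u j = s0 * ∑ j, κ a2 j * u j := by
        rw [hκs, Finset.mul_sum]
        exact Finset.sum_congr rfl fun j _ => by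
          rw [Pi.smul_apply, smul_eq_mul, mul_assoc]
      rw [e1, hu2, ← hs, ← mul_pow]
      simp only [Pi.add_apply, Pi.smul_apply, smul_eq_mul, hPb2, hQb2, mul_zero, zero_add]
      rw [mul_comm]
  · funext l
    simp only [Pi.add_apply, Pi.smul_apply, smul_eq_mul]
    rcases hcov l with h | h | h | h
    · rw [h, hPa1, hQa1]
      ring
    · rw [h, hPb1, hQb1, hxr z i hi]
      ring
    · rw [h, hPa2, hQa2]
      ring
    · rw [h, hPb2, hQb2, hxs z i hi]
      ring

end Pool.Agent.Helper65.BF
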