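import Pool.Agent.Helper65.BF.Unif

/-!
Entire curves of bounded derivative in the borderline Fermat covers of the plane.
-/

set_option autoImplicit false

open Filter Topology Metric MvPolynomial Set LinearAlgebra.Projectivization

namespace Pool.Agent.Helper65.BF

open Pool.Agent.W602.GT Pool.Agent.N155.BB Pool.Agent.Y190.OP Pool.Agent.N155

variable {n m e : ℕ} {ι : Type} {F : ι → MvPolynomial (Fin (n + 1)) ℂ}
  {ℓ : Fin (n + 1) → Fin 3 → ℂ}

/-- the empty set -/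
theorem form_one : ∀ _ : Unit, IsForm (1 : MvPolynomial (Fin (n + 1)) ℂ) := fun _ =>
  ⟨0, isHomogeneous_one _ _⟩

theorem noBC_one : NoBC F (fun _ : Unit => (1 : MvPolynomial (Fin (n + 1)) ℂ)) := by
  intro f _ h
  exfalso
  have h1 := (h 0).2 ()
  unfold W602.GT.val at h1
  rw [map_one] at h1
  exact one_ne_zero h1

theorem periodic_const {f : ℂ → ℙ ℂ (Fin (n + 1) → ℂ)} (h : ∀ z w, f z = f w) :
    DoublyPeriodic f := by
  refine pair_periods (p := 1) (q := Complex.I) ?_ (fun z => h _ _) fun z => h _ _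
  rw [LinearIndependent.pair_iff]
  intro a b hab
  have e1 := congrArg Complex.re hab
  have e2 := congrArg Complex.im hab
  simp at e1 e2
  exact ⟨e1, e2⟩

/-- the curve of matrices -/
theorem const_of_flat {f : ℂ → ℙ ℂ (Fin (n + 1) → ℂ)} (hf : HolMap f) {a : ℂ} {ρ : ℝ}
    (hρ : 0 < ρ)
    (h : ∀ z, fderiv ℝ (fun z => Phi (f (aff a ρ z)).rep) z = 0) : ∀ z w, f z = f w := by
  have hhol := holP_of_map hf
  have h1 : HolP univ (fun z => Phi (f (aff a ρ z)).rep) := by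
    have := hhol.aff a ρ
    rwa [preimage_univ] at this
  have h2 : ∀ z w, Phi (f (aff a ρ z)).rep = Phi (f (aff a ρ w)).rep := fun z w =>
    is_const_of_fderiv_eq_zero (𝕜 := ℝ) (fun w => h1.differentiableAt (mem_univ w)) h z w
  have hρc : (ρ : ℂ) ≠ 0 := by exact_mod_cast hρ.ne'
  have h3 : ∀ z, aff a ρ ((z - a) / ρ) = z := by
    intro z
    unfold aff
    field_simp
    ring
  intro z w
  have h4 := h2 ((z - a) / ρ) ((w - a) / ρ)
  rw [h3, h3] at h4
  exact proj_ext h4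

/-- rescaled curves -/
theorem bd_aff (hF : ∀ i, IsForm (F i)) {f : ℂ → ℙ ℂ (Fin (n + 1) → ℂ)} (hf : HolIn F f) {a : ℂ}
    {ρ B : ℝ} (hρ : 0 < ρ) (hB : ∀ z, ‖fderiv ℝ (fun z => Phi (f z).rep) z‖ ≤ B)
    (hρB : ρ * B ≤ 2) : BD (TF F) (fun z => Phi (f (aff a ρ z)).rep) ∧
      ∀ z, ‖fderiv ℝ (fun z => Phi (f (aff a ρ z)).rep) z‖ =
        ρ * ‖fderiv ℝ (fun z => Phi (f z).rep) (aff a ρ z)‖ := by
  have _ := hF
  have hhol := holP_of_map hf.1
  have hnorm : ∀ z, ‖fderiv ℝ (fun z => Phi (f (aff a ρ z)).rep) z‖ =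
      ρ * ‖fderiv ℝ (fun z => Phi (f z).rep) (aff a ρ z)‖ := fun z =>
    norm_fderiv_aff (Ψ := fun z => Phi (f z).rep) hρ.le (hhol.differentiableAt (mem_univ _))
  refine ⟨⟨?_, fun z => mem_TF (hf.2 _), fun z => ?_⟩, hnorm⟩
  · have := hhol.aff a ρ
    rwa [preimage_univ] at this
  · rw [hnorm]
    exact (mul_le_mul_of_nonneg_left (hB _) hρ.le).trans hρB

/-- representatives -/
theorem rep_chart {p : ℙ ℂ (Fin (n + 1) → ℂ)} : ∃ i, Phi p.rep i i ≠ 0 ∧
    p.rep = p.rep i • chart i (Phi p.rep) := by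
  obtain ⟨i, hi⟩ := Function.ne_iff.1 p.rep_nonzero
  have hi' : p.rep i ≠ 0 := hi
  refine ⟨i, (Phi_diag_ne p.rep_nonzero).2 hi', ?_⟩
  rw [chart_Phi p.rep_nonzero hi', smul_smul, mul_inv_cancel₀ hi', one_smul]

/-- **Curves of bounded derivative: the case of more than four coordinates.** -/
theorem periodic_of_bd (hg : GeneralPosition ℓ) (hn : n = m + 2) (hme : m * e = 6) (hm : 2 ≤ m)
    {f : ℂ → ℙ ℂ (Fin (n + 1) → ℂ)} (hf : HolIn (fermatForms ℓ (e + 2)) f) {C : ℝ}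
    (hb : DerBetween 0 C f) : DoublyPeriodic f := by
  obtain ⟨B, hB⟩ := bounded_of_between hf.1 hb
  have hB0 : 0 ≤ B := (norm_nonneg _).trans (hB 0)
  set ρ : ℝ := 2 / (B + 1) with hρ
  have hρ0 : 0 < ρ := by positivity
  have hρB : ρ * B ≤ 2 := by
    rw [hρ, div_mul_eq_mul_div, div_le_iff₀ (by positivity)]
    linarith
  obtain ⟨hbd, hnorm⟩ := bd_aff form_fermat hf (a := 0) hρ0 hB hρB
  obtain ⟨K, hK, hex⟩ := (jd_wron hg hn hme).const (isCompact_TF form_fermat) TF_PM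
  obtain ⟨c, hc, hcb⟩ := hex _ hbd
  by_cases hc0 : c = 0
  · rw [hc0] at hc
    exact periodic_const (const_of_flat hf.1 hρ0 (deg_flat hg hn hme hm hbd hc))
  · have hcp := norm_pos_iff.2 hc0
    refine periodic_of_low (manifold hg (by omega) (by omega)) form_one
      (two_forms hg (by omega) hn hme) noBC_one hf hB (c := ‖c‖ / ((K + 1) * ρ)) (by positivity)
      fun z => ?_
    have h1 := hcb (z / ρ)
    rw [hnorm] at h1
    have h2 : aff 0 ρ (z / ρ) = z := by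
      have hρc : (ρ : ℂ) ≠ 0 := by exact_mod_cast hρ0.ne'
      unfold aff
      field_simp
      ring
    rw [h2] at h1
    rw [div_le_iff₀ (by positivity)]
    have h4 := norm_nonneg (fderiv ℝ (fun z => Phi (f z).rep) z)
    have h5 : 0 ≤ ρ * ‖fderiv ℝ (fun z => Phi (f z).rep) z‖ := by positivity
    nlinarith

/-- **Curves of bounded derivative: the case of four coordinates.** -/
theorem periodic_or_line {ℓ : Fin (3 + 1) → Fin 3 → ℂ} (hg : GeneralPosition ℓ)
    {f : ℂ → ℙ ℂ (Fin (3 + 1) → ℂ)} (hf : HolIn (fermatForms ℓ 8) f) {C : ℝ}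
    (hb : DerBetween 0 C f) : DoublyPeriodic f ∨ ∃ P Q : Fin (3 + 1) → ℂ,
      Line (fermatForms ℓ 8) P Q ∧ ∀ z, ∃ s t : ℂ, (f z).rep = s • P + t • Q := by
  obtain ⟨B, hB⟩ := bounded_of_between hf.1 hb
  have hB0 : 0 ≤ B := (norm_nonneg _).trans (hB 0)
  set ρ : ℝ := 2 / (B + 1) with hρ
  have hρ0 : 0 < ρ := by positivity
  have hρc : (ρ : ℂ) ≠ 0 := by exact_mod_cast hρ0.ne'
  have hρB : ρ * B ≤ 2 := by
    rw [hρ, div_mul_eq_mul_div, div_le_iff₀ (by positivity)]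
    linarith
  obtain ⟨hbd, hnorm⟩ := bd_aff (form_fermat (ℓ := ℓ) (d := 6 + 2)) hf (a := 0) hρ0 hB hρB
  obtain ⟨K, hK, hex⟩ := (jd_wron (m := 1) (e := 6) hg rfl rfl).const
    (isCompact_TF form_fermat) TF_PM
  obtain ⟨c, hc, hcb⟩ := hex _ hbd
  have haff : ∀ z : ℂ, aff 0 ρ (z / ρ) = z := by
    intro z
    unfold aff
    field_simp
    ring
  by_cases hc0 : c = 0
  · rw [hc0] at hc
    rcases deg_line hg hbd (by norm_num) hc with h1 | ⟨P, Q, hL, h1⟩
    · exact Or.inl (periodic_const (const_of_flat hf.1 hρ0 h1))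
    · right
      refine ⟨P, Q, hL, fun z => ?_⟩
      obtain ⟨i, hi, hrep⟩ := rep_chart (p := f z)
      obtain ⟨s, t, hst⟩ := h1 (z / ρ) i (by
        rw [haff]
        exact hi)
      have h2 : cu (fun z => Phi (f (aff 0 ρ z)).rep) i (z / ρ) = chart i (Phi (f z).rep) := by
        change chart i (Phi (f (aff 0 ρ (z / ρ))).rep) = _
        rw [haff]
      rw [h2] at hst
      refine ⟨(f z).rep i * s, (f z).rep i * t, ?_⟩
      rw [mul_smul, mul_smul, ← smul_add, ← hst]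
      exact hrep
  · left
    have hcp := norm_pos_iff.2 hc0
    refine periodic_of_low (manifold hg (by omega) (by omega)) form_one
      (two_forms (m := 1) (e := 6) hg (by omega) rfl rfl) noBC_one hf hB
      (c := ‖c‖ / ((K + 1) * ρ)) (by positivity)
      fun z => ?_
    have h1 := hcb (z / ρ)
    rw [hnorm, haff] at h1
    rw [div_le_iff₀ (by positivity)]
    have h4 := norm_nonneg (fderiv ℝ (fun z => Phi (f z).rep) z)
    have h5 : 0 ≤ ρ * ‖fderiv ℝ (fun z => Phi (f z).rep) z‖ := by positivity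
    nlinarith

/-- **Finiteness and Brody's criterion.** -/
theorem finite_bd (hg : GeneralPosition ℓ) (hn : n = m + 2) (hme : m * e = 6) (hm : 2 ≤ m) :
    ∃ S : Finset (ℂ → ℙ ℂ (Fin (n + 1) → ℂ)),
      (∀ g ∈ S, HolIn (fermatForms ℓ (e + 2)) g ∧ DoublyPeriodic g ∧ ¬ ∀ z w, g z = g w) ∧
      (∀ f, HolIn (fermatForms ℓ (e + 2)) f → (¬ ∀ z w, f z = f w) → ∀ C, DerBetween 0 C f →
        ∃ g ∈ S, ∃ a b : ℂ, a ≠ 0 ∧ ∀ z, f z = g (a * z + b)) ∧
      ∀ f, HolIn (fermatForms ℓ (e + 2)) f → (¬ ∀ z w, f z = f w) → S.Nonempty := by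
  classical
  set F := fermatForms ℓ (e + 2) with hFdef
  have hF : ∀ i, IsForm (F i) := form_fermat
  have hX : ProjManifold F 2 := manifold hg (by omega) (by omega)
  have hη := two_forms hg (by omega) hn hme
  obtain ⟨δ, hδ, hlow⟩ := low_unif hg hn hme hm
  have hgw := gw_of hX form_one hη
  have hcls := BCw.cls (isCompact_TF hF) (TF_PM (F := F)) hδ
  have hout : ∀ φ, BCw (TF F) δ φ → ∃ z, φ z ∉ TF (fun _ : Unit =>
      (1 : MvPolynomial (Fin (n + 1)) ℂ)) := fun φ hφ => noBC_one.out hF form_one hδ hφ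
  obtain ⟨S, hS1, hS2⟩ := finite_class hgw hout hcls
  have hBC : ∀ φ, BD (TF F) φ → 1 ≤ ‖fderiv ℝ φ 0‖ → BCw (TF F) δ φ := fun φ hφ h1 =>
    ⟨hφ.hol, hφ.mem, hφ.bd, hlow φ hφ h1⟩
  refine ⟨S.image fun φ z => toProj (φ z), fun g hg' => ?_, fun f hf hne C hb => ?_,
    fun f hf hne => ?_⟩
  · obtain ⟨φ, hφ, rfl⟩ := Finset.mem_image.1 hg'
    have h1 := hS1 φ hφ
    obtain ⟨p, q, hind, hp, hq⟩ := two_periods hgw hout hcls h1
    refine ⟨⟨holMap_of h1.hol, fun z => rep_toProj hF (h1.mem z)⟩, ?_, fun hcon => ?_⟩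
    · obtain ⟨L, hL⟩ := pair_periods hind hp hq
      exact ⟨L, fun l hl z => by
        change toProj (φ (z + l)) = toProj (φ z)
        rw [hL l hl z]⟩
    · have h2 : ∀ z w, φ z = φ w := by
        intro z w
        have h3 := congrArg (fun p => Phi p.rep) (hcon z w)
        simp only at h3
        rwa [Phi_rep_toProj (TF_PM (h1.mem z)), Phi_rep_toProj (TF_PM (h1.mem w))] at h3
      have h3 := h1.low 0
      have h4 : φ = fun _ => φ 0 := funext fun z => h2 z 0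
      rw [h4] at h3
      simp at h3
      linarith
  · obtain ⟨B, hB⟩ := bounded_of_between hf.1 hb
    have hhol := holP_of_map hf.1
    set φ0 : ℂ → Mat (n + 1) := fun z => Phi (f z).rep with hφ0
    -- the least bound
    have hbdd : BddAbove (Set.range fun z => ‖fderiv ℝ φ0 z‖) := ⟨B, by
      rintro _ ⟨z, rfl⟩
      exact hB z⟩
    set B' : ℝ := ⨆ z, ‖fderiv ℝ φ0 z‖ with hB'
    have hle : ∀ z, ‖fderiv ℝ φ0 z‖ ≤ B' := fun z => le_ciSup hbdd z
    have hB'0 : 0 < B' := by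
      by_contra hcon
      push Not at hcon
      apply hne
      intro z w
      have h1 : ∀ z, fderiv ℝ φ0 z = 0 := fun z =>
        norm_le_zero_iff.1 ((hle z).trans hcon)
      exact proj_ext (is_const_of_fderiv_eq_zero (𝕜 := ℝ)
        (fun w => hhol.differentiableAt (mem_univ w)) h1 z w)
    obtain ⟨z0, hz0⟩ := exists_lt_of_lt_ciSup (show B' / 2 < ⨆ z, ‖fderiv ℝ φ0 z‖ by
      rw [← hB']
      linarith)
    set ρ : ℝ := 2 / B' with hρ
    have hρ0 : 0 < ρ := by positivity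
    have hρB : ρ * B' ≤ 2 := by
      rw [hρ, div_mul_cancel₀ _ hB'0.ne']
    obtain ⟨hbd, hnorm⟩ := bd_aff hF hf (a := z0) hρ0 hle hρB
    have h1 : 1 ≤ ‖fderiv ℝ (fun z => Phi (f (aff z0 ρ z)).rep) 0‖ := by
      rw [hnorm]
      have h2 : aff z0 ρ 0 = z0 := by simp [aff]
      rw [h2, hρ, div_mul_eq_mul_div, le_div_iff₀ hB'0]
      linarith
    have hmem := hBC _ hbd h1
    obtain ⟨φ, hφ, α, β, hαβ⟩ := hS2 _ hmem
    obtain ⟨hα, -⟩ := hcls.alpha hmem (hS1 φ hφ) hαβ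
    have hα0 : α ≠ 0 := by
      intro h0
      rw [h0, norm_zero] at hα
      linarith
    have hρc : (ρ : ℂ) ≠ 0 := by exact_mod_cast hρ0.ne'
    refine ⟨_, Finset.mem_image_of_mem _ hφ, α / ρ, β - α / ρ * z0, div_ne_zero hα0 hρc,
      fun z => ?_⟩
    have h3 := hαβ ((z - z0) / ρ)
    have h4 : aff z0 ρ ((z - z0) / ρ) = z := by
      unfold aff
      field_simp
      ring
    rw [h4] at h3
    have h5 : α / ρ * z + (β - α / ρ * z0) = α * ((z - z0) / ρ) + β := by ring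
    rw [h5, ← h3, toProj_Phi_rep]
  · have hhol := holP_of_map hf.1
    obtain ⟨φ, hφ, h1⟩ := brody (isCompact_TF hF) (TF_PM (F := F)) hhol
      (fun z => mem_TF (hf.2 z)) (fun hcon => hne fun z w => proj_ext (by
        have h2 := hcon z
        have h3 := hcon w
        exact h2.trans h3.symm))
    obtain ⟨φ', hφ', -⟩ := hS2 _ (hBC φ hφ h1.ge)
    exact ⟨_, Finset.mem_image_of_mem _ hφ'⟩

end Pool.Agent.Helper65.BF
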