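import Pool.Agent.Helper65.BF.FC

/-!
The Fermat covers are manifolds.
-/

set_option autoImplicit false

open Filter Topology Finset MvPolynomial

namespace Pool.Agent.Helper65.BF

open Pool.Agent.W602.GT Pool.Agent.N155.BB

variable {n k : ℕ} {ℓ : Fin (n + 1) → Fin (k + 1) → ℂ} {d : ℕ}

theorem root_eq (hd : d ≠ 0) : ∀ᶠ w : ℂ in 𝓝 1, (w ^ d) ^ ((d : ℂ)⁻¹) = w := by
  have h1 : ContinuousAt Complex.arg 1 := Complex.continuousAt_arg (by simp)
  have hpos : 0 < Real.pi / d := by
    have : 0 < (d : ℝ) := by exact_mod_cast Nat.pos_of_ne_zero hd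
    positivity
  have h2 : ∀ᶠ w : ℂ in 𝓝 1, w.arg < Real.pi / d := by
    apply h1.eventually_lt_const
    rw [Complex.arg_one]
    exact hpos
  have h3 : ∀ᶠ w : ℂ in 𝓝 1, -(Real.pi / d) < w.arg := by
    apply h1.eventually_const_lt
    rw [Complex.arg_one]
    linarith
  filter_upwards [h2, h3] with w h4 h5
  exact Complex.pow_cpow_nat_inv hd h5 h4.le

/-- **Fermat covers are manifolds.** -/
theorem manifold (h : GeneralPosition ℓ) (hd : 0 < d) (hk : k ≤ n) :
    ProjManifold (fermatForms ℓ d) k := by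
  classical
  refine ⟨form_fermat, fun x hx => ?_⟩
  obtain ⟨t0, ht0, hadm0⟩ := exists_adm h hd (by omega) hx
  obtain ⟨i0, hi0⟩ := exists_ne h hd ht0 hx
  -- the first coordinate is not zero
  obtain ⟨t, ht, hadm, hx0⟩ : ∃ t : Fin (k + 1) → Fin (n + 1), Function.Injective t ∧
      (∀ l, (∀ i, t i ≠ l) → x l ≠ 0) ∧ x (t 0) ≠ 0 := by
    refine ⟨t0 ∘ Equiv.swap 0 i0, ht0.comp (Equiv.injective _), fun l hl => hadm0 l fun i h1 => ?_,
      ?_⟩
    · apply hl (Equiv.swap 0 i0 i)
      rw [Function.comp_apply, Equiv.swap_apply_self]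
      exact h1
    · rw [Function.comp_apply, Equiv.swap_apply_left]
      exact hi0
  have hM := h.mt ht
  obtain ⟨Λ, hΛ⟩ := exists_coeff hM
  have hd' : d ≠ 0 := hd.ne'
  set i : Fin (n + 1) := t 0 with hi
  set J : Fin k → Fin (n + 1) := fun a => t a.succ with hJ
  set Y : Fin (n + 1) → (Fin k → ℂ) → ℂ := fun l z =>
    ∑ j, Λ l j * (Fin.cons 1 z : Fin (k + 1) → ℂ) j ^ d with hY
  set Ψ : (Fin k → ℂ) → Fin (n + 1) → ℂ := fun z l => if hl : ∃ j, t j = l then
    (Fin.cons 1 z : Fin (k + 1) → ℂ) hl.choose else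
      (x l / x i) * (Y l z / (x l / x i) ^ d) ^ ((d : ℂ)⁻¹) with hΨ
  set U : Set (Fin k → ℂ) := {z | ∀ l, (∀ j, t j ≠ l) →
    Y l z / (x l / x i) ^ d ∈ Complex.slitPlane} with hU
  have hΨt : ∀ z j, Ψ z (t j) = (Fin.cons 1 z : Fin (k + 1) → ℂ) j := by
    intro z j
    have h1 : ∃ j', t j' = t j := ⟨j, rfl⟩
    simp only [hΨ, dif_pos h1]
    rw [ht h1.choose_spec]
  have hΨl : ∀ z l, (∀ j, t j ≠ l) → Ψ z l =
      (x l / x i) * (Y l z / (x l / x i) ^ d) ^ ((d : ℂ)⁻¹) := by
    intro z l hl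
    have h1 : ¬ ∃ j', t j' = l := fun ⟨j, hj⟩ => hl j hj
    simp only [hΨ, dif_neg h1]
  have hcont : ∀ j : Fin (k + 1), AnalyticOnNhd ℂ
      (fun z : Fin k → ℂ => (Fin.cons 1 z : Fin (k + 1) → ℂ) j) Set.univ := by
    intro j z _
    refine Fin.cases ?_ (fun a => ?_) j
    · simp only [Fin.cons_zero]
      exact analyticAt_const
    · simp only [Fin.cons_succ]
      exact (ContinuousLinearMap.proj (R := ℂ) (φ := fun _ : Fin k => ℂ) a).analyticAt z
  have hYan : ∀ l, AnalyticOnNhd ℂ (Y l) Set.univ := by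
    intro l z hz
    simp only [hY]
    exact Finset.analyticAt_fun_sum _ fun j _ => analyticAt_const.mul ((hcont j z hz).pow d)
  have hratio : ∀ v ∈ Cone (fermatForms ℓ d), v i ≠ 0 → ∀ l,
      Y l (fun a => v (J a) / v i) = (v l / v i) ^ d := by
    intro v hv hvi l
    have h1 := cone_coeff hΛ hv l
    rw [div_pow, h1, Finset.sum_div]
    refine Finset.sum_congr rfl fun j _ => ?_
    refine Fin.cases ?_ (fun a => ?_) j
    · simp only [Fin.cons_zero, one_pow, mul_one]
      rw [mul_div_assoc, div_self (pow_ne_zero d hvi), mul_one]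
    · simp only [Fin.cons_succ]
      rw [div_pow, mul_div_assoc]
  have hwne : ∀ l, (∀ j, t j ≠ l) → x l / x i ≠ 0 := fun l hl => div_ne_zero (hadm l hl) hx0
  refine ⟨i, J, U, Ψ, hx0, ?_, ?_, ?_, ?_, ?_⟩
  · -- open
    have h1 : U = ⋂ l, {z | (∀ j, t j ≠ l) → Y l z / (x l / x i) ^ d ∈ Complex.slitPlane} := by
      ext z
      simp only [hU, Set.mem_ofPred_eq, Set.mem_iInter]
    rw [h1]
    refine isOpen_iInter_of_finite fun l => ?_
    by_cases hl : ∀ j, t j ≠ l
    · have h2 : {z | (∀ j, t j ≠ l) → Y l z / (x l / x i) ^ d ∈ Complex.slitPlane} =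
          (fun z => Y l z / (x l / x i) ^ d) ⁻¹' Complex.slitPlane := by
        ext z
        simp only [Set.mem_ofPred_eq, Set.mem_preimage]
        exact ⟨fun h3 => h3 hl, fun h3 _ => h3⟩
      rw [h2]
      refine Complex.isOpen_slitPlane.preimage ?_
      have h3 : Continuous (Y l) := continuous_iff_continuousAt.2 fun z =>
        (hYan l z (Set.mem_univ z)).continuousAt
      exact h3.div_const _
    · have h2 : {z | (∀ j, t j ≠ l) → Y l z / (x l / x i) ^ d ∈ Complex.slitPlane} = Set.univ := by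
        ext z
        simp only [Set.mem_ofPred_eq, Set.mem_univ, iff_true]
        exact fun h3 => absurd h3 hl
      rw [h2]
      exact isOpen_univ
  · -- the point
    intro l hl
    rw [hratio x hx hx0 l, div_self (pow_ne_zero d (hwne l hl))]
    simp
  · -- analytic
    intro z hz
    rw [analyticAt_pi_iff]
    intro l
    by_cases hl : ∃ j, t j = l
    · obtain ⟨j, rfl⟩ := hl
      have h1 : (fun z => Ψ z (t j)) = fun z => (Fin.cons 1 z : Fin (k + 1) → ℂ) j :=
        funext fun z => hΨt z j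
      rw [h1]
      exact hcont j z (Set.mem_univ z)
    · have hl' : ∀ j, t j ≠ l := fun j hj => hl ⟨j, hj⟩
      have h1 : (fun z => Ψ z l) = fun z =>
          (x l / x i) * (Y l z / (x l / x i) ^ d) ^ ((d : ℂ)⁻¹) := funext fun z => hΨl z l hl'
      rw [h1]
      refine analyticAt_const.mul (AnalyticAt.cpow ?_ analyticAt_const (hz l hl'))
      exact (hYan l z (Set.mem_univ z)).div analyticAt_const (pow_ne_zero d (hwne l hl'))
  · -- the graph
    intro z hz
    have h0 : Ψ z i = 1 := by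
      rw [hi, hΨt, Fin.cons_zero]
    refine ⟨?_, h0, fun a => ?_⟩
    · rw [mem_cone]
      refine ⟨fun h1 => ?_, ?_⟩
      · rw [h1] at h0
        exact zero_ne_one h0
      · -- the vector `u`
        have hu' : IsUnit (Matrix.of fun i j => ℓ (t i) j : Matrix (Fin (k + 1)) (Fin (k + 1)) ℂ) :=
          (Matrix.isUnit_iff_isUnit_det _).2 (isUnit_iff_ne_zero.2 hM)
        obtain ⟨u, hu⟩ := (Matrix.mulVec_surjective_iff_isUnit.2 hu')
          fun j => (Fin.cons 1 z : Fin (k + 1) → ℂ) j ^ d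
        have hu1 : ∀ j, ∑ a, ℓ (t j) a * u a = (Fin.cons 1 z : Fin (k + 1) → ℂ) j ^ d :=
          fun j => congrFun hu j
        have hu2 : ∀ l, Y l z = ∑ a, ℓ l a * u a := by
          intro l
          simp only [hY, ← hu1, hΛ l, Finset.mul_sum, Finset.sum_mul]
          rw [Finset.sum_comm]
          exact Finset.sum_congr rfl fun j _ => Finset.sum_congr rfl fun i _ => by ring
        intro c hc
        refine rel_of_u (u := u) (fun l => ?_) hc
        by_cases hl : ∃ j, t j = l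
        · obtain ⟨j, rfl⟩ := hl
          rw [hΨt, hu1]
        · have hl' : ∀ j, t j ≠ l := fun j hj => hl ⟨j, hj⟩
          rw [hΨl z l hl', mul_pow, Complex.cpow_nat_inv_pow _ hd',
            mul_div_cancel₀ _ (pow_ne_zero d (hwne l hl')), hu2]
    · rw [hJ]
      simp only
      rw [hΨt, Fin.cons_succ]
  · -- uniqueness
    have hci : ∀ l, ContinuousAt (fun v : Fin (n + 1) → ℂ => v l) x := fun l =>
      (continuous_apply l).continuousAt
    have h1 : ∀ᶠ v : Fin (n + 1) → ℂ in 𝓝 x, v i ≠ 0 := (hci i).eventually_ne hx0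
    have h2 : ∀ l, (∀ j, t j ≠ l) → ∀ᶠ v : Fin (n + 1) → ℂ in 𝓝 x,
        (((v l / v i) / (x l / x i)) ^ d) ^ ((d : ℂ)⁻¹) = (v l / v i) / (x l / x i) := by
      intro l hl
      have h3 : Tendsto (fun v : Fin (n + 1) → ℂ => (v l / v i) / (x l / x i)) (𝓝 x) (𝓝 1) := by
        have h4 : ContinuousAt (fun v : Fin (n + 1) → ℂ => (v l / v i) / (x l / x i)) x :=
          ((hci l).div (hci i) hx0).div_const (x l / x i)
        have h5 : (x l / x i) / (x l / x i) = 1 := div_self (hwne l hl)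
        have h6 := h4.tendsto
        rwa [h5] at h6
      exact h3.eventually (root_eq hd')
    have h2' : ∀ᶠ v : Fin (n + 1) → ℂ in 𝓝 x, ∀ l, (∀ j, t j ≠ l) →
        (((v l / v i) / (x l / x i)) ^ d) ^ ((d : ℂ)⁻¹) = (v l / v i) / (x l / x i) := by
      rw [eventually_all]
      intro l
      by_cases hl : ∀ j, t j ≠ l
      · filter_upwards [h2 l hl] with v hv _
        exact hv
      · exact Eventually.of_forall fun v hv => absurd hv hl
    filter_upwards [h1, h2'] with v hvi hv hvX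
    funext l
    rw [Pi.smul_apply, smul_eq_mul]
    by_cases hl : ∃ j, t j = l
    · obtain ⟨j, rfl⟩ := hl
      rw [hΨt]
      revert j
      intro j
      refine Fin.cases ?_ (fun a => ?_) j
      · rw [Fin.cons_zero, mul_one]
      · rw [Fin.cons_succ, hJ]
        simp only
        rw [mul_div_cancel₀ _ hvi]
    · have hl' : ∀ j, t j ≠ l := fun j hj => hl ⟨j, hj⟩
      rw [hΨl _ l hl', hratio v hvX hvi l, ← div_pow, hv l hl', mul_div_cancel₀ _ (hwne l hl'),
        mul_div_cancel₀ _ hvi]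

end Pool.Agent.Helper65.BF
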