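import Pool.Agent.Helper65.BF.Wrd

/-!
Curves of bounded derivative in the Fermat covers of the line: the one-forms.
-/

set_option autoImplicit false

open Filter Topology Metric MvPolynomial Set

namespace Pool.Agent.Helper65.BF

open Pool.Agent.W602.GT Pool.Agent.N155.BB Pool.Agent.Y190.OP Pool.Agent.N155

variable {n p q s : ℕ} {κ : Fin (n + 1) → Fin 2 → ℂ} {J : Fin (p + 1) → Fin (n + 1)}

/-- the restriction to the chosen coordinates -/
def rs (J : Fin (p + 1) → Fin (n + 1)) (x : Fin (n + 1) → ℂ) : Fin (p + 1) → ℂ := fun l => x (J l)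

theorem St_two {r : ℕ} (a b : Fin (r + 1) → ℂ) (t : Fin 2 → Fin (r + 1)) :
    St ![a, b] t = a (t 0) * b (t 1) - b (t 0) * a (t 1) := by
  unfold St
  rw [Matrix.det_fin_two]
  simp

/-- the invariants -/
noncomputable def q1 (κ : Fin (n + 1) → Fin 2 → ℂ) (J : Fin (p + 1) → Fin (n + 1)) (q s : ℕ)
    (a b : Fin (p + 1)) (t : Fin 2 → Fin (p + 1)) (x v _w : Fin (n + 1) → ℂ) : ℂ :=
  rs J x a ^ s * rs J x b *
    Qt (fun l => κ (J l)) (fun l => rs J x l ^ q) ![rs J x, rs J v] t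

/-- the chosen coordinates of a point of the cone -/
theorem rs_cone (hg : GeneralPosition fun l => κ (J l)) (hp : 2 ≤ p + 1)
    {x : Fin (n + 1) → ℂ}
    (hx : x ∈ Cone (fermatForms κ (q + 1))) :
    rs J x ∈ Cone (fermatForms (fun l => κ (J l)) (q + 1)) := by
  classical
  rw [mem_cone] at hx ⊢
  have hrel : ∀ c : Fin (p + 1) → ℂ, ∑ l, c l • κ (J l) = 0 →
      ∑ l, c l * rs J x l ^ (q + 1) = 0 := by
    intro c hc
    have h1 := hx.2 (fun l => ∑ k, if J k = l then c k else 0) (by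
      rw [← hc]
      simp only [Finset.sum_smul]
      rw [Finset.sum_comm]
      refine Finset.sum_congr rfl fun k _ => ?_
      rw [Finset.sum_eq_single (J k)]
      · rw [if_pos rfl]
      · intro l _ hl
        rw [if_neg (Ne.symm hl), zero_smul]
      · intro h
        exact absurd (Finset.mem_univ _) h)
    simp only [Finset.sum_mul] at h1
    rw [Finset.sum_comm] at h1
    rw [← h1]
    refine Finset.sum_congr rfl fun k _ => ?_
    rw [Finset.sum_eq_single (J k)]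
    · rw [if_pos rfl]
      rfl
    · intro l _ hl
      rw [if_neg (Ne.symm hl), zero_mul]
    · intro h
      exact absurd (Finset.mem_univ _) h
  refine ⟨fun h0 => hx.1 ?_, hrel⟩
  -- all the other coordinates are determined
  set t : Fin 2 → Fin (p + 1) := Fin.castLE hp with ht
  have hM : Mt κ (fun i => J (t i)) ≠ 0 := hg.mt (Fin.castLE_injective hp)
  obtain ⟨Λ, hΛ⟩ := exists_coeff hM
  funext l
  have h1 := cone_coeff hΛ (mem_cone.2 hx) l
  have h2 : x l ^ (q + 1) = 0 := by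
    rw [h1]
    refine Finset.sum_eq_zero fun i _ => ?_
    have h3 : x (J (t i)) = 0 := congrFun h0 (t i)
    rw [h3, zero_pow (Nat.succ_ne_zero q), mul_zero]
  exact (pow_eq_zero_iff (Nat.succ_ne_zero q)).1 h2

theorem rs_smul (J : Fin (p + 1) → Fin (n + 1)) (c : ℂ) (x : Fin (n + 1) → ℂ) :
    rs J (c • x) = c • rs J x := rfl

theorem rs_add (J : Fin (p + 1) → Fin (n + 1)) (x y : Fin (n + 1) → ℂ) :
    rs J (x + y) = rs J x + rs J y := rfl

theorem cont_rs (J : Fin (p + 1) → Fin (n + 1)) : Continuous (rs J) :=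
  continuous_pi fun l => continuous_apply (J l)

theorem an_rs {γ : ℂ → Fin (n + 1) → ℂ} {z : ℂ} (h : AnalyticAt ℂ γ z)
    (J : Fin (p + 1) → Fin (n + 1)) : AnalyticAt ℂ (fun z => rs J (γ z)) z :=
  analyticAt_pi_iff.2 fun l => (analyticAt_pi_iff.1 h) (J l)

theorem deriv_rs {γ : ℂ → Fin (n + 1) → ℂ} {z : ℂ} (h : AnalyticAt ℂ γ z)
    (J : Fin (p + 1) → Fin (n + 1)) : deriv (fun z => rs J (γ z)) z = rs J (deriv γ z) := by
  have h1 : HasDerivAt (fun z => rs J (γ z)) (rs J (deriv γ z)) z :=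
    hasDerivAt_pi.2 fun l => (hasDerivAt_pi.1 h.differentiableAt.hasDerivAt) (J l)
  exact h1.deriv

/-- the scaling -/
theorem q1_scale (hps : (p - 1) * q = s + 3) {a b : Fin (p + 1)} {t : Fin 2 → Fin (p + 1)}
    (ht : Function.Injective t) (x v w w' : Fin (n + 1) → ℂ) {h : ℂ} (h' : ℂ) (hh : h ≠ 0) :
    q1 κ J q s a b t (h • x) (h' • x + h • v) w = q1 κ J q s a b t x v w' := by
  unfold q1 Qt
  rw [St_two, St_two]
  have h1 : (fun l => rs J (h • x) l ^ q) = fun l => h ^ q * rs J x l ^ q := by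
    funext l
    rw [rs_smul, Pi.smul_apply, smul_eq_mul, mul_pow]
  rw [h1, Gt_smul ht]
  have h2 : p + 1 - 2 = p - 1 := by omega
  rw [h2, ← pow_mul, mul_comm q, hps]
  simp only [rs_smul, rs_add, Pi.smul_apply, Pi.add_apply, smul_eq_mul]
  have h3 : h ^ (s + 3) ≠ 0 := pow_ne_zero _ hh
  have h4 : (h * rs J x a) ^ s * (h * rs J x b) *
      ((h * rs J x (t 0) * (h' * rs J x (t 1) + h * rs J v (t 1)) -
        (h' * rs J x (t 0) + h * rs J v (t 0)) * (h * rs J x (t 1))) /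
      (Mt (fun l => κ (J l)) t * (h ^ (s + 3) * Gt (fun l => rs J x l ^ q) t))) =
      (h ^ (s + 3) * (rs J x a ^ s * rs J x b * (rs J x (t 0) * rs J v (t 1) -
        rs J v (t 0) * rs J x (t 1)))) /
      (h ^ (s + 3) * (Mt (fun l => κ (J l)) t * Gt (fun l => rs J x l ^ q) t)) := by
    rw [← mul_div_assoc]
    congr 1
    · rw [pow_add]
      ring
    · ring
  rw [h4, mul_div_mul_left _ _ h3, mul_div_assoc]

/-- the relations -/
theorem rel_one (hg : GeneralPosition fun l => κ (J l)) (hp : 2 ≤ p + 1)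
    {γ : ℂ → Fin (n + 1) → ℂ} {z : ℂ}
    (hγ : AnalyticAt ℂ γ z) (hX : ∀ᶠ s in 𝓝 z, γ s ∈ Cone (fermatForms κ (q + 1))) (k : Fin 2) :
    ∃ u : Fin 2 → ℂ, ∀ l, rs J (γ z) l ^ q * (![rs J (γ z), rs J (deriv γ z)] : Fin 2 → _) k l =
      ∑ j, κ (J l) j * u j := by
  apply exists_u (hg.mt (Fin.castLE_injective hp))
  intro c hc
  have h0 : ∀ᶠ s in 𝓝 z, ∑ l, c l * rs J (γ s) l ^ (q + 1) = 0 := by
    filter_upwards [hX] with s hs
    exact (mem_cone.1 (rs_cone hg hp hs)).2 c hc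
  match k with
  | 0 =>
    rw [← h0.self_of_nhds]
    refine Finset.sum_congr rfl fun l _ => ?_
    simp only [Matrix.cons_val_zero]
    ring
  | 1 =>
    have hl : ∀ l, HasDerivAt (fun s => rs J (γ s) l) (rs J (deriv γ z) l) z := fun l =>
      (hasDerivAt_pi.1 hγ.differentiableAt.hasDerivAt) (J l)
    have hd1 : HasDerivAt (fun s => ∑ l, c l * rs J (γ s) l ^ (q + 1))
        (∑ l, c l * ((q + 1 : ℂ) * rs J (γ z) l ^ q * rs J (deriv γ z) l)) z := by
      refine HasDerivAt.fun_sum fun l _ => ?_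
      refine HasDerivAt.const_mul (c l) ?_
      refine ((hl l).pow (q + 1)).congr_deriv ?_
      rw [show q + 1 - 1 = q from rfl]
      push_cast
      ring
    have h1 : (fun s => ∑ l, c l * rs J (γ s) l ^ (q + 1)) =ᶠ[𝓝 z] fun _ => 0 := h0
    have h2 := hd1.unique ((hasDerivAt_const z (0 : ℂ)).congr_of_eventuallyEq h1)
    have hq : (q + 1 : ℂ) ≠ 0 := by exact_mod_cast Nat.succ_ne_zero q
    apply mul_left_cancel₀ hq
    rw [mul_zero, ← h2, Finset.mul_sum]
    refine Finset.sum_congr rfl fun l _ => ?_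
    simp only [Matrix.cons_val_one, Matrix.cons_val_zero]
    ring

theorem q1_an (hg : GeneralPosition fun l => κ (J l)) {a b : Fin (p + 1)}
    {γ : ℂ → Fin (n + 1) → ℂ} {z : ℂ} (hγ : AnalyticAt ℂ γ z)
    {t : Fin 2 → Fin (p + 1)} (ht : Adm (Zs (rs J (γ z))) t) :
    AnalyticAt ℂ (fun z => q1 κ J q s a b t (γ z) (deriv γ z) (deriv (deriv γ) z)) z := by
  have hxl : ∀ l, AnalyticAt ℂ (fun z => rs J (γ z) l) z := fun l => (analyticAt_pi_iff.1 hγ) (J l)
  have hvl : ∀ l, AnalyticAt ℂ (fun z => rs J (deriv γ z) l) z := fun l =>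
    (analyticAt_pi_iff.1 hγ.deriv) (J l)
  have hG : AnalyticAt ℂ (fun z => Gt (fun l => rs J (γ z) l ^ q) t) z := by
    unfold Gt
    exact Finset.analyticAt_fun_prod _ fun l _ => (hxl l).pow q
  unfold q1 Qt
  simp only [St_two]
  refine (((hxl a).pow s).mul (hxl b)).mul ((((hxl _).mul (hvl _)).sub ((hvl _).mul (hxl _))).div
    (analyticAt_const.mul hG) (mul_ne_zero (hg.mt ht.1) ?_))
  exact Gt_ne.2 fun l hl => pow_ne_zero _ (adm_ne ht hl)

theorem q1_bd (hg : GeneralPosition fun l => κ (J l)) {a b : Fin (p + 1)} {x : Fin (n + 1) → ℂ}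
    {t : Fin 2 → Fin (p + 1)}
    (ht : Adm (Zs (rs J x)) t) (K0 : ℝ) : ∃ C : ℝ, 0 ≤ C ∧ ∀ᶠ y in 𝓝 x, ∀ v w, ‖v‖ ≤ K0 →
      ‖w‖ ≤ K0 → ‖q1 κ J q s a b t y v w‖ ≤ C * ‖v‖ := by
  obtain ⟨δ, hδ, hev⟩ := Gt_low q ht
  set K : ℝ := ‖x‖ + 1 with hK
  have hK0 : 0 ≤ K := by positivity
  have hM := norm_pos_iff.2 (hg.mt ht.1)
  refine ⟨K ^ s * K * (2 * K / (‖Mt (fun l => κ (J l)) t‖ * δ)), by positivity, ?_⟩
  have hev2 : ∀ᶠ y : Fin (n + 1) → ℂ in 𝓝 x, ‖y‖ < ‖x‖ + 1 :=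
    continuous_norm.continuousAt.eventually_lt_const (lt_add_one _)
  filter_upwards [(cont_rs J).continuousAt.eventually hev, hev2] with y hy hy2 v w _ _
  have hyl : ∀ l, ‖rs J y l‖ ≤ K := fun l => (norm_le_pi_norm y (J l)).trans hy2.le
  have hvl : ∀ l, ‖rs J v l‖ ≤ ‖v‖ := fun l => norm_le_pi_norm v (J l)
  have hGp := hδ.trans hy
  unfold q1 Qt
  rw [St_two, norm_mul, norm_mul, norm_pow, norm_div, norm_mul]
  have h1 : ‖rs J y (t 0) * rs J v (t 1) - rs J v (t 0) * rs J y (t 1)‖ ≤ 2 * K * ‖v‖ := by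
    refine (norm_sub_le _ _).trans ?_
    rw [norm_mul, norm_mul]
    have e1 := mul_le_mul (hyl (t 0)) (hvl (t 1)) (norm_nonneg _) hK0
    have e2 := mul_le_mul (hvl (t 0)) (hyl (t 1)) (norm_nonneg _) (norm_nonneg v)
    linarith
  have h2 : ‖rs J y (t 0) * rs J v (t 1) - rs J v (t 0) * rs J y (t 1)‖ /
      (‖Mt (fun l => κ (J l)) t‖ * ‖Gt (fun l => rs J y l ^ q) t‖) ≤
      2 * K / (‖Mt (fun l => κ (J l)) t‖ * δ) * ‖v‖ := by
    rw [div_le_iff₀ (by positivity)]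
    refine h1.trans ?_
    calc 2 * K * ‖v‖ = 2 * K / (‖Mt (fun l => κ (J l)) t‖ * δ) * ‖v‖ *
        (‖Mt (fun l => κ (J l)) t‖ * δ) := by field_simp
      _ ≤ _ := by
        refine mul_le_mul_of_nonneg_left (mul_le_mul_of_nonneg_left hy.le hM.le) ?_
        positivity
  rw [mul_assoc (K ^ s * K)]
  refine mul_le_mul (mul_le_mul (pow_le_pow_left₀ (norm_nonneg _) (hyl a) s) (hyl b)
    (norm_nonneg _) (by positivity)) h2 (by positivity) (by positivity)

/-- **The one-forms.** -/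
theorem jd_one (hg : GeneralPosition fun l => κ (J l))
    (hps : (p - 1) * q = s + 3) (a b : Fin (p + 1)) :
    Jd (TF (fermatForms κ (q + 1))) (fun x t => Adm (Zs (rs J x)) t) (q1 κ J q s a b) := by
  have hq : q ≠ 0 := by
    rintro rfl
    omega
  have hp : 2 ≤ p + 1 := by
    by_contra hcon
    have : p - 1 = 0 := by omega
    rw [this] at hps
    omega
  refine ⟨fun M hM i hi => ?_, fun x t _ ht => (cont_rs J).continuousAt.eventually (op_adm ht),
    fun x t _ ht K => q1_bd hg ht K, fun γ z t hγ ht => q1_an hg hγ ht, ?_⟩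
  · exact exists_Adm hg (Nat.succ_pos q) hp (rs_cone hg hp (chart_cone form_fermat hM hi))
  · intro φ hφ z i t i' t' hi ht hi' ht'
    have hPM : ∀ w, φ w ∈ PM := fun w => hφ.hol.mem_PM (mem_univ w)
    have hx : cu φ i z i' ≠ 0 := chart_i'_ne (hPM z) hi hi'
    have hci : cu φ i' z = (cu φ i z i')⁻¹ • cu φ i z := chart_tr (hPM z) hi hi'
    have h2 : Adm (Zs (rs J (cu φ i z))) t' := by
      rw [hci, rs_smul, Zs_smul (inv_ne_zero hx)] at ht'
      exact ht'
    have han := cu_an hφ.hol i hi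
    have h3 : vl (q1 κ J q s a b) φ i t z = vl (q1 κ J q s a b) φ i t' z := by
      unfold vl q1
      congr 1
      refine Qt_indep hg (rel_one hg hp han (ev_cone form_fermat hφ.hol hφ.mem hi)) ?_ ?_
      · rwa [Zs_pow hq]
      · rwa [Zs_pow hq]
    have h4 : vl (q1 κ J q s a b) φ i' t' z = vl (q1 κ J q s a b) φ i t' z := by
      have hani : AnalyticAt ℂ (fun w => cu φ i w i') z := (analyticAt_pi_iff.1 han) i'
      have hh : AnalyticAt ℂ (fun w => (cu φ i w i')⁻¹) z := hani.inv hx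
      have h1 : cu φ i' =ᶠ[𝓝 z] fun w => (cu φ i w i')⁻¹ • cu φ i w := by
        filter_upwards [ev_diag hφ.hol hi, ev_diag hφ.hol hi'] with w hw hw'
        exact chart_tr (hPM w) hw hw'
      obtain ⟨e2, -⟩ := deriv_smul_two hh han
      unfold vl
      rw [h1.deriv_eq, h1.self_of_nhds, e2]
      exact q1_scale hps ht'.1 _ _ _ _ _ (inv_ne_zero hx)
    rw [h3, h4]

end Pool.Agent.Helper65.BF
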