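import Pool.Agent.Helper65.BF.Man

/-!
The canonical forms of the Fermat covers of the plane.
-/

set_option autoImplicit false

open Filter Topology Finset MvPolynomial

namespace Pool.Agent.Helper65.BF

open Pool.Agent.W602.GT Pool.Agent.N155.BB

/-- `t` contains all the indices in `Z` -/
def Adm {n r : ℕ} (Z : Set (Fin (n + 1))) (t : Fin r → Fin (n + 1)) : Prop :=
  Function.Injective t ∧ ∀ l, (∀ i, t i ≠ l) → l ∉ Z

open Classical in
/-- a choice of `t` -/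
noncomputable def tz {n r : ℕ} (hr : r ≤ n + 1) (Z : Set (Fin (n + 1))) : Fin r → Fin (n + 1) :=
  if h : ∃ t : Fin r → Fin (n + 1), Adm Z t then h.choose else Fin.castLE hr

theorem tz_adm {n r : ℕ} (hr : r ≤ n + 1) {Z : Set (Fin (n + 1))}
    (h : ∃ t : Fin r → Fin (n + 1), Adm Z t) : Adm Z (tz hr Z) := by
  unfold tz
  rw [dif_pos h]
  exact h.choose_spec

/-- the zeros -/
def Zs {n : ℕ} (x : Fin (n + 1) → ℂ) : Set (Fin (n + 1)) := {l | x l = 0}

theorem Zs_smul {n : ℕ} {x : Fin (n + 1) → ℂ} {c : ℂ} (hc : c ≠ 0) : Zs (c • x) = Zs x := by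
  ext l
  unfold Zs
  simp [hc]

theorem adm_ne {n r : ℕ} {x : Fin (n + 1) → ℂ} {t : Fin r → Fin (n + 1)} (h : Adm (Zs x) t)
    {l : Fin (n + 1)} (hl : ∀ i, t i ≠ l) : x l ≠ 0 := h.2 l hl

theorem Gt_smul {n r : ℕ} {g : Fin (n + 1) → ℂ} {t : Fin r → Fin (n + 1)}
    (ht : Function.Injective t) (c : ℂ) : Gt (fun l => c * g l) t = c ^ (n + 1 - r) * Gt g t := by
  unfold Gt
  rw [Finset.prod_mul_distrib, Finset.prod_const, Finset.card_compl, Finset.card_image_of_injective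
    _ ht]
  simp

variable {n r : ℕ} {ℓ : Fin (n + 1) → Fin r → ℂ} {d : ℕ}

theorem exists_Adm (h : GeneralPosition ℓ) (hd : 0 < d) (hr : r ≤ n + 1) {x : Fin (n + 1) → ℂ}
    (hx : x ∈ Cone (fermatForms ℓ d)) : ∃ t : Fin r → Fin (n + 1), Adm (Zs x) t := by
  obtain ⟨t, ht, h1⟩ := exists_adm h hd hr hx
  exact ⟨t, ht, fun l hl h2 => h1 l hl h2⟩

/-- a vector is tangent to the cone -/
def Tg (ℓ : Fin (n + 1) → Fin r → ℂ) (e : ℕ) (x v : Fin (n + 1) → ℂ) : Prop :=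
  ∃ u : Fin r → ℂ, ∀ l, x l ^ e * v l = ∑ j, ℓ l j * u j

theorem tg_self (h : GeneralPosition ℓ) (hr : r ≤ n + 1) {e : ℕ} {x : Fin (n + 1) → ℂ}
    (hx : x ∈ Cone (fermatForms ℓ (e + 1))) : Tg ℓ e x x := by
  obtain ⟨u, hu⟩ := exists_u (h.mt (Fin.castLE_injective hr)) (mem_cone.1 hx).2
  exact ⟨u, fun l => by rw [← hu l, pow_succ]⟩

theorem tg_comb {e : ℕ} {x : Fin (n + 1) → ℂ} {m : ℕ} {s : Fin m → Fin (n + 1) → ℂ}
    (hs : ∀ k, Tg ℓ e x (s k)) (c : Fin m → ℂ) : Tg ℓ e x (fun l => ∑ k, s k l * c k) := by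
  choose u hu using hs
  refine ⟨fun j => ∑ k, u k j * c k, fun l => ?_⟩
  simp only [Finset.mul_sum]
  rw [Finset.sum_comm]
  refine Finset.sum_congr rfl fun k _ => ?_
  have h1 := hu k l
  calc x l ^ e * (s k l * c k) = (x l ^ e * s k l) * c k := by ring
    _ = _ := by
      rw [h1, Finset.sum_mul]
      exact Finset.sum_congr rfl fun j _ => by ring

/-- tangent vectors with vanishing coordinates in `t` vanish -/
theorem tg_zero (h : GeneralPosition ℓ) {e : ℕ} {x v : Fin (n + 1) → ℂ} (hv : Tg ℓ e x v)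
    {t : Fin r → Fin (n + 1)} (ht : Adm (Zs x) t) (h0 : ∀ i, v (t i) = 0) : v = 0 := by
  obtain ⟨u, hu⟩ := hv
  have hu' : IsUnit (Matrix.of fun i j => ℓ (t i) j : Matrix (Fin r) (Fin r) ℂ) :=
    (Matrix.isUnit_iff_isUnit_det _).2 (isUnit_iff_ne_zero.2 (h.mt ht.1))
  have h1 : (Matrix.of fun i j => ℓ (t i) j : Matrix (Fin r) (Fin r) ℂ).mulVec u = 0 := by
    funext i
    have h2 := hu (t i)
    rw [h0 i, mul_zero] at h2
    exact h2.symm
  have h2 : u = 0 := by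
    apply (Matrix.mulVec_injective_iff_isUnit.2 hu')
    rw [h1, Matrix.mulVec_zero]
  funext l
  by_cases hl : ∃ i, t i = l
  · obtain ⟨i, rfl⟩ := hl
    exact h0 i
  · have hl' : ∀ j, t j ≠ l := fun j hj => hl ⟨j, hj⟩
    have h3 := hu l
    rw [h2] at h3
    simp only [Pi.zero_apply, mul_zero, Finset.sum_const_zero] at h3
    exact (mul_eq_zero.1 h3).resolve_left (pow_ne_zero e (adm_ne ht hl'))

/-- tangent vectors with linearly dependent coordinates in `t` are linearly dependent -/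
theorem st_ne (h : GeneralPosition ℓ) {e : ℕ} {x : Fin (n + 1) → ℂ} {s : Fin r → Fin (n + 1) → ℂ}
    (hs : ∀ k, Tg ℓ e x (s k)) {t : Fin r → Fin (n + 1)} (ht : Adm (Zs x) t)
    (hi : LinearIndependent ℂ s) : St s t ≠ 0 := by
  intro h0
  unfold St at h0
  obtain ⟨c, hc, hc0⟩ := Matrix.exists_mulVec_eq_zero_iff.2 h0
  have h1 : (fun l => ∑ k, s k l * c k) = 0 := by
    refine tg_zero h (tg_comb hs c) ht fun i => ?_
    exact congrFun hc0 i
  have h2 := Fintype.linearIndependent_iff.1 hi c (by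
    funext l
    have h3 : ∑ k, s k l * c k = 0 := congrFun h1 l
    rw [Finset.sum_apply]
    simp only [Pi.smul_apply, smul_eq_mul]
    rw [Pi.zero_apply, ← h3]
    exact Finset.sum_congr rfl fun k _ => mul_comm _ _)
  exact hc (funext h2)

/-- the quotients -/
noncomputable def Qt (ℓ : Fin (n + 1) → Fin r → ℂ) (g : Fin (n + 1) → ℂ)
    (s : Fin r → Fin (n + 1) → ℂ) (t : Fin r → Fin (n + 1)) : ℂ :=
  St s t / (Mt ℓ t * Gt g t)

theorem Qt_indep (h : GeneralPosition ℓ) {g : Fin (n + 1) → ℂ} {s : Fin r → Fin (n + 1) → ℂ}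
    (hs : ∀ k, ∃ u : Fin r → ℂ, ∀ l, g l * s k l = ∑ j, ℓ l j * u j)
    {t t' : Fin r → Fin (n + 1)} (ht : Adm (Zs g) t) (ht' : Adm (Zs g) t') :
    Qt ℓ g s t = Qt ℓ g s t' := by
  choose u hu using hs
  have hG : Gt g t ≠ 0 := Gt_ne.2 fun l hl => adm_ne ht hl
  have hG' : Gt g t' ≠ 0 := Gt_ne.2 fun l hl => adm_ne ht' hl
  have h1 := ex hu ht.1 ht'.1 (h.mt ht.1) hG hG'
  unfold Qt
  rw [div_eq_div_iff (mul_ne_zero (h.mt ht.1) hG) (mul_ne_zero (h.mt ht'.1) hG')]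
  exact h1

theorem Zs_pow {x : Fin (n + 1) → ℂ} {e : ℕ} (he : e ≠ 0) : Zs (fun l => x l ^ e) = Zs x := by
  ext l
  unfold Zs
  simp [he]

/-- derivatives are tangent -/
theorem tg_fderiv (h : GeneralPosition ℓ) (hr : r ≤ n + 1) {e k : ℕ} {U : Set (Fin k → ℂ)}
    {Ψ : (Fin k → ℂ) → Fin (n + 1) → ℂ} (hU : IsOpen U) (hΨ : AnalyticOnNhd ℂ Ψ U)
    (hX : ∀ z ∈ U, Ψ z ∈ Cone (fermatForms ℓ (e + 1))) {z : Fin k → ℂ} (hz : z ∈ U)
    (a : Fin k → ℂ) : Tg ℓ e (Ψ z) (fderiv ℂ Ψ z a) := by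
  apply exists_u (h.mt (Fin.castLE_injective hr))
  intro c hc
  have hd : HasFDerivAt Ψ (fderiv ℂ Ψ z) z := (hΨ z hz).differentiableAt.hasFDerivAt
  have hdl : ∀ l, HasFDerivAt (fun z => Ψ z l)
      ((ContinuousLinearMap.proj l).comp (fderiv ℂ Ψ z)) z := fun l => (hasFDerivAt_pi'.1 hd) l
  have h1 : HasFDerivAt (fun z => ∑ l, c l * Ψ z l ^ (e + 1)) (∑ l, c l •
      (((e + 1 : ℕ) : ℂ) * Ψ z l ^ e) • (ContinuousLinearMap.proj l).comp (fderiv ℂ Ψ z)) z := by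
    refine HasFDerivAt.fun_sum fun l _ => ?_
    refine HasFDerivAt.const_mul ?_ (c l)
    have h2 := (hdl l).pow (e + 1)
    simpa using h2
  have h2 : (fun z => ∑ l, c l * Ψ z l ^ (e + 1)) =ᶠ[𝓝 z] fun _ => 0 := by
    filter_upwards [hU.mem_nhds hz] with z' hz'
    exact (mem_cone.1 (hX z' hz')).2 c hc
  have h3 := h1.unique ((hasFDerivAt_const (0 : ℂ) z).congr_of_eventuallyEq h2)
  have h4 := congrArg (fun f => f a) h3
  simp only [_root_.sum_apply, _root_.smul_apply,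
    ContinuousLinearMap.comp_apply, ContinuousLinearMap.proj_apply, smul_eq_mul,
    _root_.zero_apply] at h4
  have h5 : (((e + 1 : ℕ) : ℂ)) * ∑ l, c l * (Ψ z l ^ e * fderiv ℂ Ψ z a l) = 0 := by
    rw [← h4, Finset.mul_sum]
    exact Finset.sum_congr rfl fun l _ => by ring
  exact (mul_eq_zero.1 h5).resolve_left (by exact_mod_cast Nat.succ_ne_zero e)

end Pool.Agent.Helper65.BF
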