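import Pool.Agent.Helper65.BF.Lines

/-!
Limits of curves of bounded derivative: uniform lower bounds for the derivative; Brody's lemma.
-/

set_option autoImplicit false

open Filter Topology Metric MvPolynomial Set

namespace Pool.Agent.Helper65.BF

open Pool.Agent.W602.GT Pool.Agent.N155.BB Pool.Agent.Y190.OP Pool.Agent.N155

variable {n m e : ℕ} {ℓ : Fin (n + 1) → Fin 3 → ℂ}

/-- the convergence of the jets -/
theorem jets_tendsto {𝓤 : Ultrafilter ℕ} {P : ℕ → ℂ → Mat (n + 1)} {H : ℂ → Mat (n + 1)}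
    (h : CConv (𝓤 : Filter ℕ) univ P H) (hP : ∀ m, HolP univ (P m)) {i : Fin (n + 1)} {z0 : ℂ}
    (hi : H z0 i i ≠ 0) :
    Tendsto (fun m => cu (P m) i z0) 𝓤 (𝓝 (cu H i z0)) ∧
    Tendsto (fun m => deriv (cu (P m) i) z0) 𝓤 (𝓝 (deriv (cu H i) z0)) ∧
    Tendsto (fun m => deriv (deriv (cu (P m) i)) z0) 𝓤 (𝓝 (deriv (deriv (cu H i)) z0)) := by
  have hO : IsOpen {M : Mat (n + 1) | M i i ≠ 0} :=
    isOpen_ne_fun (continuous_apply_apply i i) continuous_const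
  obtain ⟨V, hV, hzV, hm⟩ := cc_mem h (hO.mem_nhds hi)
  have hHc : ∀ w, ContinuousAt H w := fun w => h.continuousAt isOpen_univ (mem_univ w)
  have hev : ∀ᶠ w in 𝓝 z0, H w i i ≠ 0 := (hHc z0).eventually (hO.mem_nhds hi)
  obtain ⟨W, hWs, hW, hzW⟩ := _root_.mem_nhds_iff.1 (hev.and (hV.mem_nhds hzV))
  have hcc : CConv (𝓤 : Filter ℕ) W (fun m => cu (P m) i) (cu H i) :=
    CConv.comp (g := chart i) (fun w _ => h w (mem_univ w)) fun w hw =>
      continuousAt_chart (hWs hw).1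
  have hd : ∀ᶠ m in (𝓤 : Filter ℕ), DifferentiableOn ℂ (cu (P m) i) W := by
    filter_upwards [hm] with m hm w hw
    exact ((hP m).diff_chart (mem_univ w) (hm w (hWs hw).2)).differentiableWithinAt
  have h0 := hcc.locUnif hW
  have h1 := h0.deriv hd hW
  have hd1 : ∀ᶠ m in (𝓤 : Filter ℕ), DifferentiableOn ℂ ((deriv ∘ fun m => cu (P m) i) m) W := by
    filter_upwards [hd] with m hm
    exact hm.deriv hW
  have h2 := h1.deriv hd1 hW
  exact ⟨h0.tendsto_at hzW, h1.tendsto_at hzW, h2.tendsto_at hzW⟩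

/-- continuity of the invariant -/
theorem qw_tendsto {l : Filter ℕ} (hg : GeneralPosition ℓ) {t : Fin 3 → Fin (n + 1)}
    {x v w : Fin (n + 1) → ℂ} (ht : Adm (Zs x) t) {xs vs ws : ℕ → Fin (n + 1) → ℂ}
    (hx : Tendsto xs l (𝓝 x)) (hv : Tendsto vs l (𝓝 v)) (hw : Tendsto ws l (𝓝 w)) :
    Tendsto (fun m => qw ℓ e t (xs m) (vs m) (ws m)) l (𝓝 (qw ℓ e t x v w)) := by
  have hxl : ∀ a, Tendsto (fun m => xs m a) l (𝓝 (x a)) := fun a => (tendsto_pi_nhds.1 hx) a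
  have hvl : ∀ a, Tendsto (fun m => vs m a) l (𝓝 (v a)) := fun a => (tendsto_pi_nhds.1 hv) a
  have hwl : ∀ a, Tendsto (fun m => ws m a) l (𝓝 (w a)) := fun a => (tendsto_pi_nhds.1 hw) a
  have h0 : ∀ a, Tendsto (fun m => js e (xs m) (vs m) (ws m) 0 a) l (𝓝 (js e x v w 0 a)) := by
    intro a
    simp only [js, Matrix.cons_val_zero]
    exact (hxl a).pow 2
  have h1 : ∀ a, Tendsto (fun m => js e (xs m) (vs m) (ws m) 1 a) l (𝓝 (js e x v w 1 a)) := by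
    intro a
    simp only [js, Matrix.cons_val_one, Matrix.cons_val_zero]
    exact tendsto_const_nhds.mul ((hxl a).mul (hvl a))
  have h2 : ∀ a, Tendsto (fun m => js e (xs m) (vs m) (ws m) 2 a) l (𝓝 (js e x v w 2 a)) := by
    intro a
    simp only [js, Matrix.cons_val]
    exact tendsto_const_nhds.mul ((tendsto_const_nhds.mul ((hvl a).pow 2)).add
      ((hxl a).mul (hwl a)))
  have hS : Tendsto (fun m => St (js e (xs m) (vs m) (ws m)) t) l (𝓝 (St (js e x v w) t)) := by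
    simp only [St_three]
    exact ((((((h0 _).mul (h1 _)).mul (h2 _)).sub (((h0 _).mul (h2 _)).mul (h1 _))).sub
      (((h1 _).mul (h0 _)).mul (h2 _))).add (((h1 _).mul (h2 _)).mul (h0 _))).add
      (((h2 _).mul (h0 _)).mul (h1 _)) |>.sub (((h2 _).mul (h1 _)).mul (h0 _))
  have hG : Tendsto (fun m => Gt (fun l => xs m l ^ e) t) l (𝓝 (Gt (fun l => x l ^ e) t)) := by
    unfold Gt
    exact tendsto_finsetProd _ fun a _ => (hxl a).pow e
  unfold qw Qj Qt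
  refine hS.div (tendsto_const_nhds.mul hG) (mul_ne_zero (hg.mt ht.1) ?_)
  exact Gt_ne.2 fun l hl => pow_ne_zero _ (adm_ne ht hl)

/-- **A uniform lower bound.** -/
theorem low_unif (hg : GeneralPosition ℓ) (hn : n = m + 2) (hme : m * e = 6) (hm : 2 ≤ m) :
    ∃ δ : ℝ, 0 < δ ∧ ∀ φ, BD (TF (fermatForms ℓ (e + 2))) φ → 1 ≤ ‖fderiv ℝ φ 0‖ →
      ∀ z, δ ≤ ‖fderiv ℝ φ z‖ := by
  set T := TF (fermatForms ℓ (e + 2)) with hT
  have hTc : IsCompact T := isCompact_TF form_fermat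
  obtain ⟨C, hC, hex⟩ := (jd_wron hg hn hme).const hTc TF_PM
  have key : ∃ c1 : ℝ, 0 < c1 ∧ ∀ φ, BD T φ → 1 ≤ ‖fderiv ℝ φ 0‖ → ∀ c : ℂ,
      (∀ z i t, φ z i i ≠ 0 → Adm (Zs (cu φ i z)) t → vl (qw ℓ e) φ i t z = c) → c1 ≤ ‖c‖ := by
    by_contra hcon
    push Not at hcon
    have h1 : ∀ k : ℕ, ∃ φ, BD T φ ∧ 1 ≤ ‖fderiv ℝ φ 0‖ ∧ ∃ c : ℂ,
        (∀ z i t, φ z i i ≠ 0 → Adm (Zs (cu φ i z)) t → vl (qw ℓ e) φ i t z = c) ∧
        ‖c‖ < 1 / ((k : ℝ) + 1) := by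
      intro k
      obtain ⟨φ, h1, h2, c, h3, h4⟩ := hcon (1 / ((k : ℝ) + 1)) (by positivity)
      exact ⟨φ, h1, h2, c, h3, h4⟩
    choose φ hφ hφ0 c hc hcs using h1
    set 𝓤 : Ultrafilter ℕ := hyperfilter ℕ with h𝓤
    have hle : (𝓤 : Filter ℕ) ≤ atTop := by
      rw [← Nat.cofinite_eq_atTop]
      exact hyperfilter_le_cofinite
    obtain ⟨H, hH, hHT, hCC, hHd⟩ := exists_limit hTc TF_PM (𝓤 := 𝓤) (K := 2)
      (fun k => (hφ k).hol) (fun k => (hφ k).mem) (fun k => (hφ k).bd)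
    have hHB : BD T H := ⟨hH, hHT, fun z => le_of_tendsto (hHd z).norm
      (Eventually.of_forall fun k => (hφ k).bd z)⟩
    have hH0 : 1 ≤ ‖fderiv ℝ H 0‖ := ge_of_tendsto (hHd 0).norm
      (Eventually.of_forall fun k => hφ0 k)
    obtain ⟨cH, hcH, -⟩ := hex H hHB
    have hcz : Tendsto c 𝓤 (𝓝 0) := by
      rw [tendsto_zero_iff_norm_tendsto_zero]
      have h2 : Tendsto (fun k : ℕ => 1 / ((k : ℝ) + 1)) 𝓤 (𝓝 0) :=
        tendsto_one_div_add_atTop_nhds_zero_nat.mono_left hle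
      exact squeeze_zero (fun k => norm_nonneg _) (fun k => (hcs k).le) h2
    obtain ⟨i, hi⟩ := PM.exists_diag (TF_PM (hHT 0))
    obtain ⟨t, ht⟩ := exists_Adm hg (Nat.succ_pos (e + 1)) (by omega)
      (chart_cone form_fermat (hHT 0) hi)
    obtain ⟨e0, e1, e2⟩ := jets_tendsto hCC (fun k => (hφ k).hol) hi
    have h3 : Tendsto (fun k => vl (qw ℓ e) (φ k) i t 0) 𝓤 (𝓝 (vl (qw ℓ e) H i t 0)) :=
      qw_tendsto hg ht e0 e1 e2
    have hdi : ∀ᶠ k in (𝓤 : Filter ℕ), φ k 0 i i ≠ 0 := by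
      have h4 : Tendsto (fun k => φ k 0 i i) 𝓤 (𝓝 (H 0 i i)) :=
        ((continuous_apply_apply i i).continuousAt.tendsto).comp (hCC.pointwise (mem_univ 0))
      exact h4.eventually_ne hi
    have hda : ∀ᶠ k in (𝓤 : Filter ℕ), Adm (Zs (cu (φ k) i 0)) t := e0.eventually (op_adm ht)
    have h5 : (fun k => vl (qw ℓ e) (φ k) i t 0) =ᶠ[(𝓤 : Filter ℕ)] c := by
      filter_upwards [hdi, hda] with k hk hk'
      exact hc k 0 i t hk hk'
    have h6 : vl (qw ℓ e) H i t 0 = 0 := tendsto_nhds_unique (h3.congr' h5) hcz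
    have h7 : cH = 0 := by rw [← hcH 0 i t hi ht, h6]
    rw [h7] at hcH
    rw [deg_flat hg hn hme hm hHB hcH 0, norm_zero] at hH0
    linarith
  obtain ⟨c1, hc1, hkey⟩ := key
  refine ⟨c1 / (C + 1), by positivity, fun φ hφ h1 z => ?_⟩
  obtain ⟨c, hc, hcb⟩ := hex φ hφ
  have h2 := hkey φ hφ h1 c hc
  have h3 := hcb z
  have h4 := norm_nonneg (fderiv ℝ φ z)
  rw [div_le_iff₀ (by positivity)]
  nlinarith

/-- **Brody's lemma.** -/
theorem brody {T : Set (Mat (n + 1))} (hT : IsCompact T) (hTP : T ⊆ PM) {Ψ : ℂ → Mat (n + 1)}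
    (hΨ : HolP univ Ψ) (hΨT : ∀ z, Ψ z ∈ T) (hne : ¬ ∀ z, Ψ z = Ψ 0) :
    ∃ φ, BD T φ ∧ ‖fderiv ℝ φ 0‖ = 1 := by
  have h1 : ∀ n : ℕ, ∃ h : ℂ → Mat (_ + 1), HolP (ball 0 (n + 1 : ℝ)) h ∧
      (∀ z ∈ ball (0 : ℂ) (n + 1 : ℝ), h z ∈ T) ∧
      (∀ z ∈ ball (0 : ℂ) ((n + 1 : ℝ) / 2), ‖fderiv ℝ h z‖ ≤ 2) ∧ ‖fderiv ℝ h 0‖ = 1 := by
    intro n
    exact big hΨ hΨT hne (by positivity)
  choose h hH hHS hHd hH0 using h1
  set 𝓤 : Ultrafilter ℕ := hyperfilter ℕ with h𝓤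
  have hcof : ∀ R : ℝ, ∀ᶠ n : ℕ in (𝓤 : Filter ℕ), R ≤ n := by
    intro R
    have h2 : ∀ᶠ n : ℕ in atTop, R ≤ n := by
      filter_upwards [eventually_ge_atTop ⌈R⌉₊] with n hn
      exact (Nat.le_ceil R).trans (by exact_mod_cast hn)
    have h3 : (𝓤 : Filter ℕ) ≤ atTop := by
      rw [← Nat.cofinite_eq_atTop]
      exact hyperfilter_le_cofinite
    exact h3 h2
  have hlim : ∀ z : ℂ, ∃ y ∈ T, Tendsto (fun n => h n z) 𝓤 (𝓝 y) := by
    intro z
    have h1 : (𝓤.map (fun n => h n z) : Filter (Mat (n + 1))) ≤ 𝓟 T := by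
      rw [Ultrafilter.coe_map, le_principal_iff, mem_map]
      filter_upwards [hcof ‖z‖] with n hn
      exact hHS n z (mem_ball_zero_iff.2 (by linarith))
    obtain ⟨y, hy, hy'⟩ := hT.ultrafilter_le_nhds (𝓤.map (fun n => h n z)) h1
    exact ⟨y, hy, hy'⟩
  choose H hHmem hHt using hlim
  have hCC : ∀ R : ℝ, 0 < R → CConv (𝓤 : Filter ℕ) (ball 0 R) h H := by
    intro R hR z hz
    rw [Metric.tendsto_nhds]
    intro ε hε
    have h2 := Metric.tendsto_nhds.1 (hHt z) (ε / 2) (by positivity)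
    have h3 := hcof (2 * R)
    rw [eventually_prod_iff]
    refine ⟨_, h2.and h3, fun w => w ∈ ball (0 : ℂ) R ∧ dist w z < ε / 4, ?_, ?_⟩
    · have h4 : ∀ᶠ w in 𝓝 z, w ∈ ball (0 : ℂ) R := isOpen_ball.mem_nhds hz
      have h5 : ∀ᶠ w in 𝓝 z, dist w z < ε / 4 := ball_mem_nhds z (by positivity)
      exact h4.and h5
    · rintro n ⟨hn1, hn2⟩ w ⟨hw1, hw2⟩
      have h6 : ‖h n w - h n z‖ ≤ 2 * ‖w - z‖ := by
        have hsub : ball (0 : ℂ) R ⊆ ball (0 : ℂ) ((n + 1 : ℝ) / 2) :=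
          ball_subset_ball (by linarith)
        have hsub2 : ball (0 : ℂ) R ⊆ ball (0 : ℂ) (n + 1 : ℝ) :=
          ball_subset_ball (by linarith)
        exact (convex_ball (0 : ℂ) R).norm_image_sub_le_of_norm_fderiv_le
          (fun x hx => (hH n).differentiableAt (hsub2 hx))
          (fun x hx => hHd n x (hsub hx)) hz hw1
      calc dist (h n w) (H z) ≤ dist (h n w) (h n z) + dist (h n z) (H z) := dist_triangle _ _ _
        _ < ε / 2 + ε / 2 := by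
            refine add_lt_add ?_ hn1
            rw [dist_eq_norm]
            rw [dist_eq_norm] at hw2
            linarith
        _ = ε := by ring
  have hev : ∀ R : ℝ, 0 < R → ∀ᶠ n in (𝓤 : Filter ℕ), HolP (ball 0 R) (h n) := by
    intro R _
    filter_upwards [hcof R] with n hn
    exact (hH n).mono (ball_subset_ball (by linarith))
  have hl := fun (R : ℝ) (hR : 0 < R) => holP_limit isOpen_ball (hCC R hR)
    (hev R hR) (fun z _ => hTP (hHmem z))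
  have hHol : HolP univ H := by
    intro z _
    exact (hl (‖z‖ + 1) (by positivity)).1 z (mem_ball_zero_iff.2 (by linarith))
  have htd : ∀ z, Tendsto (fun n => fderiv ℝ (h n) z) 𝓤 (𝓝 (fderiv ℝ H z)) := fun z =>
    (hl (‖z‖ + 1) (by positivity)).2 z (mem_ball_zero_iff.2 (by linarith))
  refine ⟨H, ⟨hHol, hHmem, fun z => ?_⟩, ?_⟩
  · refine le_of_tendsto (htd z).norm ?_
    filter_upwards [hcof (2 * ‖z‖)] with n hn
    exact hHd n z (mem_ball_zero_iff.2 (by linarith))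
  · have h2 := (htd 0).norm
    simp only [hH0] at h2
    exact (tendsto_nhds_unique h2 tendsto_const_nhds)

end Pool.Agent.Helper65.BF
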