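import Pool.Agent.Helper65.BF.Jet
import Pool.Agent.Helper65.BF.Inv

/-!
The Wronskian is an invariant jet differential, constant along curves of bounded derivative.
-/

set_option autoImplicit false

open Filter Topology Metric MvPolynomial Set

namespace Pool.Agent.Helper65.BF

open Pool.Agent.W602.GT Pool.Agent.N155.BB Pool.Agent.Y190.OP Pool.Agent.N155

variable {n m e : ℕ} {ℓ : Fin (n + 1) → Fin 3 → ℂ}

/-- the value of the invariant -/
noncomputable def qw (ℓ : Fin (n + 1) → Fin 3 → ℂ) (e : ℕ) (t : Fin 3 → Fin (n + 1))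
    (x v w : Fin (n + 1) → ℂ) : ℂ := Qj ℓ e x v w t

theorem ev_cone {ι : Type} {F : ι → MvPolynomial (Fin (n + 1)) ℂ} (hF : ∀ c, IsForm (F c))
    {φ : ℂ → Mat (n + 1)} (h : HolP univ φ)
    (hφ : ∀ z, φ z ∈ TF F) {i : Fin (n + 1)} {s : ℂ}
    (hi : φ s i i ≠ 0) : ∀ᶠ s' in 𝓝 s, cu φ i s' ∈ Cone F := by
  filter_upwards [ev_diag h hi] with s' hs'
  exact chart_cone hF (hφ s') hs'

/-- independence of the rows -/
theorem qw_rows (hg : GeneralPosition ℓ) (hr : 3 ≤ n + 1) (he : e ≠ 0) {φ : ℂ → Mat (n + 1)}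
    (h : HolP univ φ) (hφ : ∀ z, φ z ∈ TF (fermatForms ℓ (e + 2))) {i : Fin (n + 1)} {s : ℂ}
    (hi : φ s i i ≠ 0) {t t' : Fin 3 → Fin (n + 1)} (ht : Adm (Zs (cu φ i s)) t)
    (ht' : Adm (Zs (cu φ i s)) t') : vl (qw ℓ e) φ i t s = vl (qw ℓ e) φ i t' s := by
  unfold vl qw Qj
  apply Qt_indep hg (js_rel hg hr (cu_an h i hi) (ev_cone form_fermat h hφ hi))
  · rwa [Zs_pow he]
  · rwa [Zs_pow he]

/-- independence of the chart -/
theorem qw_chart (hn : n = m + 2) (hme : m * e = 6) {φ : ℂ → Mat (n + 1)}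
    (h : HolP univ φ) {i i' : Fin (n + 1)} {s : ℂ}
    (hi : φ s i i ≠ 0) (hi' : φ s i' i' ≠ 0) {t : Fin 3 → Fin (n + 1)}
    (ht : Function.Injective t) : vl (qw ℓ e) φ i' t s = vl (qw ℓ e) φ i t s := by
  have hPM : ∀ w, φ w ∈ PM := fun w => h.mem_PM (mem_univ w)
  have hx : cu φ i s i' ≠ 0 := chart_i'_ne (hPM s) hi hi'
  have han := cu_an h i hi
  have hani : AnalyticAt ℂ (fun w => cu φ i w i') s := (analyticAt_pi_iff.1 han) i'
  have hh : AnalyticAt ℂ (fun w => (cu φ i w i')⁻¹) s := hani.inv hx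
  have h1 : cu φ i' =ᶠ[𝓝 s] fun w => (cu φ i w i')⁻¹ • cu φ i w := by
    filter_upwards [ev_diag h hi, ev_diag h hi'] with w hw hw'
    exact chart_tr (hPM w) hw hw'
  obtain ⟨h2, h3⟩ := deriv_smul_two hh han
  unfold vl qw
  rw [h1.deriv_eq, h1.deriv.deriv_eq, h1.self_of_nhds, h2, h3]
  exact Qj_scale hn hme ht _ _ (inv_ne_zero hx)

/-- admissible rows stay admissible -/
theorem op_adm {p r : ℕ} {x : Fin (p + 1) → ℂ} {t : Fin r → Fin (p + 1)} (ht : Adm (Zs x) t) :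
    ∀ᶠ y in 𝓝 x, Adm (Zs y) t := by
  have h4 : ∀ᶠ y : Fin (p + 1) → ℂ in 𝓝 x, ∀ l, (∀ i, t i ≠ l) → y l ≠ 0 := by
    rw [eventually_all]
    intro l
    by_cases hl : ∀ i, t i ≠ l
    · filter_upwards [(continuous_apply l).continuousAt.eventually_ne (adm_ne ht hl)] with z hz _
      exact hz
    · exact Eventually.of_forall fun z hz => absurd hz hl
  filter_upwards [h4] with z hz
  exact ⟨ht.1, fun l hl h5 => hz l hl h5⟩

theorem qw_an (hg : GeneralPosition ℓ) {γ : ℂ → Fin (n + 1) → ℂ} {s : ℂ} (hx : AnalyticAt ℂ γ s)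
    {t : Fin 3 → Fin (n + 1)} (ht : Adm (Zs (γ s)) t) :
    AnalyticAt ℂ (fun z => qw ℓ e t (γ z) (deriv γ z) (deriv (deriv γ) z)) s := by
  have hxl : ∀ l, AnalyticAt ℂ (fun z => γ z l) s := fun l => (analyticAt_pi_iff.1 hx) l
  have hvl : ∀ l, AnalyticAt ℂ (fun z => deriv γ z l) s := fun l =>
    (analyticAt_pi_iff.1 hx.deriv) l
  have hwl : ∀ l, AnalyticAt ℂ (fun z => deriv (deriv γ) z l) s := fun l =>
    (analyticAt_pi_iff.1 hx.deriv.deriv) l
  have h0 : ∀ l, AnalyticAt ℂ (fun z => js e (γ z) (deriv γ z)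
      (deriv (deriv γ) z) 0 l) s := fun l => by
    simp only [js, Matrix.cons_val_zero]
    exact (hxl l).pow 2
  have h1 : ∀ l, AnalyticAt ℂ (fun z => js e (γ z) (deriv γ z)
      (deriv (deriv γ) z) 1 l) s := fun l => by
    simp only [js, Matrix.cons_val_one, Matrix.cons_val_zero]
    exact analyticAt_const.mul ((hxl l).mul (hvl l))
  have h2 : ∀ l, AnalyticAt ℂ (fun z => js e (γ z) (deriv γ z)
      (deriv (deriv γ) z) 2 l) s := fun l => by
    simp only [js, Matrix.cons_val]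
    exact analyticAt_const.mul ((analyticAt_const.mul ((hvl l).pow 2)).add ((hxl l).mul (hwl l)))
  have hS : AnalyticAt ℂ (fun z => St (js e (γ z) (deriv γ z)
      (deriv (deriv γ) z)) t) s := by
    simp only [St_three]
    exact ((((((h0 _).mul (h1 _)).mul (h2 _)).sub (((h0 _).mul (h2 _)).mul (h1 _))).sub
      (((h1 _).mul (h0 _)).mul (h2 _))).add (((h1 _).mul (h2 _)).mul (h0 _))).add
      (((h2 _).mul (h0 _)).mul (h1 _)) |>.sub (((h2 _).mul (h1 _)).mul (h0 _))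
  have hG : AnalyticAt ℂ (fun z => Gt (fun l => γ z l ^ e) t) s := by
    unfold Gt
    exact Finset.analyticAt_fun_prod _ fun l _ => (hxl l).pow e
  unfold qw Qj Qt
  refine hS.div (analyticAt_const.mul hG) (mul_ne_zero (hg.mt ht.1) ?_)
  exact Gt_ne.2 fun l hl => pow_ne_zero _ (adm_ne ht hl)

/-- the lower bound for the product -/
theorem Gt_low {p r : ℕ} (e : ℕ) {x : Fin (p + 1) → ℂ} {t : Fin r → Fin (p + 1)}
    (ht : Adm (Zs x) t) : ∃ δ : ℝ, 0 < δ ∧ ∀ᶠ y in 𝓝 x, δ < ‖Gt (fun l => y l ^ e) t‖ := by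
  have hG0 : Gt (fun l => x l ^ e) t ≠ 0 :=
    Gt_ne.2 fun l hl => pow_ne_zero _ (adm_ne ht hl)
  have h1 := norm_pos_iff.2 hG0
  refine ⟨‖Gt (fun l => x l ^ e) t‖ / 2, by positivity, ?_⟩
  have hc : ContinuousAt (fun y : Fin (p + 1) → ℂ => Gt (fun l => y l ^ e) t) x := by
    unfold Gt
    exact tendsto_finsetProd _ fun l _ => ((continuous_apply l).continuousAt).pow e
  refine hc.norm.eventually_const_lt ?_
  linarith

/-- the bound -/
theorem qw_bd (hg : GeneralPosition ℓ) {x : Fin (n + 1) → ℂ} {t : Fin 3 → Fin (n + 1)}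
    (ht : Adm (Zs x) t) (K0 : ℝ) : ∃ C : ℝ, 0 ≤ C ∧ ∀ᶠ y in 𝓝 x, ∀ v w, ‖v‖ ≤ K0 → ‖w‖ ≤ K0 →
    ‖qw ℓ e t y v w‖ ≤ C * ‖v‖ := by
  obtain ⟨δ, hδ, hev⟩ := Gt_low e ht
  set K : ℝ := max K0 (‖x‖ + 1) with hK
  have hK0 : 0 ≤ K := by
    have := norm_nonneg x
    exact le_max_of_le_right (by linarith)
  set A : ℝ := 6 * (K ^ 2 * ((e + 2) * K) * ((e + 2) * ((e + 1) * K ^ 2 + K * K))) with hA
  have hA0 : 0 ≤ A := by positivity
  have hM := norm_pos_iff.2 (hg.mt ht.1)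
  refine ⟨A / (‖Mt ℓ t‖ * δ), by positivity, ?_⟩
  have hev2 : ∀ᶠ y : Fin (n + 1) → ℂ in 𝓝 x, ‖y‖ < ‖x‖ + 1 :=
    continuous_norm.continuousAt.eventually_lt_const (lt_add_one _)
  filter_upwards [hev, hev2] with y hy hy2 v w hv hw
  have h1 := St_js_le (e := e) (hy2.le.trans (le_max_right _ _)) (hv.trans (le_max_left _ _))
    (hw.trans (le_max_left _ _)) t
  have hGp := hδ.trans hy
  unfold qw Qj Qt
  rw [norm_div, norm_mul, div_le_iff₀ (by positivity)]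
  calc _ ≤ A * ‖v‖ := h1
    _ = A / (‖Mt ℓ t‖ * δ) * ‖v‖ * (‖Mt ℓ t‖ * δ) := by
        field_simp
    _ ≤ _ := by
        refine mul_le_mul_of_nonneg_left (mul_le_mul_of_nonneg_left hy.le hM.le) ?_
        positivity

/-- **The Wronskian is an invariant jet differential.** -/
theorem jd_wron (hg : GeneralPosition ℓ) (hn : n = m + 2) (hme : m * e = 6) :
    Jd (TF (fermatForms ℓ (e + 2))) (fun x t => Adm (Zs x) t) (qw ℓ e) := by
  have he : e ≠ 0 := by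
    rintro rfl
    omega
  have hr : 3 ≤ n + 1 := by omega
  refine ⟨fun M hM i hi => ?_, fun x t _ ht => op_adm ht, fun x t _ ht K => qw_bd hg ht K,
    fun γ z t hγ ht => qw_an hg hγ ht, ?_⟩
  · exact exists_Adm hg (by omega) hr (chart_cone form_fermat hM hi)
  · intro φ hφ z i t i' t' hi ht hi' ht'
    have hPM : φ z ∈ PM := hφ.hol.mem_PM (mem_univ z)
    have hx : cu φ i z i' ≠ 0 := chart_i'_ne hPM hi hi'
    have h1 : cu φ i' z = (cu φ i z i')⁻¹ • cu φ i z := chart_tr hPM hi hi'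
    have h2 : Adm (Zs (cu φ i z)) t' := by
      rw [h1, Zs_smul (inv_ne_zero hx)] at ht'
      exact ht'
    rw [qw_rows hg hr he hφ.hol hφ.mem hi ht h2, qw_chart hn hme hφ.hol hi hi' ht'.1]

end Pool.Agent.Helper65.BF
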